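import Pool.Agent.B5Z.DI
import Pool.Agent.B5.PA

/-!
B5Z / DJ: sT = phi^2/e2 phi (so sT * e2 phi = phi^2), sE2 * sT * e2 sT = e2 phi * e10 sT exactly: by `dissect` multiplied out (all series have constant coefficient 1; the integers have no zero divisors).
sT = 1 mod 2: phi^2 = e2 phi mod 2 (Frobenius), say sT = 1 + 2 y, so 2^(k+1) divides sT^(2^k) - 1 (`dvd_sub_pow_of_dvd_sub`), also for e2 sT (e2 is a ring homomorphism). So
sS k = e2 phi * e10 sT * sT^(2^k - 1) * (e2 sT)^(2^k-1) = sE2 * sT^(2^k) * (e2 sT)^(2^k) = sE2 mod 2^k.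
-/

set_option autoImplicit false

namespace Pool.Agent.B5Z

open PowerSeries UpperHalfPlane Pool.Agent.B5 Pool.Agent.B5X
open scoped MatrixGroups ModularForm Manifold

private theorem dj_e2_c0 : PowerSeries.constantCoeff (e2 phi) = 1 := by
  rw [← PowerSeries.coeff_zero_eq_constantCoeff_apply, e2, PowerSeries.coeff_expand]
  simp [phi_coeff_zero]

private theorem dj_sT : sT * e2 phi = phi ^ 2 := by
  rw [sT, mul_assoc, mul_comm (PowerSeries.invOfUnit _ _),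
    PowerSeries.mul_invOfUnit _ _ (by rw [dj_e2_c0]; rfl), mul_one]

private theorem dj_ne : e2 phi ≠ 0 := by
  intro h
  have := dj_e2_c0
  rw [h] at this
  simp at this

private theorem dj_phi_ne : phi ≠ 0 := by
  intro h
  have := phi_coeff_zero
  rw [h] at this
  simp at this

private theorem dj_exp (a b : ℕ) (ha : a ≠ 0) (hb : b ≠ 0) (c : ℤ⟦X⟧) :
    PowerSeries.expand a ha (PowerSeries.expand b hb c) = PowerSeries.expand (a * b) (mul_ne_zero ha hb) c := by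
  exact (PowerSeries.expand_mul a ha b hb c).symm

private theorem dj_e2e2 : e2 (e2 phi) = e4 phi := dj_exp 2 2 _ _ phi

private theorem dj_e2mul (a b : ℤ⟦X⟧) : e2 (a * b) = e2 a * e2 b := map_mul (PowerSeries.expand 2 _) a b
private theorem dj_e10mul (a b : ℤ⟦X⟧) : e10 (a * b) = e10 a * e10 b := map_mul (PowerSeries.expand 10 _) a b
private theorem dj_e2pow (a : ℤ⟦X⟧) (k : ℕ) : e2 (a ^ k) = e2 a ^ k := map_pow (PowerSeries.expand 2 _) a k
private theorem dj_e10pow (a : ℤ⟦X⟧) (k : ℕ) : e10 (a ^ k) = e10 a ^ k := map_pow (PowerSeries.expand 10 _) a k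
private theorem dj_e10e2 : e10 (e2 phi) = e20 phi := dj_exp 10 2 _ _ phi

private theorem dj_exact : sE2 * sT * e2 sT = e2 phi * e10 sT := by
  -- multiply by  e2 phi * e4 phi * e20 phi * ...
  have h1 := dj_sT
  have h2 : e2 sT * e4 phi = e2 phi ^ 2 := by
    rw [← dj_e2e2, ← dj_e2mul, h1, dj_e2pow]
  have h3 : e10 sT * e20 phi = e10 phi ^ 2 := by
    rw [← dj_e10e2, ← dj_e10mul, h1, dj_e10pow]
  have hd := dissect
  have n1 := dj_ne
  have n4 : e4 phi ≠ 0 := by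
    intro h
    rw [h, mul_zero] at h2
    exact (pow_ne_zero 2 n1) h2.symm
  have n20 : e20 phi ≠ 0 := by
    intro h
    have h5 : PowerSeries.constantCoeff (e20 phi) = 1 := by
      rw [← PowerSeries.coeff_zero_eq_constantCoeff_apply, e20, PowerSeries.coeff_expand]
      simp [phi_coeff_zero]
    rw [h] at h5
    simp at h5
  have key : (sE2 * sT * e2 sT) * (e2 phi * e4 phi * e20 phi) =
      (e2 phi * e10 sT) * (e2 phi * e4 phi * e20 phi) := by
    calc (sE2 * sT * e2 sT) * (e2 phi * e4 phi * e20 phi)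
        = sE2 * (sT * e2 phi) * (e2 sT * e4 phi) * e20 phi := by ring
      _ = (sE2 * phi ^ 2 * e20 phi) * e2 phi ^ 2 := by rw [h1, h2]; ring
      _ = e4 phi * (e10 phi) ^ 2 * e2 phi ^ 2 := by rw [hd]
      _ = e4 phi * (e10 sT * e20 phi) * e2 phi ^ 2 := by rw [h3]
      _ = _ := by ring
  exact mul_right_cancel₀ (mul_ne_zero (mul_ne_zero n1 n4) n20) key

/-- Frobenius -/
private theorem dj_frob : ∃ y : ℤ⟦X⟧, sT = 1 + 2 * y := by
  have h1 : ∃ z : ℤ⟦X⟧, phi ^ 2 = e2 phi + 2 * z := by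
    have h2 : ∀ n, (2 : ℤ) ∣ PowerSeries.coeff n (phi ^ 2 - e2 phi) := by
      intro n
      apply (ZMod.intCast_zmod_eq_zero_iff_dvd _ 2).mp
      have h3 : (PowerSeries.map (Int.castRingHom (ZMod 2))) (phi ^ 2) =
          (PowerSeries.map (Int.castRingHom (ZMod 2))) (e2 phi) := by
        rw [map_pow, e2, sq_eq, PowerSeries.map_expand]
      have h4 := congrArg (PowerSeries.coeff n) h3
      rw [PowerSeries.coeff_map, PowerSeries.coeff_map] at h4
      rw [map_sub, Int.cast_sub]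
      exact sub_eq_zero.mpr h4
    choose f hf using h2
    refine ⟨PowerSeries.mk f, ?_⟩
    ext n
    have := hf n
    rw [map_sub] at this
    rw [map_add]
    have e : PowerSeries.coeff n ((2 : ℤ⟦X⟧) * PowerSeries.mk f) = 2 * f n := by
      have : (2 : ℤ⟦X⟧) = PowerSeries.C (2 : ℤ) := by simp
      rw [this, PowerSeries.coeff_C_mul, PowerSeries.coeff_mk]
    rw [e]
    linarith
  obtain ⟨z, hz⟩ := h1
  refine ⟨z * PowerSeries.invOfUnit (e2 phi) 1, ?_⟩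
  apply mul_right_cancel₀ dj_ne
  rw [dj_sT, hz, add_mul, one_mul, mul_assoc, mul_assoc, mul_comm (PowerSeries.invOfUnit _ _),
    PowerSeries.mul_invOfUnit _ _ (by rw [dj_e2_c0]; rfl), mul_one]

theorem sE2_cong (k n : ℕ) : ((2 : ℤ) ^ k) ∣ PowerSeries.coeff n (sS k) - PowerSeries.coeff n sE2 := by
  obtain ⟨y, hy⟩ := dj_frob
  have hexp : ∀ s : ℤ⟦X⟧, (∃ y, s = 1 + 2 * y) → ∃ w, s ^ (2 ^ k) = 1 + 2 ^ k * w := by
    rintro s ⟨y, rfl⟩
    have h1 : ((2 : ℕ) : ℤ⟦X⟧) ∣ (1 + 2 * y) - 1 := ⟨y, by push_cast; ring⟩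
    have h2 := dvd_sub_pow_of_dvd_sub h1 k
    obtain ⟨w, hw⟩ := h2
    refine ⟨2 * w, ?_⟩
    rw [one_pow] at hw
    push_cast at hw
    have : (2 : ℤ⟦X⟧) ^ (k + 1) = 2 ^ k * 2 := pow_succ _ _
    rw [this] at hw
    linear_combination hw
  obtain ⟨w1, hw1⟩ := hexp sT ⟨y, hy⟩
  obtain ⟨w2, hw2⟩ := hexp (e2 sT) ⟨e2 y, by
    rw [hy]
    show (PowerSeries.expand 2 (by norm_num)) (1 + 2 * y) = 1 + 2 * (PowerSeries.expand 2 (by norm_num)) y
    rw [map_add, map_mul, map_one]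
    congr 2
    exact map_ofNat _ 2⟩
  have hp : ∀ s : ℤ⟦X⟧, s ^ (2 ^ k) = s * s ^ (2 ^ k - 1) := by
    intro s
    rw [← pow_succ', Nat.sub_add_cancel Nat.one_le_two_pow]
  have h1 : sS k = sE2 * sT ^ (2 ^ k) * (e2 sT) ^ (2 ^ k) := by
    rw [hp sT, hp (e2 sT), sS]
    calc e2 phi * sT ^ (2 ^ k - 1) * (e2 sT) ^ (2 ^ k - 1) * e10 sT
        = (e2 phi * e10 sT) * (sT ^ (2 ^ k - 1) * (e2 sT) ^ (2 ^ k - 1)) := by ring
      _ = (sE2 * sT * e2 sT) * (sT ^ (2 ^ k - 1) * (e2 sT) ^ (2 ^ k - 1)) := by rw [dj_exact]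
      _ = _ := by ring
  have h2 : sS k - sE2 = (2 : ℤ⟦X⟧) ^ k * (sE2 * (w1 + w2 + 2 ^ k * w1 * w2)) := by
    rw [h1, hw1, hw2]
    ring
  rw [← map_sub, h2]
  have h3 : (2 : ℤ⟦X⟧) ^ k = PowerSeries.C ((2 : ℤ) ^ k) := by
    rw [map_pow]
    congr 1
  rw [h3, PowerSeries.coeff_C_mul]
  exact dvd_mul_right _ _

end Pool.Agent.B5Z
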