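import Pool.Agent.B5Z.Defs
import Pool.Agent.B5.EQ1
import Pool.Agent.B5.FH1

/-!
B5Z / K1: h2 = eta^2 has weight 1 and trivial multiplier on Gamma(12) (as Pool.Agent.B5.FH1). kappa(T) = exp(2 pi i/12), kappa(S) = -i (eta(-1/z)^2 = (z/i) eta(z)^2). kappa^4 is trivial on Gamma(3)
(kappa(T)^4 = exp(2 pi i/3), kappa(S)^4 = 1: as s3 in FH1), kappa^3 on Gamma(4): kappa^3(T) = i, kappa^3(S) = (-i)^3 = i, and there is a homomorphism s4 : SL(2, ZMod 4) -> ZMod 4 with S, T -> 1.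
An explicit formula for kappa^12-th root exponent: kappa(a b; c d) = exp(2 pi i/12 * ((1-c^2)(b d + 3 (c-1) d + c + 3) + c (a + d - 3))); reduce the exponent mod 4 (resp. mod 3) and check the
homomorphism property by `decide` over ZMod 4 (resp. ZMod 3). kappa = kappa^4 / kappa^3.
-/

set_option autoImplicit false

namespace Pool.Agent.B5Z

open PowerSeries UpperHalfPlane Pool.Agent.B5 Pool.Agent.B5X
open scoped MatrixGroups ModularForm Manifold

namespace K1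

/-- the additive character of `SL(2, ZMod 4)` in coordinates -/
def s4 (a b c d : ZMod 4) : ZMod 4 :=
  (1 - c ^ 2) * (b * d + 3 * (c - 1) * d + c + 3) + c * (a + d - 3)

theorem s4_T : ∀ a b c d : ZMod 4, a * d - b * c = 1 →
    s4 a (a + b) c (c + d) = s4 a b c d + 1 := by
  decide

theorem s4_S : ∀ a b c d : ZMod 4, a * d - b * c = 1 →
    s4 b (-a) d (-c) = s4 a b c d + 1 := by
  decide

/-- the cube root of unity `exp (2 π i / 3)` -/
noncomputable def om : ℂ := Complex.exp (2 * Real.pi * Complex.I / 3)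

theorem om_pow : om ^ 3 = 1 := by
  rw [om, ← Complex.exp_nat_mul, Complex.exp_eq_one_iff]
  refine ⟨1, ?_⟩
  push_cast
  ring

theorem negI_mul_om : - Complex.I * om = Complex.exp (2 * Real.pi * Complex.I / 12) := by
  have h1 : Complex.exp (- (Real.pi / 2 * Complex.I)) = - Complex.I := by
    rw [Complex.exp_neg, Complex.exp_pi_div_two_mul_I, Complex.inv_I]
  rw [← h1, om, ← Complex.exp_add]
  congr 1
  ring

theorem pow_val_add (n : ℕ) [NeZero n] (c : ℂ) (hc : c ^ n = 1) (x y : ZMod n) :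
    c ^ (x + y).val = c ^ x.val * c ^ y.val := by
  rw [← pow_add, ZMod.val_add]
  have h : c ^ (x.val + y.val) = c ^ ((x.val + y.val) % n + n * ((x.val + y.val) / n)) := by
    rw [Nat.mod_add_div]
  rw [h, pow_add, pow_mul, hc, one_pow, mul_one]

theorem negI_pow : (- Complex.I) ^ 4 = 1 := by
  rw [neg_pow, Complex.I_pow_four]
  norm_num

/-- the multiplier of `η ^ 2` -/
noncomputable def kap (γ : SL(2, ℤ)) : ℂ :=
  (- Complex.I) ^ (s4 (γ 0 0 : ZMod 4) (γ 0 1 : ZMod 4) (γ 1 0 : ZMod 4) (γ 1 1 : ZMod 4)).val *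
    om ^ (FH1.s3 (γ 0 0 : ZMod 3) (γ 0 1 : ZMod 3) (γ 1 0 : ZMod 3) (γ 1 1 : ZMod 3)).val

theorem kap_ne (γ : SL(2, ℤ)) : kap γ ≠ 0 := by
  unfold kap
  have h1 : om ≠ 0 := Complex.exp_ne_zero _
  have h2 : - Complex.I ≠ 0 := neg_ne_zero.2 Complex.I_ne_zero
  exact mul_ne_zero (pow_ne_zero _ h2) (pow_ne_zero _ h1)

theorem kap_norm (γ : SL(2, ℤ)) : ‖kap γ‖ = 1 := by
  unfold kap
  have h1 : ‖om‖ = 1 := by
    rw [om]
    have : (2 * Real.pi * Complex.I / 3 : ℂ) = ((2 * Real.pi / 3 : ℝ) : ℂ) * Complex.I := by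
      push_cast
      ring
    rw [this, Complex.norm_exp_ofReal_mul_I]
  have h2 : ‖- Complex.I‖ = 1 := by simp
  rw [norm_mul, norm_pow, norm_pow, h1, h2, one_pow, one_pow, one_mul]

theorem kap_one : kap 1 = 1 := by
  have h2 : s4 1 0 0 1 = 0 := by decide
  have h3 : FH1.s3 1 0 0 1 = 0 := by decide
  unfold kap
  simp [h2, h3]

theorem kap_T : kap ModularGroup.T = Complex.exp (2 * Real.pi * Complex.I / 12) := by
  have c2 : (s4 1 1 0 1).val = 1 := by decide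
  have c3 : (FH1.s3 1 1 0 1).val = 1 := by decide
  unfold kap
  rw [← negI_mul_om]
  simp [ModularGroup.T, c2, c3]

theorem kap_S : kap ModularGroup.S = - Complex.I := by
  have c2 : (s4 0 (-1) 1 0).val = 1 := by decide
  have c3 : (FH1.s3 0 (-1) 1 0).val = 0 := by decide
  unfold kap
  simp [ModularGroup.S, c2, c3]

theorem mul_entry (γ δ : SL(2, ℤ)) (i j : Fin 2) :
    (γ * δ) i j = γ i 0 * δ 0 j + γ i 1 * δ 1 j := by
  rw [Matrix.SpecialLinearGroup.coe_mul, Matrix.mul_apply, Fin.sum_univ_two]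

theorem s3_step (γ δ : SL(2, ℤ)) :
    FH1.s3 ((γ * δ) 0 0 : ZMod 3) ((γ * δ) 0 1 : ZMod 3) ((γ * δ) 1 0 : ZMod 3)
      ((γ * δ) 1 1 : ZMod 3) =
    FH1.s3 (γ 0 0 : ZMod 3) (γ 0 1 : ZMod 3) (γ 1 0 : ZMod 3) (γ 1 1 : ZMod 3) +
    FH1.s3 (δ 0 0 : ZMod 3) (δ 0 1 : ZMod 3) (δ 1 0 : ZMod 3) (δ 1 1 : ZMod 3) := by
  have h3 := FH1.s3_mul _ _ _ _ _ _ _ _ (FH1.det_cast 3 γ) (FH1.det_cast 3 δ)
  rw [mul_entry, mul_entry, mul_entry, mul_entry]
  push_cast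
  rw [h3]

theorem kap_mul_gen (γ y : SL(2, ℤ))
    (h4 : s4 ((γ * y) 0 0 : ZMod 4) ((γ * y) 0 1 : ZMod 4) ((γ * y) 1 0 : ZMod 4)
      ((γ * y) 1 1 : ZMod 4) =
    s4 (γ 0 0 : ZMod 4) (γ 0 1 : ZMod 4) (γ 1 0 : ZMod 4) (γ 1 1 : ZMod 4) +
    s4 (y 0 0 : ZMod 4) (y 0 1 : ZMod 4) (y 1 0 : ZMod 4) (y 1 1 : ZMod 4)) :
    kap (γ * y) = kap γ * kap y := by
  unfold kap
  rw [s3_step, h4, pow_val_add 4 _ negI_pow, pow_val_add 3 _ om_pow]
  ring

theorem kap_mul_T (γ : SL(2, ℤ)) : kap (γ * ModularGroup.T) = kap γ * kap ModularGroup.T := by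
  apply kap_mul_gen
  have c1 : s4 1 1 0 1 = 1 := by decide
  have h := s4_T _ _ _ _ (FH1.det_cast 4 γ)
  rw [mul_entry, mul_entry, mul_entry, mul_entry]
  have e1 : ModularGroup.T 0 0 = 1 := rfl
  have e2 : ModularGroup.T 0 1 = 1 := rfl
  have e3 : ModularGroup.T 1 0 = 0 := rfl
  have e4 : ModularGroup.T 1 1 = 1 := rfl
  rw [e1, e2, e3, e4]
  push_cast
  simp only [mul_one, mul_zero, add_zero, Int.cast_one, Int.cast_zero]
  rw [c1]
  exact h

theorem kap_mul_S (γ : SL(2, ℤ)) : kap (γ * ModularGroup.S) = kap γ * kap ModularGroup.S := by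
  apply kap_mul_gen
  have c1 : s4 0 (-1) 1 0 = 1 := by decide
  have h := s4_S _ _ _ _ (FH1.det_cast 4 γ)
  rw [mul_entry, mul_entry, mul_entry, mul_entry]
  have e1 : ModularGroup.S 0 0 = 0 := rfl
  have e2 : ModularGroup.S 0 1 = -1 := rfl
  have e3 : ModularGroup.S 1 0 = 1 := rfl
  have e4 : ModularGroup.S 1 1 = 0 := rfl
  rw [e1, e2, e3, e4]
  push_cast
  simp only [mul_one, mul_zero, add_zero, zero_add, mul_neg, Int.cast_one, Int.cast_zero]
  rw [c1]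
  exact h

theorem eta_neg_inv_sq (z : ℍ) :
    ModularForm.eta (-(z : ℂ)⁻¹) ^ 2 = - Complex.I * (z : ℂ) * ModularForm.eta z ^ 2 := by
  have hz : (z : ℂ) / Complex.I ≠ 0 := div_ne_zero z.ne_zero Complex.I_ne_zero
  rw [eta_neg_inv, mul_pow, ← Complex.exp_nat_mul]
  congr 1
  have h1 : ((2 : ℕ) : ℂ) * (Complex.log ((z : ℂ) / Complex.I) / 2) =
      Complex.log ((z : ℂ) / Complex.I) := by
    push_cast
    ring
  rw [h1, Complex.exp_log hz, div_eq_mul_inv, Complex.inv_I]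
  ring

theorem h2_T : h2 ∣[(1 : ℤ)] ModularGroup.T = kap ModularGroup.T • h2 := by
  ext z
  rw [kap_T, ModularForm.SL_slash_apply, ModularGroup.denom_apply, modular_T_smul]
  simp only [h2, Pi.smul_apply, smul_eq_mul]
  have h1 : ModularForm.eta ((((1 : ℝ) +ᵥ z : ℍ)) : ℂ) =
      Complex.exp (2 * Real.pi * Complex.I / 24) * ModularForm.eta z := by
    have : ((((1 : ℝ) +ᵥ z : ℍ)) : ℂ) = (z : ℂ) + 1 := by
      rw [UpperHalfPlane.coe_vadd]
      push_cast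
      ring
    rw [this, eta_add_one]
  rw [h1, mul_pow, ← Complex.exp_nat_mul]
  have h2 : ((2 : ℕ) : ℂ) * (2 * Real.pi * Complex.I / 24) = 2 * Real.pi * Complex.I / 12 := by
    push_cast; ring
  rw [h2]
  simp [ModularGroup.T]

theorem h2_S : h2 ∣[(1 : ℤ)] ModularGroup.S = kap ModularGroup.S • h2 := by
  ext z
  rw [kap_S, ModularForm.SL_slash_apply, UpperHalfPlane.modular_S_smul]
  simp only [h2, Pi.smul_apply, smul_eq_mul]
  have h1 : ModularForm.eta ((UpperHalfPlane.mk (-(z : ℂ))⁻¹ z.im_inv_neg_coe_pos : ℍ) : ℂ) ^ 2 =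
      - Complex.I * (z : ℂ) * ModularForm.eta z ^ 2 := by
    rw [← eta_neg_inv_sq]
    simp [inv_neg]
  rw [h1, ModularGroup.denom_S]
  have hz : (z : ℂ) ≠ 0 := z.ne_zero
  rw [zpow_neg, zpow_one]
  field_simp

theorem slash_inv {y : SL(2, ℤ)} (hy : h2 ∣[(1 : ℤ)] y = kap y • h2) :
    h2 ∣[(1 : ℤ)] y⁻¹ = (kap y)⁻¹ • h2 := by
  have h1 : (h2 ∣[(1 : ℤ)] y) ∣[(1 : ℤ)] y⁻¹ = h2 := by
    rw [← SlashAction.slash_mul, mul_inv_cancel, SlashAction.slash_one]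
  rw [hy, ModularForm.SL_smul_slash] at h1
  have h3 : (kap y)⁻¹ • (kap y • h2 ∣[(1 : ℤ)] y⁻¹) = (kap y)⁻¹ • h2 := by rw [h1]
  rw [smul_smul, inv_mul_cancel₀ (kap_ne y), one_smul] at h3
  exact h3

theorem gen (y : SL(2, ℤ)) (hy : y ∈ ({ModularGroup.S, ModularGroup.T} : Set SL(2, ℤ))) :
    h2 ∣[(1 : ℤ)] y = kap y • h2 ∧ ∀ γ, kap (γ * y) = kap γ * kap y := by
  rcases hy with rfl | rfl
  · exact ⟨h2_S, kap_mul_S⟩
  · exact ⟨h2_T, kap_mul_T⟩

theorem h2_kap (γ : SL(2, ℤ)) : h2 ∣[(1 : ℤ)] γ = kap γ • h2 := by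
  have hmem : γ ∈ Subgroup.closure ({ModularGroup.S, ModularGroup.T} : Set SL(2, ℤ)) := by
    rw [SpecialLinearGroup.SL2Z_generators]
    exact Subgroup.mem_top γ
  induction hmem using Subgroup.closure_induction_right with
  | one => rw [SlashAction.slash_one, kap_one, one_smul]
  | mul_right x _ y hy hx =>
    obtain ⟨h1, h2'⟩ := gen y hy
    rw [SlashAction.slash_mul, hx, ModularForm.SL_smul_slash, h1, smul_smul, h2']
  | mul_inv_cancel x _ y hy hx =>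
    obtain ⟨h1, h2'⟩ := gen y hy
    have h3 : kap x = kap (x * y⁻¹) * kap y := by
      rw [← h2', inv_mul_cancel_right]
    rw [SlashAction.slash_mul, hx, ModularForm.SL_smul_slash, slash_inv h1, smul_smul, h3,
      mul_assoc, mul_inv_cancel₀ (kap_ne y), mul_one]

theorem kap_of_mem (γ : SL(2, ℤ)) (h : γ ∈ CongruenceSubgroup.Gamma 12) : kap γ = 1 := by
  rw [CongruenceSubgroup.Gamma_mem] at h
  obtain ⟨h1, h2, h3, h4⟩ := h
  have key : ∀ (n : ℕ), n ∣ 12 → ∀ a b : ℤ, (a : ZMod 12) = (b : ZMod 12) →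
      (a : ZMod n) = (b : ZMod n) := by
    intro n hn a b hab
    rw [ZMod.intCast_eq_intCast_iff_dvd_sub] at hab ⊢
    exact dvd_trans (by exact_mod_cast hn) hab
  have d2 : (4 : ℕ) ∣ 12 := by norm_num
  have d3 : (3 : ℕ) ∣ 12 := by norm_num
  have a1 := key 4 d2 (γ 0 0) 1 (by simpa using h1)
  have a2 := key 4 d2 (γ 0 1) 0 (by simpa using h2)
  have a3 := key 4 d2 (γ 1 0) 0 (by simpa using h3)
  have a4 := key 4 d2 (γ 1 1) 1 (by simpa using h4)
  have b1 := key 3 d3 (γ 0 0) 1 (by simpa using h1)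
  have b2 := key 3 d3 (γ 0 1) 0 (by simpa using h2)
  have b3 := key 3 d3 (γ 1 0) 0 (by simpa using h3)
  have b4 := key 3 d3 (γ 1 1) 1 (by simpa using h4)
  have c2 : s4 1 0 0 1 = 0 := by decide
  have c3 : FH1.s3 1 0 0 1 = 0 := by decide
  unfold kap
  rw [a1, a2, a3, a4, b1, b2, b3, b4]
  simp [c2, c3]

theorem h2_bdd0 : IsBoundedAtImInfty h2 := by
  have h0 := ModularForm.discriminant_isZeroAtImInfty
  have h1 := h0.isBoundedAtImInfty
  rw [UpperHalfPlane.isBoundedAtImInfty_iff] at h1 ⊢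
  obtain ⟨M, A, hM⟩ := h1
  refine ⟨max M 1, A, fun z hz => ?_⟩
  have h2' := hM z hz
  by_contra hcon
  push Not at hcon
  have h3 : ‖h2 z‖ ^ 12 ≤ M := by
    have : ‖h2 z‖ ^ 12 = ‖ModularForm.discriminant z‖ := by
      rw [← norm_pow]
      congr 1
      simp only [h2, ModularForm.discriminant]
      ring
    rw [this]
    exact h2'
  have h4' : (1 : ℝ) ≤ ‖h2 z‖ := le_trans (le_max_right _ _) hcon.le
  have h5 : ‖h2 z‖ ≤ ‖h2 z‖ ^ 12 := le_self_pow₀ h4' (by norm_num)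
  have h6 : M < ‖h2 z‖ := lt_of_le_of_lt (le_max_left _ _) hcon
  linarith

end K1

theorem h2_slash (γ : SL(2, ℤ)) (h : γ ∈ CongruenceSubgroup.Gamma 12) : h2 ∣[(1 : ℤ)] γ = h2 := by
  have := K1.h2_kap γ
  rw [K1.kap_of_mem γ h, one_smul] at this
  exact this

theorem h2_bdd (γ : SL(2, ℤ)) : IsBoundedAtImInfty (h2 ∣[(1 : ℤ)] γ) := by
  rw [K1.h2_kap γ]
  exact (Filter.const_boundedAtFilter _ (K1.kap γ)).mul K1.h2_bdd0

/-- for every gamma the slash is a constant multiple of h2 -/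
theorem h2_const (γ : SL(2, ℤ)) : ∃ c : ℂ, ‖c‖ = 1 ∧ h2 ∣[(1 : ℤ)] γ = fun z => c * h2 z :=
  ⟨K1.kap γ, K1.kap_norm γ, K1.h2_kap γ⟩

theorem h2_mdiff : MDiff h2 := eta_mdiff.pow 2

end Pool.Agent.B5Z
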