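import Pool.Agent.B5Z.Defs
import Pool.Agent.B5Z.K1
import Pool.Agent.B5.TR
import Pool.Agent.B5.QD
import Pool.Agent.B5.MO
import Pool.Agent.B5.FA1

/-!
B5Z / K2: the square of fT = eta(z)^2/eta(2z) has weight 1 and is bounded at all cusps. fT^2 = h2(z)^2 / h2(2z). For gamma in SL(2,Z): h2(z)^2 | gamma (weight 2) = c h2(z)^2 (h2_const), and
h2(2z) | gamma: (2 0; 0 1) gamma = gamma' (a b; 0 d), a d = 2 (`hermite` in B5.TR), so it is a non-zero constant times h2((a z + b)/d). So fT^2 | gamma = const * eta(z)^4/eta(2z+b)^2 = const * (bounded), or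
const * eta(z)^4/eta((z+b)/2)^2, and |eta(z)| = |q|^(1/24) |ep z| with |ep z| between two positive constants for Im z >= 1.
-/

set_option autoImplicit false

namespace Pool.Agent.B5Z

open PowerSeries UpperHalfPlane Pool.Agent.B5 Pool.Agent.B5X
open scoped MatrixGroups ModularForm Manifold

namespace K2

theorem h2_ne_zero (z : ℍ) : h2 z ≠ 0 := pow_ne_zero _ (eta_ne_zero' z)

theorem norm_h2 (z : ℍ) : ‖h2 z‖ = Real.exp (-(Real.pi * z.im / 6)) * ‖ep z‖ ^ 2 := by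
  unfold h2
  rw [eta_eq, mul_pow, norm_mul, norm_pow, norm_pow, Complex.norm_exp]
  have h1 : (2 * (Real.pi : ℂ) * Complex.I * (z : ℂ) / 24).re = -(2 * Real.pi * z.im / 24) := by
    have h2 : (2 * (Real.pi : ℂ) * Complex.I * (z : ℂ) / 24) =
        ((2 * Real.pi / 24 : ℝ) : ℂ) * (Complex.I * (z : ℂ)) := by
      push_cast
      ring
    rw [h2, Complex.re_ofReal_mul]
    simp
    ring
  rw [h1, ← Real.exp_nat_mul]
  congr 2
  push_cast
  ring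

theorem bdd_ep : IsBoundedAtImInfty ep := hasQ_ep.bdd

theorem bdd_ep_inv : IsBoundedAtImInfty (fun z => (ep z)⁻¹) := by
  refine (hasQ_ep.inv ep_ne_zero ?_).bdd
  have h0 := PowerSeries.coeff_pentagonalSeries_pentagonal (R := ℂ) 0
  have h1 : pentagonal 0 = 0 := by simp [pentagonal]
  rw [h1] at h0
  rw [toC_phi, ← PowerSeries.coeff_zero_eq_constantCoeff_apply, h0]
  simp

theorem det_tri (a b d : ℝ) (h : a * d ≠ 0) : (tri a b d h).det.val = a * d := by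
  simp [tri, Matrix.GeneralLinearGroup.mkOfDetNeZero, Matrix.det_fin_two]

theorem coe_tri_smul (a b d : ℝ) (h : a * d ≠ 0) (hp : 0 < a * d) (z : ℍ) :
    ((tri a b d h • z : ℍ) : ℂ) = ((a : ℂ) * z + b) / d := by
  rw [UpperHalfPlane.coe_smul_of_det_pos (by rw [det_tri]; exact hp)]
  simp [UpperHalfPlane.num, UpperHalfPlane.denom, tri,
      Matrix.GeneralLinearGroup.mkOfDetNeZero]

theorem im_tri_smul (a b d : ℝ) (h : a * d ≠ 0) (hp : 0 < a * d) (z : ℍ) :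
    (tri a b d h • z : ℍ).im = a * z.im / d := by
  have h1 : (tri a b d h • z : ℍ).im = ((tri a b d h • z : ℍ) : ℂ).im := rfl
  rw [h1, coe_tri_smul a b d h hp z]
  have h2 : ((a : ℂ) * z + b) / d = (((1 / d : ℝ)) : ℂ) * ((a : ℂ) * z + b) := by
    push_cast
    ring
  rw [h2, Complex.im_ofReal_mul]
  simp
  ring

theorem slash_tri (f : ℍ → ℂ) (a b d : ℝ) (h : a * d ≠ 0) (hp : 0 < a * d) (z : ℍ) :
    (f ∣[(1 : ℤ)] tri a b d h) z = f (tri a b d h • z) * (d : ℂ)⁻¹ := by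
  have hden : denom (tri a b d h) z = d := by
    simp [UpperHalfPlane.denom, tri, Matrix.GeneralLinearGroup.mkOfDetNeZero]
  rw [ModularForm.slash_apply, hden]
  have hσ : ∀ w : ℂ, σ (tri a b d h) w = w := by
    intro w
    have : 0 < (tri a b d h).det.val := by rw [det_tri]; exact hp
    rw [σ, if_pos this, ContinuousAlgEquiv.refl_apply]
  rw [hσ]
  simp

/-- the slash of `h2 (2 z)` -/
theorem slash_g2 (γ : SL(2, ℤ)) : ∃ (c : ℂ) (a b d : ℝ) (h : a * d ≠ 0), ‖c‖ = 1 ∧ 1 ≤ a ∧ 1 ≤ d ∧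
    a * d = 2 ∧ ∀ z, ((fun z => h2 (sc 2 z)) ∣[(1 : ℤ)] γ) z =
      c * h2 (tri a b d h • z) * (d : ℂ)⁻¹ := by
  have hne : (((2 : ℕ+) : ℕ) : ℝ) * 1 ≠ 0 := by norm_num
  have e1 : (fun z => h2 (sc 2 z)) = (h2 ∣[(1 : ℤ)] tri (((2 : ℕ+) : ℕ) : ℝ) 0 1 hne) := by
    rw [scale_slash h2 1 2]
    funext z
    simp
  have hdet : 0 < (!![(((2 : ℕ+) : ℕ) : ℤ), 0; 0, 1] * (γ : Matrix (Fin 2) (Fin 2) ℤ)).det := by
    rw [Matrix.det_mul, γ.2, Matrix.det_fin_two_of]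
    simp
  obtain ⟨γ', a, b, d, ha, hd, hA⟩ := hermite _ hdet
  have had : a * d = 2 := by
    have h1 := congrArg Matrix.det hA
    rw [Matrix.det_mul, Matrix.det_mul, γ.2, γ'.2, Matrix.det_fin_two_of,
      Matrix.det_fin_two_of] at h1
    simp at h1
    linarith
  have hadR : (a : ℝ) * (d : ℝ) = 2 := by exact_mod_cast had
  have hadp : (0 : ℝ) < (a : ℝ) * (d : ℝ) := by rw [hadR]; norm_num
  obtain ⟨c, hc, hcc⟩ := h2_const γ'
  refine ⟨c, a, b, d, hadp.ne', hc, by exact_mod_cast ha, by exact_mod_cast hd, hadR, fun z => ?_⟩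
  have hα : tri (((2 : ℕ+) : ℕ) : ℝ) 0 1 hne * (γ : GL (Fin 2) ℝ) =
      (γ' : GL (Fin 2) ℝ) * tri (a : ℝ) (b : ℝ) (d : ℝ) hadp.ne' := by
    have h1 : ((tri (((2 : ℕ+) : ℕ) : ℝ) 0 1 hne * (γ : GL (Fin 2) ℝ) : GL (Fin 2) ℝ) :
        Matrix (Fin 2) (Fin 2) ℝ) = !![(((2 : ℕ+) : ℕ) : ℝ), 0; 0, 1] *
        ((γ : Matrix (Fin 2) (Fin 2) ℤ).map (algebraMap ℤ ℝ)) := rfl
    have h2 : (!![(((2 : ℕ+) : ℕ) : ℝ), 0; 0, 1] *
        ((γ : Matrix (Fin 2) (Fin 2) ℤ).map (algebraMap ℤ ℝ))) =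
        (!![(((2 : ℕ+) : ℕ) : ℤ), 0; 0, 1] * (γ : Matrix (Fin 2) (Fin 2) ℤ)).map
          (algebraMap ℤ ℝ) := by
      rw [Matrix.map_mul]
      congr 1
      ext i j
      fin_cases i <;> fin_cases j <;> simp
    apply Units.ext
    rw [h1, h2, hA]
    ext i j
    fin_cases i <;> fin_cases j <;>
      simp [tri, Matrix.GeneralLinearGroup.mkOfDetNeZero, Matrix.mul_apply, Fin.sum_univ_two]
  rw [e1, ModularForm.SL_slash, ← SlashAction.slash_mul, hα, SlashAction.slash_mul]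
  have hcc' : h2 ∣[(1 : ℤ)] (γ' : GL (Fin 2) ℝ) = fun z => c * h2 z := by
    rw [← ModularForm.SL_slash]
    exact hcc
  rw [hcc', slash_tri _ _ _ _ _ hadp]

end K2

theorem fT_sq_bdd (γ : SL(2, ℤ)) : IsBoundedAtImInfty ((fun z => fT z ^ 2) ∣[(1 : ℤ)] γ) := by
  obtain ⟨c0, hc0, hcc⟩ := h2_const γ
  obtain ⟨c, a, b, d, h, hc, ha, hd, had, hg⟩ := K2.slash_g2 γ
  have hp : 0 < a * d := by rw [had]; norm_num
  have hprod : (fun z => fT z ^ 2) * (fun z => h2 (sc 2 z)) = h2 * h2 := by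
    funext z
    have hne : ModularForm.eta (sc 2 z) ≠ 0 := eta_ne_zero' _
    simp only [Pi.mul_apply, fT, h2]
    field_simp
  have hsl : ((fun z => fT z ^ 2) ∣[(1 : ℤ)] γ) * ((fun z => h2 (sc 2 z)) ∣[(1 : ℤ)] γ) =
      (h2 ∣[(1 : ℤ)] γ) * (h2 ∣[(1 : ℤ)] γ) := by
    rw [← ModularForm.mul_slash_SL2, ← ModularForm.mul_slash_SL2, hprod]
  have h1 := K2.bdd_ep
  have h2' := K2.bdd_ep_inv
  rw [UpperHalfPlane.isBoundedAtImInfty_iff] at h1 h2' ⊢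
  obtain ⟨M1, A1, hM1⟩ := h1
  obtain ⟨M2, A2, hM2⟩ := h2'
  refine ⟨d * (M1 ^ 4 * M2 ^ 2), max A1 (2 * |A2|), fun z hz => ?_⟩
  have hz1 : A1 ≤ z.im := (le_max_left _ _).trans hz
  have hz2 : 2 * |A2| ≤ z.im := (le_max_right _ _).trans hz
  have hy := z.im_pos
  set w : ℍ := tri a b d h • z with hw
  have hwim : w.im = a * z.im / d := K2.im_tri_smul a b d h hp z
  have hd0 : 0 < d := by linarith
  have hd2 : d ≤ 2 := by nlinarith
  have ha2 : a ≤ 2 := by nlinarith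
  have hwA : A2 ≤ w.im := by
    rw [hwim, le_div_iff₀ hd0]
    have := le_abs_self A2
    have h0 := abs_nonneg A2
    nlinarith
  have e1 := congrFun hsl z
  simp only [Pi.mul_apply] at e1
  rw [hg z, hcc] at e1
  have hn := congrArg norm e1
  simp only [norm_mul, norm_inv, hc, hc0, one_mul] at hn
  have hwne : ‖h2 w‖ ≠ 0 := norm_ne_zero_iff.2 (K2.h2_ne_zero w)
  have hdn : ‖(d : ℂ)‖ = d := by rw [Complex.norm_real, Real.norm_of_nonneg hd0.le]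
  rw [hdn, ← hw] at hn
  have hF : ‖((fun z => fT z ^ 2) ∣[(1 : ℤ)] γ) z‖ = d * (‖h2 z‖ * ‖h2 z‖ / ‖h2 w‖) := by
    rw [← hn]
    field_simp
  have hepw : ‖ep w‖ ≠ 0 := norm_ne_zero_iff.2 (ep_ne_zero w)
  have hq : ‖h2 z‖ * ‖h2 z‖ / ‖h2 w‖ = Real.exp (-(Real.pi * z.im / 3) + Real.pi * w.im / 6) *
      (‖ep z‖ ^ 4 * ‖(ep w)⁻¹‖ ^ 2) := by
    rw [K2.norm_h2 z, K2.norm_h2 w, norm_inv, Real.exp_add]
    have e2 : Real.exp (-(Real.pi * z.im / 3)) = Real.exp (-(Real.pi * z.im / 6)) *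
        Real.exp (-(Real.pi * z.im / 6)) := by
      rw [← Real.exp_add]
      congr 1
      ring
    have e3 : Real.exp (Real.pi * w.im / 6) = (Real.exp (-(Real.pi * w.im / 6)))⁻¹ := by
      rw [← Real.exp_neg, neg_neg]
    rw [e2, e3]
    have := Real.exp_pos (-(Real.pi * w.im / 6))
    field_simp
  rw [hF, hq]
  have hexp : Real.exp (-(Real.pi * z.im / 3) + Real.pi * w.im / 6) ≤ 1 := by
    rw [Real.exp_le_one_iff, hwim]
    have h5 : a * z.im / d ≤ 2 * z.im := by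
      rw [div_le_iff₀ hd0]
      nlinarith
    have hpi := Real.pi_pos
    have h6 : Real.pi * (a * z.im / d) ≤ Real.pi * (2 * z.im) :=
      mul_le_mul_of_nonneg_left h5 hpi.le
    linarith
  have b1 : ‖ep z‖ ≤ M1 := hM1 z hz1
  have b2 : ‖(ep w)⁻¹‖ ≤ M2 := hM2 w hwA
  have b3 : ‖ep z‖ ^ 4 * ‖(ep w)⁻¹‖ ^ 2 ≤ M1 ^ 4 * M2 ^ 2 := by
    have c1 : ‖ep z‖ ^ 4 ≤ M1 ^ 4 := pow_le_pow_left₀ (norm_nonneg _) b1 4
    have c2 : ‖(ep w)⁻¹‖ ^ 2 ≤ M2 ^ 2 := pow_le_pow_left₀ (norm_nonneg _) b2 2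
    exact mul_le_mul c1 c2 (by positivity) ((by positivity : (0 : ℝ) ≤ ‖ep z‖ ^ 4).trans c1)
  have b4 : Real.exp (-(Real.pi * z.im / 3) + Real.pi * w.im / 6) *
      (‖ep z‖ ^ 4 * ‖(ep w)⁻¹‖ ^ 2) ≤ M1 ^ 4 * M2 ^ 2 := by
    have := mul_le_mul hexp b3 (by positivity) zero_le_one
    rwa [one_mul] at this
  exact mul_le_mul_of_nonneg_left b4 hd0.le

theorem fT_mdiff : MDiff fT := by
  have h5 : MDiff (fun z : ℍ => ModularForm.eta (sc 2 z)) :=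
    scale_mdiff (h := fun z : ℍ => ModularForm.eta z) eta_mdiff 2
  exact mdiff_div (eta_mdiff.pow 2) h5 (fun z => eta_ne_zero' (sc 2 z))

end Pool.Agent.B5Z
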