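import Pool.Agent.B5Z.Defs
import Pool.Agent.B5Z.K2
import Pool.Agent.B5X.MCO
import Pool.Agent.B5.EQ3

/-!
B5Z / K3: gk k is in ML 2880 1 (2^k), k >= 1. Write a = 2^k - 1 = 2 b + 1. gk k = W0 * (fT(12 z)^2)^b * (fT(24 z)^2)^b, with
W0 = eta(24z) fT(12z) fT(24z) fT(120z) = h2(12z) h2(24z) h2(120z) fa(48z) / h2(48z)^3
(eta(24z) eta(12z)^2/eta(24z) eta(24z)^2/eta(48z) eta(120z)^2/eta(240z), and fa(48z)/eta(48z)^6 = 1/(eta(48z) eta(240z))), fT(d z)^2 = h2(dz)^2/h2(2dz).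
For gamma = (A B; C D) in Gamma1(36) and Gamma0(2880) and d in {12, 24, 48, 120, 240 (for 2*120)}: h2(d z) | gamma = h2 (gamma' .)(d z), gamma' = (A, d B; C/d, D) in Gamma(12) (12 | d, 12 d | 2880, A = D = 1
mod 12), h2_slash. fa(48z) gets (D/5) (fa_slash, gamma' in Gamma0(5): 240 | C). Weight: 1+1+1+2-3 + b + b = 2b + 2 = 2^k.
Boundedness: for gamma in SL(2,Z) the square of gk is h2(24z) * (fT(12z)^2)^a (fT(24z)^2)^a (fT(120z)^2), of weight 1 + a + a + 1 = 2 * 2^k, each factor is bounded after the slash in its own weight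
(h2_bdd, fT_sq_bdd with `scale_slash`, `bdd_int`), and (gk | gamma)^2 = (gk^2) | gamma.
`gk_hasQ`: eta(24z) = q phi(q^24), fT(z) = sT(q) (the exponentials cancel), HasQ.scale.
-/

set_option autoImplicit false

namespace Pool.Agent.B5Z

open PowerSeries UpperHalfPlane Pool.Agent.B5 Pool.Agent.B5X
open scoped MatrixGroups ModularForm Manifold

/-! ### Points -/

private theorem k3_sc_sc (M N L : ℕ+) (h : (L : ℕ) = M * N) (z : ℍ) : sc M (sc N z) = sc L z := by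
  apply UpperHalfPlane.ext
  show (M : ℂ) * ((N : ℂ) * (z : ℂ)) = (L : ℂ) * (z : ℂ)
  have : ((L : ℕ) : ℂ) = (M : ℕ) * (N : ℕ) := by
    rw [h]
    push_cast
    ring
  rw [this]
  ring

private theorem k3_fT (M L : ℕ+) (h : (L : ℕ) = 2 * M) (z : ℍ) :
    fT (sc M z) = ModularForm.eta (sc M z) ^ 2 / ModularForm.eta (sc L z) := by
  rw [fT, k3_sc_sc 2 M L h]

private theorem k3_h2_ne (z : ℍ) : h2 z ≠ 0 := pow_ne_zero _ (eta_ne_zero' z)

/-! ### Invariance -/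

/-- the invariance of a scaled function, pointwise -/
private theorem k3_scale (h : ℍ → ℂ) (k : ℤ) (M : ℕ+) (γ : SL(2, ℤ)) (χ : ℂ) (c' : ℤ)
    (hc : γ 1 0 = (M : ℕ) * c')
    (hs : ∀ γ' : SL(2, ℤ), γ' 0 0 = γ 0 0 → γ' 0 1 = (M : ℕ) * γ 0 1 → γ' 1 0 = c' →
      γ' 1 1 = γ 1 1 → ∀ w, (h ∣[k] γ') w = χ * h w) (z : ℍ) :
    h (sc M (γ • z)) = (denom γ z : ℂ) ^ k * (χ * h (sc M z)) := by
  obtain ⟨γ', g00, g01, g10, g11, h1⟩ := scale_conj h k M γ c' hc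
  have h2 := h1 z
  rw [hs γ' g00 g01 g10 g11, ModularForm.SL_slash_apply] at h2
  have h0 : (denom γ z : ℂ) ≠ 0 := denom_ne_zero _ _
  rw [← h2, mul_comm, mul_assoc, ← zpow_add₀ h0, neg_add_cancel, zpow_zero, mul_one]

private theorem k3_key (γ : SL(2, ℤ)) (hγ : γ ∈ CongruenceSubgroup.Gamma1 36)
    (hL : γ ∈ CongruenceSubgroup.Gamma0 2880) : (12 : ℤ) ∣ γ 0 0 - 1 ∧ (12 : ℤ) ∣ γ 1 1 - 1 ∧
      (2880 : ℤ) ∣ γ 1 0 := by
  rw [CongruenceSubgroup.Gamma1_mem] at hγ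
  rw [CongruenceSubgroup.Gamma0_mem, ZMod.intCast_zmod_eq_zero_iff_dvd] at hL
  obtain ⟨h1, h2, _⟩ := hγ
  have key : ∀ x : ℤ, (x : ZMod 36) = 1 → (12 : ℤ) ∣ x - 1 := by
    intro x hx
    have h3 : (x : ZMod 36) = ((1 : ℤ) : ZMod 36) := by
      rw [hx]
      simp
    have h4 := (ZMod.intCast_eq_intCast_iff_dvd_sub _ _ 36).1 h3
    push_cast at h4
    omega
  exact ⟨key _ h1, key _ h2, by exact_mod_cast hL⟩

private theorem k3_h2 (γ : SL(2, ℤ)) (hγ : γ ∈ CongruenceSubgroup.Gamma1 36)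
    (hL : γ ∈ CongruenceSubgroup.Gamma0 2880) (M : ℕ+) (h12 : 12 ∣ (M : ℕ))
    (hM : 12 * (M : ℕ) ∣ 2880) (z : ℍ) :
    h2 (sc M (γ • z)) = (denom γ z : ℂ) * h2 (sc M z) := by
  obtain ⟨h1, h3, h4⟩ := k3_key γ hγ hL
  have h5 : (12 * ((M : ℕ) : ℤ)) ∣ γ 1 0 := by
    refine dvd_trans ?_ h4
    exact_mod_cast hM
  obtain ⟨c0, hc0⟩ := h5
  have hc : γ 1 0 = ((M : ℕ) : ℤ) * (12 * c0) := by
    rw [hc0]
    ring
  have key := k3_scale h2 1 M γ 1 (12 * c0) hc ?_ z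
  · rw [key, zpow_one, one_mul]
  · intro γ' g00 g01 g10 g11 w
    have hmem : γ' ∈ CongruenceSubgroup.Gamma 12 := by
      rw [CongruenceSubgroup.Gamma_mem, g00, g11, g10, g01]
      have cast : ∀ x : ℤ, (12 : ℤ) ∣ x - 1 → ((x : ℤ) : ZMod 12) = 1 := by
        intro x hx
        have h6 : ((1 : ℤ) : ZMod 12) = ((x : ℤ) : ZMod 12) :=
          (ZMod.intCast_eq_intCast_iff_dvd_sub _ _ 12).2 (by exact_mod_cast hx)
        rw [← h6]
        simp
      refine ⟨cast _ h1, ?_, ?_, cast _ h3⟩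
      · rw [ZMod.intCast_zmod_eq_zero_iff_dvd]
        have h7 : (((12 : ℕ) : ℤ)) ∣ ((M : ℕ) : ℤ) := by exact_mod_cast h12
        exact Dvd.dvd.mul_right h7 _
      · rw [ZMod.intCast_zmod_eq_zero_iff_dvd]
        exact Dvd.intro _ rfl
    rw [h2_slash γ' hmem, one_mul]

private theorem k3_fa (γ : SL(2, ℤ)) (hγ : γ ∈ CongruenceSubgroup.Gamma1 36)
    (hL : γ ∈ CongruenceSubgroup.Gamma0 2880) (z : ℍ) :
    fa (sc 48 (γ • z)) = (denom γ z : ℂ) ^ 2 *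
      (((jacobiSym (γ 1 1) 5 : ℤ) : ℂ) * fa (sc 48 z)) := by
  obtain ⟨-, -, h4⟩ := k3_key γ hγ hL
  obtain ⟨c0, hc0⟩ := h4
  have hc : γ 1 0 = (((48 : ℕ+) : ℕ) : ℤ) * (60 * c0) := by
    have : (((48 : ℕ+) : ℕ) : ℤ) = 48 := rfl
    rw [hc0, this]
    ring
  have key := k3_scale fa 2 48 γ ((jacobiSym (γ 1 1) 5 : ℤ) : ℂ) (60 * c0) hc ?_ z
  · rw [key]
    rfl
  · intro γ' g00 g01 g10 g11 w
    have hmem : γ' ∈ CongruenceSubgroup.Gamma0 5 := by
      rw [CongruenceSubgroup.Gamma0_mem, g10, ZMod.intCast_zmod_eq_zero_iff_dvd]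
      exact ⟨12 * c0, by push_cast; ring⟩
    rw [fa_slash γ' hmem, g11]

/-- the product formula -/
private theorem k3_prod (k : ℕ) (b : ℕ) (hb : 2 ^ k - 1 = 2 * b + 1) (z : ℍ) : gk k z =
    h2 (sc 12 z) * h2 (sc 24 z) * h2 (sc 120 z) * fa (sc 48 z) / h2 (sc 48 z) ^ 3 *
      (h2 (sc 12 z) ^ 2 / h2 (sc 24 z)) ^ b * (h2 (sc 24 z) ^ 2 / h2 (sc 48 z)) ^ b := by
  rw [gk, hb, k3_fT 12 24 rfl, k3_fT 24 48 rfl, k3_fT 120 240 rfl, fa, k3_sc_sc 5 48 240 rfl]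
  unfold h2
  have e12 := eta_ne_zero' (sc 12 z)
  have e24 := eta_ne_zero' (sc 24 z)
  have e48 := eta_ne_zero' (sc 48 z)
  have e120 := eta_ne_zero' (sc 120 z)
  have e240 := eta_ne_zero' (sc 240 z)
  generalize ModularForm.eta (sc 12 z) = x at *
  generalize ModularForm.eta (sc 24 z) = y at *
  generalize ModularForm.eta (sc 48 z) = w at *
  generalize ModularForm.eta (sc 120 z) = u at *
  generalize ModularForm.eta (sc 240 z) = v at *
  have p1 : (x ^ 2 / y) ^ (2 * b + 1) = ((x ^ 2) ^ 2 / y ^ 2) ^ b * (x ^ 2 / y) := by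
    rw [pow_succ, pow_mul, div_pow]
  have p2 : (y ^ 2 / w) ^ (2 * b + 1) = ((y ^ 2) ^ 2 / w ^ 2) ^ b * (y ^ 2 / w) := by
    rw [pow_succ, pow_mul, div_pow]
  rw [p1, p2]
  have p3 : y * (x ^ 2 / y) * (y ^ 2 / w) * (u ^ 2 / v) =
      x ^ 2 * y ^ 2 * u ^ 2 * (w ^ 5 / v) / (w ^ 2) ^ 3 := by
    field_simp
  calc y * (((x ^ 2) ^ 2 / y ^ 2) ^ b * (x ^ 2 / y)) * (((y ^ 2) ^ 2 / w ^ 2) ^ b * (y ^ 2 / w)) *
        (u ^ 2 / v)
      = (y * (x ^ 2 / y) * (y ^ 2 / w) * (u ^ 2 / v)) * ((x ^ 2) ^ 2 / y ^ 2) ^ b *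
        ((y ^ 2) ^ 2 / w ^ 2) ^ b := by ring
    _ = _ := by rw [p3]

private theorem k3_inv (k : ℕ) (hk : 1 ≤ k) (γ : SL(2, ℤ))
    (hγ : γ ∈ CongruenceSubgroup.Gamma1 36) (hL : γ ∈ CongruenceSubgroup.Gamma0 2880) :
    gk k ∣[((2 : ℤ) ^ k)] γ = fun z => ((jacobiSym (γ 1 1) 5 ^ 1 : ℤ) : ℂ) * gk k z := by
  obtain ⟨b, hb⟩ : ∃ b : ℕ, 2 ^ k = 2 * b + 2 := by
    obtain ⟨m, rfl⟩ : ∃ m, k = m + 1 := ⟨k - 1, by omega⟩
    refine ⟨2 ^ m - 1, ?_⟩
    have := Nat.one_le_two_pow (n := m)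
    rw [pow_succ]
    omega
  have hb1 : 2 ^ k - 1 = 2 * b + 1 := by omega
  have hb2 : ((2 : ℤ) ^ k) = ((2 * b + 2 : ℕ) : ℤ) := by exact_mod_cast hb
  funext z
  rw [ModularForm.SL_slash_apply, hb2, zpow_neg, zpow_natCast, pow_one, k3_prod k b hb1,
    k3_prod k b hb1, k3_h2 γ hγ hL 12 (by decide) (by decide),
    k3_h2 γ hγ hL 24 (by decide) (by decide),
    k3_h2 γ hγ hL 120 (by decide) (by decide), k3_h2 γ hγ hL 48 (by decide) (by decide),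
    k3_fa γ hγ hL]
  have hJ : (denom γ z : ℂ) ≠ 0 := denom_ne_zero _ _
  have e24 := k3_h2_ne (sc 24 z)
  have e48 := k3_h2_ne (sc 48 z)
  generalize (denom γ z : ℂ) = J at *
  generalize h2 (sc 12 z) = x at *
  generalize h2 (sc 24 z) = y at *
  generalize h2 (sc 48 z) = w at *
  generalize h2 (sc 120 z) = u at *
  generalize fa (sc 48 z) = v at *
  generalize ((jacobiSym (γ 1 1) 5 : ℤ) : ℂ) = χ at *
  have p1 : ((J * x) ^ 2 / (J * y)) ^ b = J ^ b * (x ^ 2 / y) ^ b := by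
    rw [← mul_pow]
    congr 1
    field_simp
  have p2 : ((J * y) ^ 2 / (J * w)) ^ b = J ^ b * (y ^ 2 / w) ^ b := by
    rw [← mul_pow]
    congr 1
    field_simp
  have p3 : J * x * (J * y) * (J * u) * (J ^ 2 * (χ * v)) / (J * w) ^ 3 =
      J ^ 2 * χ * (x * y * u * v / w ^ 3) := by
    field_simp
  rw [p1, p2, p3]
  have hJb : J ^ (2 * b + 2) ≠ 0 := pow_ne_zero _ hJ
  have p4 : J ^ (2 * b + 2) = J ^ 2 * J ^ b * J ^ b := by ring
  calc J ^ 2 * χ * (x * y * u * v / w ^ 3) * (J ^ b * (x ^ 2 / y) ^ b) *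
        (J ^ b * (y ^ 2 / w) ^ b) * (J ^ (2 * b + 2))⁻¹
      = (J ^ 2 * J ^ b * J ^ b) * (J ^ (2 * b + 2))⁻¹ * (χ * (x * y * u * v / w ^ 3 *
        (x ^ 2 / y) ^ b * (y ^ 2 / w) ^ b)) := by ring
    _ = _ := by rw [← p4, mul_inv_cancel₀ hJb, one_mul]

/-! ### Boundedness -/

private def K3B (k : ℤ) (g : ℍ → ℂ) : Prop := ∀ γ : SL(2, ℤ), IsBoundedAtImInfty (g ∣[k] γ)

private theorem K3B.mul {k l : ℤ} {g g' : ℍ → ℂ} (h : K3B k g) (h' : K3B l g') :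
    K3B (k + l) (fun z => g z * g' z) := by
  intro γ
  have he : (fun z => g z * g' z) = g * g' := rfl
  rw [he, ModularForm.mul_slash_SL2]
  exact mo_bdd_mul (h γ) (h' γ)

private theorem K3B.pow {k : ℤ} {g : ℍ → ℂ} (h : K3B k g) (n : ℕ) :
    K3B (n * k) (fun z => g z ^ n) := by
  induction n with
  | zero =>
    intro γ
    have he : (fun z : ℍ => g z ^ 0) = Function.const ℍ 1 := by
      funext z
      simp
    rw [he]
    have h0 : (((0 : ℕ) : ℤ) * k) = 0 := by simp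
    rw [h0, ModularForm.is_invariant_const γ 1]
    exact Filter.const_boundedAtFilter _ _
  | succ n ih =>
    have := ih.mul h
    have e1 : (n : ℤ) * k + k = ((n + 1 : ℕ) : ℤ) * k := by push_cast; ring
    rw [e1] at this
    exact this

private theorem k3_sqrt {u : ℍ → ℂ} (h : IsBoundedAtImInfty (u * u)) : IsBoundedAtImInfty u := by
  rw [isBoundedAtImInfty_iff] at h ⊢
  obtain ⟨C, A, hC⟩ := h
  refine ⟨max 1 C, A, fun z hz => ?_⟩
  have h1 := hC z hz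
  rw [Pi.mul_apply, norm_mul] at h1
  have h2 := norm_nonneg (u z)
  rcases le_or_gt ‖u z‖ 1 with h3 | h3
  · exact h3.trans (le_max_left _ _)
  · refine le_trans ?_ (le_max_right _ _)
    nlinarith

private theorem k3_bdd (k : ℕ) (γ : SL(2, ℤ)) :
    IsBoundedAtImInfty (gk k ∣[((2 : ℤ) ^ k)] γ) := by
  have ha : (2 : ℤ) ^ k = ((2 ^ k - 1 : ℕ) : ℤ) + 1 := by
    have := Nat.one_le_two_pow (n := k)
    push_cast [Nat.cast_sub this]
    ring
  set a : ℕ := 2 ^ k - 1 with had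
  have e24 : K3B 1 (fun z => h2 (sc 24 z)) := fun γ => scale_bdd h2_bdd 24 γ
  have f12 : K3B 1 (fun z => fT (sc 12 z) ^ 2) := fun γ =>
    scale_bdd (h := fun z => fT z ^ 2) fT_sq_bdd 12 γ
  have f24 : K3B 1 (fun z => fT (sc 24 z) ^ 2) := fun γ =>
    scale_bdd (h := fun z => fT z ^ 2) fT_sq_bdd 24 γ
  have f120 : K3B 1 (fun z => fT (sc 120 z) ^ 2) := fun γ =>
    scale_bdd (h := fun z => fT z ^ 2) fT_sq_bdd 120 γ
  have h1 := ((e24.mul (f12.pow a)).mul (f24.pow a)).mul f120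
  have h3 : (fun z => h2 (sc 24 z) * (fT (sc 12 z) ^ 2) ^ a * (fT (sc 24 z) ^ 2) ^ a *
      fT (sc 120 z) ^ 2) = gk k * gk k := by
    funext z
    rw [Pi.mul_apply, gk, ← had, h2]
    ring
  rw [h3] at h1
  have h4 := h1 γ
  have e : (1 : ℤ) + (a : ℤ) * 1 + (a : ℤ) * 1 + 1 = ((2 : ℤ) ^ k) + ((2 : ℤ) ^ k) := by
    rw [ha]
    ring
  rw [e, ModularForm.mul_slash_SL2] at h4
  exact k3_sqrt h4

/-! ### Holomorphy -/

private theorem k3_mdiff (k : ℕ) : MDiff (gk k) := by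
  have e24 : MDiff (fun z : ℍ => ModularForm.eta (sc 24 z)) :=
    scale_mdiff (h := fun z : ℍ => ModularForm.eta z) eta_mdiff 24
  have f12 : MDiff (fun z => fT (sc 12 z)) := scale_mdiff fT_mdiff 12
  have f24 : MDiff (fun z => fT (sc 24 z)) := scale_mdiff fT_mdiff 24
  have f120 : MDiff (fun z => fT (sc 120 z)) := scale_mdiff fT_mdiff 120
  exact ((e24.mul (f12.pow _)).mul (f24.pow _)).mul f120

theorem ML_gk (k : ℕ) (hk : 1 ≤ k) : ML 2880 1 (2 ^ k) (gk k) :=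
  ⟨k3_mdiff k, fun γ h1 h2 => k3_inv k hk γ h1 h2, fun γ => k3_bdd k γ⟩

/-! ### The q-expansion -/

private theorem k3_cc_e2 : PowerSeries.constantCoeff (e2 phi) = 1 := by
  rw [e2, PowerSeries.constantCoeff_expand, EQ3_cc_phi]

private theorem k3_toC_exp (M : ℕ+) (c : ℤ⟦X⟧) :
    toC (PowerSeries.expand (M : ℕ) M.ne_zero c) = PowerSeries.expand (M : ℕ) M.ne_zero (toC c) :=
  PowerSeries.map_expand _ _ _ _

private theorem k3_hasQ_scale {g : ℍ → ℂ} {c : ℤ⟦X⟧} (h : HasQ g (toC c)) (M : ℕ+) :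
    HasQ (fun z => g (sc M z)) (toC (PowerSeries.expand (M : ℕ) M.ne_zero c)) := by
  rw [k3_toC_exp]
  exact h.scale M

private theorem k3_hasQ_fT : HasQ fT (toC sT) := by
  have h1 : toC sT = (toC phi) ^ 2 * (toC (e2 phi))⁻¹ := by
    rw [← EQ3_toC_inv k3_cc_e2]
    simp [toC, sT]
  have h0 : HasQ (fun z => ep (sc 2 z)) (toC (e2 phi)) := k3_hasQ_scale hasQ_ep 2
  have h2 : fT = fun z => ep z ^ 2 * (ep (sc 2 z))⁻¹ := by
    funext z
    have h3 := ep_ne_zero (sc 2 z)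
    have h5 : ModularForm.eta (sc 2 z) =
        Complex.exp (2 * Real.pi * Complex.I * (2 * (z : ℂ)) / 24) * ep (sc 2 z) := by
      rw [eta_eq]
      simp [sc]
    rw [fT, h5, eta_eq, mul_pow, ← Complex.exp_nat_mul]
    rw [show ((2 : ℕ) : ℂ) * (2 * Real.pi * Complex.I * (z : ℂ) / 24) =
      2 * Real.pi * Complex.I * (2 * (z : ℂ)) / 24 by push_cast; ring]
    have h4 := Complex.exp_ne_zero (2 * Real.pi * Complex.I * (2 * (z : ℂ)) / 24)
    field_simp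
  rw [h1, h2]
  refine (hasQ_ep.pow 2).mul (h0.inv (fun z => ep_ne_zero _) ?_)
  rw [EQ3_cc_toC k3_cc_e2]
  exact one_ne_zero

private theorem k3_hasQ_eta : HasQ (fun z : ℍ => ModularForm.eta (sc 24 z))
    (toC (PowerSeries.X * PowerSeries.expand 24 (by norm_num) phi)) := by
  have h2 : (fun z : ℍ => ModularForm.eta (sc 24 z)) = fun z => qq z * ep (sc 24 z) := by
    funext z
    rw [eta_eq, qq]
    congr 2
    have : ((sc 24 z : ℍ) : ℂ) = 24 * (z : ℂ) := rfl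
    rw [this]
    ring
  have h3 : toC (PowerSeries.X * PowerSeries.expand 24 (by norm_num) phi) =
      PowerSeries.X * toC (PowerSeries.expand 24 (by norm_num) phi) := by
    simp [toC]
  rw [h2, h3]
  exact hasQ_qq.mul (k3_hasQ_scale hasQ_ep 24)

theorem gk_hasQ (k : ℕ) : HasQ (gk k) (toC (PowerSeries.X * PowerSeries.expand 12 (by norm_num) (sS k))) := by
  have h1 : PowerSeries.expand 12 (by norm_num) (e2 phi) =
      PowerSeries.expand 24 (by norm_num) phi := by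
    rw [e2, ← PowerSeries.expand_mul]
  have h2 : PowerSeries.expand 12 (by norm_num) (e2 sT) =
      PowerSeries.expand 24 (by norm_num) sT := by
    rw [e2, ← PowerSeries.expand_mul]
  have h3 : PowerSeries.expand 12 (by norm_num) (e10 sT) =
      PowerSeries.expand 120 (by norm_num) sT := by
    rw [e10, ← PowerSeries.expand_mul]
  have h4 : toC (PowerSeries.X * PowerSeries.expand 12 (by norm_num) (sS k)) =
      toC (PowerSeries.X * PowerSeries.expand 24 (by norm_num) phi) *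
        toC (PowerSeries.expand 12 (by norm_num) sT) ^ (2 ^ k - 1) *
        toC (PowerSeries.expand 24 (by norm_num) sT) ^ (2 ^ k - 1) *
        toC (PowerSeries.expand 120 (by norm_num) sT) := by
    rw [sS, map_mul, map_mul, map_mul, map_pow, map_pow, h1, h2, h3]
    simp only [toC, map_mul, map_pow]
    ring
  rw [h4]
  exact ((k3_hasQ_eta.mul ((k3_hasQ_scale k3_hasQ_fT 12).pow _)).mul
    ((k3_hasQ_scale k3_hasQ_fT 24).pow _)).mul (k3_hasQ_scale k3_hasQ_fT 120)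

end Pool.Agent.B5Z
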