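import Pool.Agent.B5Z.Defs
import Pool.Agent.B5X.HC1

/-!
B5Z / HL1: the Hecke operator TC preserves ML L ε k, for a prime Q = 1 mod 36 not dividing L, 180 | L (same proof as Pool.Agent.B5X.HC1, where L = 180).
-/

set_option autoImplicit false

namespace Pool.Agent.B5Z

open PowerSeries UpperHalfPlane Pool.Agent.B5 Pool.Agent.B5X
open scoped MatrixGroups ModularForm Manifold

private def hcW (ε Q : ℕ) : Option (Fin Q) → ℤ
  | some _ => 1
  | none => jacobiSym ((Q : ℕ) : ℤ) 5 ^ ε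

private lemma hc_mk (L : ℕ) (a b c d : ℤ) (hdet : a * d - b * c = 1) (ha : (a : ZMod 36) = 1)
    (hd : (d : ZMod 36) = 1) (hc : (c : ZMod 36) = 0) (h5 : (L : ℤ) ∣ c) :
    ∃ γ' : SL(2, ℤ), γ' ∈ CongruenceSubgroup.Gamma1 36 ∧ γ' ∈ CongruenceSubgroup.Gamma0 L ∧
      (γ' : Matrix (Fin 2) (Fin 2) ℤ) = !![a, b; c, d] := by
  obtain ⟨γ', h1, h2⟩ := mk_gamma1 (N := 36) a b c d hdet ha hd hc
  refine ⟨γ', h1, ?_, h2⟩
  rw [CongruenceSubgroup.Gamma0_mem, ZMod.intCast_zmod_eq_zero_iff_dvd, h2]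
  simpa using h5

private lemma hc_j5 (x y : ℤ) (h : (5 : ℤ) ∣ x - y) : jacobiSym x 5 = jacobiSym y 5 := by
  rw [jacobiSym.mod_left x, jacobiSym.mod_left y]
  have : x % ((5 : ℕ) : ℤ) = y % ((5 : ℕ) : ℤ) := by
    push_cast
    omega
  rw [this]

private lemma hc_step {L ε Q : ℕ} (hL : 180 ∣ L) (hQ : Q.Prime) (hN : Q ≡ 1 [MOD 36])
    (h5Q : ¬ Q ∣ L) (i : Option (Fin Q)) (γ : SL(2, ℤ))
    (hγ : γ ∈ CongruenceSubgroup.Gamma1 36) (hγ5 : γ ∈ CongruenceSubgroup.Gamma0 L) :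
    ∃ j : Option (Fin Q), ∃ γ' : SL(2, ℤ), γ' ∈ CongruenceSubgroup.Gamma1 36 ∧
      γ' ∈ CongruenceSubgroup.Gamma0 L ∧
      iA Q i * (γ : Matrix (Fin 2) (Fin 2) ℤ) = (γ' : Matrix (Fin 2) (Fin 2) ℤ) * iA Q j ∧
      hcW ε Q i * jacobiSym (γ' 1 1) 5 ^ ε = jacobiSym (γ 1 1) 5 ^ ε * hcW ε Q j := by
  have hQN : ((Q : ℤ) : ZMod 36) = 1 := by
    have := (ZMod.natCast_eq_natCast_iff _ _ _).2 hN
    push_cast at this ⊢
    exact this
  have hcop : IsCoprime (L : ℤ) (Q : ℤ) :=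
    Nat.isCoprime_iff_coprime.2 ((hQ.coprime_iff_not_dvd.2 h5Q).symm)
  have hL5 : (5 : ℤ) ∣ (L : ℤ) := by
    have h1 : 5 ∣ L := dvd_trans (by norm_num) hL
    exact_mod_cast h1
  rw [CongruenceSubgroup.Gamma1_mem] at hγ
  rw [CongruenceSubgroup.Gamma0_mem, ZMod.intCast_zmod_eq_zero_iff_dvd] at hγ5
  obtain ⟨ha, hd, hc⟩ := hγ
  have hdet := γ.det_coe
  rw [Matrix.det_fin_two] at hdet
  have hγe : (γ : Matrix (Fin 2) (Fin 2) ℤ) = !![γ 0 0, γ 0 1; γ 1 0, γ 1 1] := by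
    ext r s
    fin_cases r <;> fin_cases s <;> rfl
  rw [hγe]
  generalize (γ 0 0 : ℤ) = a at *
  generalize (γ 0 1 : ℤ) = B at *
  generalize (γ 1 0 : ℤ) = c at *
  generalize (γ 1 1 : ℤ) = d at *
  rcases i with _ | b
  · by_cases hx : (Q : ℤ) ∣ c
    · obtain ⟨m, rfl⟩ := hx
      rw [Int.cast_mul, hQN, one_mul] at hc
      have hm5 : (L : ℤ) ∣ m := hcop.dvd_of_dvd_mul_left hγ5
      obtain ⟨γ', h1, h1', h2⟩ := hc_mk L a (Q * B) m d (by linear_combination hdet) ha hd hc hm5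
      refine ⟨none, γ', h1, h1', ?_, ?_⟩
      · rw [h2]
        simp [iA, mul_comm]
      · rw [h2]
        simp [mul_comm]
    · obtain ⟨b', m, hm⟩ := exists_solution hQ c d hx
      have hm' : (m : ZMod 36) = 1 := by
        have hm' := congrArg (Int.cast : ℤ → ZMod 36) hm
        rw [Int.cast_sub, Int.cast_mul, Int.cast_mul, hc, hd, hQN, one_mul, mul_zero, sub_zero] at hm'
        exact hm'.symm
      obtain ⟨γ', h1, h1', h2⟩ := hc_mk L (Q * a) (B - (b' : ℕ) * a) c m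
        (by linear_combination hdet - a * hm) (by rw [Int.cast_mul, hQN, ha, one_mul]) hm' hc hγ5
      refine ⟨some b', γ', h1, h1', ?_, ?_⟩
      · rw [h2]
        ext r s
        fin_cases r <;> fin_cases s <;> simp [iA, Matrix.mul_apply, Fin.sum_univ_two]
        · ring
        · linear_combination hm
      · rw [h2]
        have e1 : jacobiSym d 5 = jacobiSym ((Q : ℤ) * m) 5 := by
          apply hc_j5
          rw [← hm]
          have : d - (d - ((b' : ℕ) : ℤ) * c) = ((b' : ℕ) : ℤ) * c := by ring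
          rw [this]
          exact Dvd.dvd.mul_left (hL5.trans hγ5) _
        rw [jacobiSym.mul_left] at e1
        simp only [hcW, Matrix.of_apply, Matrix.cons_val', Matrix.cons_val_one, Matrix.cons_val_fin_one,
          mul_one]
        rw [e1, mul_pow]
  · by_cases hx : (Q : ℤ) ∣ a + (b : ℕ) * c
    · obtain ⟨m, hm⟩ := hx
      have hm' : (m : ZMod 36) = 1 := by
        have hm' := congrArg (Int.cast : ℤ → ZMod 36) hm
        rw [Int.cast_add, Int.cast_mul, Int.cast_mul, hc, ha, hQN, one_mul, mul_zero, add_zero] at hm'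
        exact hm'.symm
      obtain ⟨γ', h1, h1', h2⟩ := hc_mk L m (B + (b : ℕ) * d) c (Q * d)
        (by linear_combination hdet - d * hm) hm' (by rw [Int.cast_mul, hQN, hd, one_mul]) hc hγ5
      refine ⟨none, γ', h1, h1', ?_, ?_⟩
      · rw [h2]
        ext r s
        fin_cases r <;> fin_cases s <;> simp [iA, Matrix.mul_apply, Fin.sum_univ_two]
        · linear_combination hm
        · ring
      · rw [h2]
        simp only [hcW, Matrix.of_apply, Matrix.cons_val', Matrix.cons_val_one, Matrix.cons_val_fin_one,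
          one_mul]
        rw [jacobiSym.mul_left, mul_pow, mul_comm]
    · obtain ⟨b', m, hm⟩ := exists_solution hQ (a + (b : ℕ) * c) (B + (b : ℕ) * d) hx
      obtain ⟨γ', h1, h1', h2⟩ := hc_mk L (a + (b : ℕ) * c) m (Q * c) (d - (b' : ℕ) * c)
        (by linear_combination hdet + c * hm)
        (by rw [Int.cast_add, Int.cast_mul, hc, ha, mul_zero, add_zero])
        (by rw [Int.cast_sub, Int.cast_mul, hc, hd, mul_zero, sub_zero])
        (by rw [Int.cast_mul, hc, mul_zero]) (Dvd.dvd.mul_left hγ5 _)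
      refine ⟨some b', γ', h1, h1', ?_, ?_⟩
      · rw [h2]
        ext r s
        fin_cases r <;> fin_cases s <;> simp [iA, Matrix.mul_apply, Fin.sum_univ_two]
        · linear_combination hm
        · ring
      · rw [h2]
        have e1 : jacobiSym (d - (b' : ℕ) * c) 5 = jacobiSym d 5 := by
          apply hc_j5
          have : d - ((b' : ℕ) : ℤ) * c - d = -((b' : ℕ) : ℤ) * c := by ring
          rw [this]
          exact Dvd.dvd.mul_left (hL5.trans hγ5) _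
        simp only [hcW, Matrix.of_apply, Matrix.cons_val', Matrix.cons_val_one, Matrix.cons_val_fin_one,
          one_mul, mul_one]
        rw [e1]

private lemma hc_TC (ε : ℕ) (Q : ℕ+) (k : ℤ) (g : ℍ → ℂ) : TC ε Q k g =
    ∑ i : Option (Fin Q), ((hcW ε Q i : ℤ) : ℂ) • (g ∣[k] rA Q i) := by
  rw [Fintype.sum_option, add_comm]
  unfold TC
  rw [Finset.sum_range]
  congr 1
  simp only [hcW, Int.cast_one, one_smul]
  rfl

private lemma hc_smul (k : ℤ) (γ : SL(2, ℤ)) (c : ℂ) (f : ℍ → ℂ) :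
    (c • f) ∣[k] γ = c • (f ∣[k] γ) := ModularForm.SL_smul_slash k γ f c

theorem ML_TC {L ε : ℕ} (hL : 180 ∣ L) {k : ℤ} {g : ℍ → ℂ} (hg : ML L ε k g) (Q : ℕ+) (hQ : (Q : ℕ).Prime)
    (hN : (Q : ℕ) ≡ 1 [MOD 36]) (h5 : ¬ (Q : ℕ) ∣ L) : ML L ε k (TC ε Q k g) := by
  classical
  refine ⟨?_, ?_, ?_⟩
  · rw [hc_TC]
    refine Finset.sum_induction (fun i => ((hcW ε Q i : ℤ) : ℂ) • (g ∣[k] rA Q i)) (fun f => MDiff f)
      (fun a b ha hb => ha.add hb) ?_ (fun i _ => (hg.holo.slash k _).const_smul _)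
    exact mdifferentiable_const
  · intro γ hγ hγ5
    choose τ δ hδ hδ5 hτ hw using fun i : Option (Fin Q) =>
      hc_step (ε := ε) hL hQ hN h5 i γ hγ hγ5
    have hinj : Function.Injective τ := by
      intro i i' hii
      refine iA_inj hQ i i' ((δ i : Matrix (Fin 2) (Fin 2) ℤ) *
        ((δ i')⁻¹ : SL(2, ℤ)).1) ?_
      have h1 := hτ i
      have h2 := hτ i'
      rw [← hii] at h2
      have h3 : iA Q (τ i) = ((δ i')⁻¹ : SL(2, ℤ)).1 * (iA Q i' * (γ : Matrix (Fin 2) (Fin 2) ℤ)) := by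
        rw [h2, ← mul_assoc]
        have : ((δ i')⁻¹ : SL(2, ℤ)).1 * (δ i').1 = 1 := by
          exact congrArg Subtype.val (inv_mul_cancel (δ i'))
        rw [this, one_mul]
      have h4 : iA Q i * (γ : Matrix (Fin 2) (Fin 2) ℤ) =
          (δ i : Matrix (Fin 2) (Fin 2) ℤ) * ((δ i')⁻¹ : SL(2, ℤ)).1 * iA Q i' *
            (γ : Matrix (Fin 2) (Fin 2) ℤ) := by
        rw [h1, h3]
        simp only [mul_assoc]
      have h5 : (γ : Matrix (Fin 2) (Fin 2) ℤ) * (γ⁻¹ : SL(2, ℤ)).1 = 1 := by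
        exact congrArg Subtype.val (mul_inv_cancel γ)
      calc iA Q i = iA Q i * (γ : Matrix (Fin 2) (Fin 2) ℤ) * (γ⁻¹ : SL(2, ℤ)).1 := by
            rw [mul_assoc, h5, mul_one]
        _ = _ := by
            rw [h4, mul_assoc _ _ (γ⁻¹ : SL(2, ℤ)).1, h5, mul_one]
    have hbij : Function.Bijective τ := Finite.injective_iff_bijective.1 hinj
    have e1 : (∑ i : Option (Fin Q), ((hcW ε Q i : ℤ) : ℂ) • (g ∣[k] rA Q i)) ∣[k] γ =
        ∑ i : Option (Fin Q), (((hcW ε Q i : ℤ) : ℂ) • (g ∣[k] rA Q i)) ∣[k] γ :=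
      SlashAction.sum_slash _ _
    have e2 : (fun z => ((jacobiSym (γ 1 1) 5 ^ ε : ℤ) : ℂ) *
        (∑ i : Option (Fin Q), ((hcW ε Q i : ℤ) : ℂ) • (g ∣[k] rA Q i)) z) =
        ∑ i : Option (Fin Q), (((jacobiSym (γ 1 1) 5 ^ ε * hcW ε Q i : ℤ)) : ℂ) • (g ∣[k] rA Q i) := by
      funext z
      rw [Finset.sum_apply, Finset.sum_apply, Finset.mul_sum]
      refine Finset.sum_congr rfl (fun i _ => ?_)
      simp only [Pi.smul_apply, smul_eq_mul]
      push_cast
      ring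
    rw [hc_TC, e1, e2]
    refine (Finset.sum_congr rfl (fun i _ => ?_)).trans
      (Equiv.sum_comp (Equiv.ofBijective τ hbij)
        (fun j => (((jacobiSym (γ 1 1) 5 ^ ε * hcW ε Q j : ℤ)) : ℂ) • (g ∣[k] rA Q j)))
    rw [hc_smul, slash_gl, gl_step Q i (τ i) γ (δ i) (hτ i), SlashAction.slash_mul]
    have h6 : g ∣[k] (Matrix.SpecialLinearGroup.mapGL ℝ (δ i)) =
        ((jacobiSym (δ i 1 1) 5 ^ ε : ℤ) : ℂ) • g := by
      have := hg.inv (δ i) (hδ i) (hδ5 i)
      exact this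
    rw [h6]
    have h7 : (((jacobiSym (δ i 1 1) 5 ^ ε : ℤ) : ℂ) • g) ∣[k] rA Q (τ i) =
        ((jacobiSym (δ i 1 1) 5 ^ ε : ℤ) : ℂ) • (g ∣[k] rA Q (τ i)) := by
      have := ModularForm.smul_slash k (rA Q (τ i)) g ((jacobiSym (δ i 1 1) 5 ^ ε : ℤ) : ℂ)
      rw [this]
      congr 1
      simp [UpperHalfPlane.σ]
    rw [h7, smul_smul, ← Int.cast_mul, hw i]
    rfl
  · intro γ
    have e1 : (∑ i : Option (Fin Q), ((hcW ε Q i : ℤ) : ℂ) • (g ∣[k] rA Q i)) ∣[k] γ =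
        ∑ i : Option (Fin Q), (((hcW ε Q i : ℤ) : ℂ) • (g ∣[k] rA Q i)) ∣[k] γ :=
      SlashAction.sum_slash _ _
    rw [hc_TC, e1]
    refine Finset.sum_induction (fun i => (((hcW ε Q i : ℤ) : ℂ) • (g ∣[k] rA Q i)) ∣[k] γ)
      (fun f => IsBoundedAtImInfty f)
      (fun a b ha hb => ha.add hb) ?_ (fun i _ => ?_)
    · exact Filter.const_boundedAtFilter _ _
    · rw [hc_smul, slash_gl]
      refine Filter.BoundedAtFilter.smul _ ?_
      refine bdd_int hg.bdd _ (iA Q i * (γ : Matrix (Fin 2) (Fin 2) ℤ)) (fun r s => ?_) ?_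
      · rw [Matrix.GeneralLinearGroup.coe_mul, Matrix.mul_apply, Matrix.mul_apply, Fin.sum_univ_two,
          Fin.sum_univ_two, rA_apply, rA_apply, Matrix.SpecialLinearGroup.mapGL_coe_matrix]
        simp only [algebraMap_int_eq, Matrix.SpecialLinearGroup.map_apply_coe, RingHom.mapMatrix_apply,
    Matrix.map_apply, eq_intCast]
        push_cast
        rfl
      · rw [Matrix.det_mul, iA_det, γ.det_coe, mul_one]
        exact_mod_cast Q.pos

end Pool.Agent.B5Z
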