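import Pool.Agent.B5Z.Defs
import Pool.Agent.B5Z.HL1
import Pool.Agent.B5X.LCP
import Pool.Agent.B5.LF
import Pool.Agent.B5X.PC
import Pool.Agent.B5X.HC2

/-!
B5Z / LLP: as Pool.Agent.B5X.LCP, with L instead of 180 (an element of Gamma1(L) is in Gamma1(36) and Gamma0(L), with lower right entry 1 mod 5; so LM L ε k is contained in LL L k, `LL_fg`).
-/

set_option autoImplicit false

namespace Pool.Agent.B5Z

open PowerSeries UpperHalfPlane Pool.Agent.B5 Pool.Agent.B5X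
open scoped MatrixGroups ModularForm Manifold

private theorem llp_add {L ε : ℕ} {k : ℤ} {g g' : ℍ → ℂ} (h : ML L ε k g) (h' : ML L ε k g') :
    ML L ε k (fun z => g z + g' z) := by
  have he : (fun z => g z + g' z) = g + g' := rfl
  rw [he]
  refine ⟨h.holo.add h'.holo, ?_, ?_⟩
  · intro γ hγ h5
    rw [SlashAction.add_slash, h.inv γ hγ h5, h'.inv γ hγ h5]
    funext z
    simp only [Pi.add_apply]
    ring
  · intro γ
    rw [SlashAction.add_slash]
    exact Filter.BoundedAtFilter.add (h.bdd γ) (h'.bdd γ)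

private theorem llp_smul {L ε : ℕ} {k : ℤ} {g : ℍ → ℂ} (h : ML L ε k g) (a : ℂ) :
    ML L ε k (fun z => a * g z) := by
  have he : (fun z : ℍ => a * g z) = (fun _ : ℍ => a) * g := rfl
  have hc : (fun _ : ℍ => a) = Function.const ℍ a := rfl
  have hk : k = 0 + k := (zero_add k).symm
  rw [he]
  refine ⟨?_, ?_, ?_⟩
  · exact (show MDiff (fun _ : ℍ => a) from mdifferentiable_const).mul h.holo
  · intro γ hγ h5
    rw [hk, ModularForm.mul_slash_SL2, h.inv γ hγ h5, hc, ModularForm.is_invariant_const γ a]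
    funext z
    simp only [Pi.mul_apply, Function.const_apply]
    ring
  · intro γ
    rw [hk, ModularForm.mul_slash_SL2, hc, ModularForm.is_invariant_const γ a]
    exact mo_bdd_mul (Filter.const_boundedAtFilter _ _) (h.bdd γ)

private theorem llp_zero {L : ℕ} (ε : ℕ) (k : ℤ) : ML L ε k (fun _ => (0 : ℂ)) := by
  have he : (fun _ : ℍ => (0 : ℂ)) = 0 := rfl
  refine ⟨?_, ?_, ?_⟩
  · rw [he]
    exact mdifferentiable_const
  · intro γ _ _
    rw [he, SlashAction.zero_slash k γ]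
    funext z
    simp
  · intro γ
    rw [he, SlashAction.zero_slash]
    exact zero_form_isBoundedAtImInfty

private theorem llp_toMF {L ε : ℕ} (hL : 180 ∣ L) {k : ℤ} {g : ℍ → ℂ} (h : ML L ε k g) : MF L k g := by
  refine ⟨h.holo, ?_, h.bdd⟩
  intro γ hγ
  rw [CongruenceSubgroup.Gamma1_mem] at hγ
  obtain ⟨h1, h2, h3⟩ := hγ
  have key : ∀ n : ℕ, n ∣ L → ∀ x y : ℤ, (x : ZMod L) = (y : ZMod L) →
      (x : ZMod n) = (y : ZMod n) := by
    intro n hn x y hxy
    rw [ZMod.intCast_eq_intCast_iff_dvd_sub] at hxy ⊢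
    exact (Int.natCast_dvd_natCast.mpr hn).trans hxy
  have d36 : 36 ∣ L := (by norm_num : 36 ∣ 180).trans hL
  have d5 : 5 ∣ L := (by norm_num : 5 ∣ 180).trans hL
  have a36 : γ ∈ CongruenceSubgroup.Gamma1 36 := by
    rw [CongruenceSubgroup.Gamma1_mem]
    refine ⟨?_, ?_, ?_⟩
    · have := key 36 d36 _ 1 (by rw [h1]; simp)
      simpa using this
    · have := key 36 d36 _ 1 (by rw [h2]; simp)
      simpa using this
    · have := key 36 d36 _ 0 (by rw [h3]; simp)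
      simpa using this
  have a5 : γ ∈ CongruenceSubgroup.Gamma0 L := by
    rw [CongruenceSubgroup.Gamma0_mem]
    exact h3
  have hd : γ 1 1 % ((5 : ℕ) : ℤ) = 1 := by
    have h4 := key 5 d5 _ 1 (by rw [h2]; simp)
    rw [ZMod.intCast_eq_intCast_iff_dvd_sub] at h4
    push_cast at h4 ⊢
    omega
  have hj : jacobiSym (γ 1 1) 5 = 1 := by
    rw [jacobiSym.mod_left, hd, jacobiSym.one_left]
  rw [h.inv γ a36 a5, hj]
  funext z
  simp

theorem LM_period (L ε k : ℕ) (hL0 : 0 < L) (hL : 180 ∣ L) (hk : 1 ≤ k) (c : ℤ⟦X⟧) (hc : c ∈ LM L ε k) (Q : ℕ)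
    (hQ : Q.Prime) (hQ1 : Q ≡ 1 [MOD 36]) (hQL : ¬ Q ∣ L) (m : ℕ) (hm : 0 < m) (hQm : Nat.Coprime Q m) :
    ∃ π : ℕ, 0 < π ∧ ∀ j : ℕ, 2 ≤ j → ∀ x : ℕ, Nat.Coprime Q x →
      (m : ℤ) ∣ PowerSeries.coeff (Q ^ (π * j - 1) * x) c ∧
      (m : ℤ) ∣ (jacobiSym (Q : ℤ) 5 ^ ε * (Q : ℤ) ^ (k - 1)) * PowerSeries.coeff (Q ^ (π * j - 2) * x) c +
        PowerSeries.coeff x c := by
  have hQ5 : Q ≠ 5 := by
    rintro rfl
    exact hQL ((by norm_num : 5 ∣ 180).trans hL)
  classical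
  let L' : Submodule ℤ ℤ⟦X⟧ :=
    { carrier := LM L ε k
      add_mem' := by
        rintro a b ⟨g, hg, hgq⟩ ⟨g', hg', hgq'⟩
        refine ⟨_, llp_add hg hg', ?_⟩
        have := hgq.add hgq'
        rwa [show toC (a + b) = toC a + toC b from map_add _ _ _]
      zero_mem' := by
        refine ⟨_, llp_zero ε k, ?_⟩
        rw [show toC 0 = 0 from map_zero _]
        intro z
        simp [hasSum_zero]
      smul_mem' := by
        rintro m a ⟨g, hg, hgq⟩
        refine ⟨_, llp_smul hg (m : ℂ), ?_⟩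
        have h1 := (HasQ.const (m : ℂ)).mul hgq
        have h2 : toC (m • a) = PowerSeries.C (m : ℂ) * toC a := by
          ext n
          simp [toC]
        rw [h2]
        exact h1 }
  obtain ⟨Ls, hLs, hLmem⟩ := LL_fg L k hL0.ne'
  have hle : L' ≤ Ls := by
    rintro a ⟨g, hg, hgq⟩
    rw [hLmem]
    exact ⟨g, llp_toMF hL hg, hgq⟩
  have hfin : Module.Finite ℤ Ls := Module.Finite.iff_fg.2 hLs
  have hN : IsNoetherian ℤ Ls := isNoetherian_of_isNoetherianRing_of_finite ℤ Ls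
  have hFG : L'.FG := (isNoetherian_submodule.mp hN) L' hle
  set δ : ℤ := jacobiSym (Q : ℤ) 5 ^ ε * (Q : ℤ) ^ (k - 1) with hδ
  have hcop : IsCoprime δ (m : ℤ) := by
    have h1 : IsCoprime (Q : ℤ) (m : ℤ) := Nat.isCoprime_iff_coprime.2 hQm
    have h2 : IsCoprime (jacobiSym (Q : ℤ) 5) (m : ℤ) := by
      have h3 : Int.gcd (Q : ℤ) (5 : ℕ) = 1 := by
        rw [Int.gcd_natCast_natCast]
        rw [← Nat.coprime_iff_gcd_eq_one, Nat.coprime_primes hQ (by norm_num)]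
        exact hQ5
      have h4 : jacobiSym (Q : ℤ) 5 = 1 ∨ jacobiSym (Q : ℤ) 5 = -1 :=
        jacobiSym.eq_one_or_neg_one h3
      rcases h4 with h | h
      · rw [h]
        exact isCoprime_one_left
      · rw [h]
        exact isCoprime_one_left.neg_left
    exact (h2.pow_left).mul_left (h1.pow_left)
  refine period_gen L' hFG Q m δ hQ hm hcop ?_ c hc
  rintro a ⟨g, hg, hgq⟩
  refine ⟨TC ε ⟨Q, hQ.pos⟩ k g, ML_TC hL hg ⟨Q, hQ.pos⟩ hQ hQ1 hQL, ?_⟩
  have h1 := HasQ_TC ε hk hgq ⟨Q, hQ.pos⟩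
  have h2 : toC (tg Q δ a) = tg Q (((jacobiSym ((Q : ℕ) : ℤ) 5 ^ ε : ℤ) : ℂ) *
      ((Q : ℕ) : ℂ) ^ (k - 1)) (toC a) := by
    ext n
    simp only [toC, tg, PowerSeries.coeff_map, PowerSeries.coeff_mk, map_add, eq_intCast]
    split_ifs
    · rw [hδ]
      push_cast
      ring
    · push_cast
      ring
  rw [h2]
  exact h1

end Pool.Agent.B5Z
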