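import Pool.Agent.B5X.MX
import Pool.Agent.B5Z.DJ
import Pool.Agent.B5Z.K3
import Pool.Agent.B5Z.LLP

/-!
B5Z / MY: assembly, all moduli not divisible by 3.
-/

set_option autoImplicit false

namespace Pool.Agent.B5Z

open PowerSeries UpperHalfPlane Pool.Agent.B5 Pool.Agent.B5X
open scoped MatrixGroups ModularForm Manifold

/-- the 2-adic form: a lattice element whose coefficients at `12 n + 1` are `b5 (2 n)` modulo `2 ^ k` -/
theorem form_2k (k : ℕ) (hk : 1 ≤ k) :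
    ∃ c : ℤ⟦X⟧, c ∈ LM 2880 1 (2 ^ k) ∧
      ∀ n : ℕ, ((PowerSeries.coeff (12 * n + 1) c : ℤ) : ZMod (2 ^ k)) = (b5 (2 * n) : ZMod (2 ^ k)) := by
  refine ⟨PowerSeries.X * PowerSeries.expand 12 (by norm_num) (sS k), ⟨gk k, ?_, gk_hasQ k⟩, ?_⟩
  · have := ML_gk k hk
    exact_mod_cast this
  · intro n
    have h1 : PowerSeries.coeff (12 * n + 1) (PowerSeries.X * PowerSeries.expand 12 (by norm_num) (sS k)) =
        PowerSeries.coeff n (sS k) := by
      rw [PowerSeries.coeff_succ_X_mul]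
      exact PowerSeries.coeff_expand_mul ..
    rw [h1]
    have h2 := sE2_cong k n
    have h3 : PowerSeries.coeff n sE2 = (b5 (2 * n) : ℤ) := by simp [sE2]
    rw [h3] at h2
    have h4 : (((2 ^ k : ℕ) : ℤ)) ∣ PowerSeries.coeff n (sS k) - (b5 (2 * n) : ℤ) := by exact_mod_cast h2
    have h5 := (ZMod.intCast_zmod_eq_zero_iff_dvd _ _).mpr h4
    push_cast at h5
    exact sub_eq_zero.mp h5

theorem chi_sq (Q : ℕ) (hQ : Q.Prime) (hQ5 : Q ≠ 5) : (jacobiSym (Q : ℤ) 5) ^ 2 = 1 := by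
  have hco : Int.gcd (Q : ℤ) 5 = 1 := by
    have := (Nat.coprime_primes hQ (by norm_num : Nat.Prime 5)).mpr hQ5
    simpa [Int.gcd] using this
  exact jacobiSym.sq_one hco

/-- powers of 2 -/
theorem step_two (k : ℕ) (hk : 1 ≤ k) (Q : ℕ) (hQ : Q.Prime) (hQ1 : Q ≡ 1 [MOD 36]) (hQ5 : 5 < Q)
    (n0 : ℕ) (hn0 : Even n0) (hQx : Nat.Coprime Q (6 * n0 + 1)) :
    ∃ π : ℕ, 0 < π ∧ ∀ j : ℕ, 2 ≤ j →
      (∀ n, 6 * n + 1 = Q ^ (π * j - 1) * (6 * n0 + 1) → (b5 n : ZMod (2 ^ k)) = 0) ∧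
      (∀ n, 6 * n + 1 = Q ^ (π * j - 2) * (6 * n0 + 1) →
        (b5 n : ZMod (2 ^ k)) = -(((jacobiSym (Q : ℤ) 5 : ℤ) : ZMod (2 ^ k)) * (Q : ZMod (2 ^ k))) *
          (b5 n0 : ZMod (2 ^ k))) := by
  obtain ⟨c, hc, hcc⟩ := form_2k k hk
  have hQL : ¬ Q ∣ 2880 := by
    intro h
    have h1 : (2880 : ℕ) = 2 ^ 6 * 3 ^ 2 * 5 := by norm_num
    rw [h1] at h
    rcases (Nat.Prime.dvd_mul hQ).mp h with h | h
    · rcases (Nat.Prime.dvd_mul hQ).mp h with h | h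
      · have := Nat.le_of_dvd (by norm_num) (hQ.dvd_of_dvd_pow h)
        omega
      · have := Nat.le_of_dvd (by norm_num) (hQ.dvd_of_dvd_pow h)
        omega
    · have := Nat.le_of_dvd (by norm_num) h
      omega
  have hQ2 : Nat.Coprime Q (2 ^ k) :=
    Nat.Coprime.pow_right k ((Nat.coprime_primes hQ (by norm_num)).mpr (by omega))
  obtain ⟨π, hπ, h⟩ := LM_period 2880 1 (2 ^ k) (by norm_num) (by norm_num) Nat.one_le_two_pow c hc Q hQ hQ1 hQL
    (2 ^ k) (by positivity) hQ2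
  refine ⟨π, hπ, ?_⟩
  intro j hj
  obtain ⟨h1, h2⟩ := h j hj (6 * n0 + 1) hQx
  obtain ⟨n0', hn0'⟩ := hn0
  -- x congruent to 1 mod 12
  have hx : ∀ (e n : ℕ), 6 * n + 1 = Q ^ e * (6 * n0 + 1) → ∃ n', n = 2 * n' := by
    intro e n hn
    have h12 : Q ≡ 1 [MOD 12] := hQ1.of_dvd (by norm_num)
    have h3 : Q ^ e * (6 * n0 + 1) ≡ 1 ^ e * 1 [MOD 12] := by
      apply Nat.ModEq.mul (h12.pow e)
      show (6 * n0 + 1) % 12 = 1 % 12
      omega
    rw [← hn, one_pow, one_mul] at h3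
    have h4 : (6 * n + 1) % 12 = 1 % 12 := h3
    exact ⟨n / 2, by omega⟩
  have hval : ∀ n n', n = 2 * n' → ((PowerSeries.coeff (6 * n + 1) c : ℤ) : ZMod (2 ^ k)) = (b5 n : ZMod (2 ^ k)) := by
    intro n n' hn
    have e : 6 * n + 1 = 12 * n' + 1 := by omega
    rw [e, hcc n', hn]
  constructor
  · intro n hn
    obtain ⟨n', hn'⟩ := hx _ n hn
    rw [← hn] at h1
    rw [← hval n n' hn']
    exact (ZMod.intCast_zmod_eq_zero_iff_dvd _ _).mpr h1
  · intro n hn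
    obtain ⟨n', hn'⟩ := hx _ n hn
    rw [← hn] at h2
    have h3 := (ZMod.intCast_zmod_eq_zero_iff_dvd _ _).mpr h2
    push_cast at h3
    rw [hval n n' hn', hval n0 n0' (by omega)] at h3
    set χ : ZMod (2 ^ k) := ((jacobiSym (Q : ℤ) 5 : ℤ) : ZMod (2 ^ k)) with hχ
    have hχ2 : χ * χ = 1 := by
      have := congrArg (Int.cast : ℤ → ZMod (2 ^ k)) (chi_sq Q hQ (by omega))
      push_cast at this
      rw [← hχ] at this
      rw [← sq]; exact this
    have hQK : (Q : ZMod (2 ^ k)) ^ (2 ^ k) = 1 := by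
      have htot : (2 ^ k).totient = 2 ^ (k - 1) * (2 - 1) := Nat.totient_prime_pow Nat.prime_two (by omega)
      have h5 : (ZMod.unitOfCoprime Q hQ2) ^ (2 ^ k).totient = 1 := ZMod.pow_totient _
      have h6 := congrArg (fun u : (ZMod (2 ^ k))ˣ => (u : ZMod (2 ^ k))) h5
      simp only [Units.val_pow_eq_pow_val, ZMod.coe_unitOfCoprime, Units.val_one] at h6
      have h7 : 2 ^ k = (2 ^ k).totient * 2 := by
        rw [htot]
        have : 2 ^ k = 2 ^ (k - 1) * 2 := by rw [← pow_succ]; congr 1; omega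
        omega
      calc (Q : ZMod (2 ^ k)) ^ (2 ^ k) = (Q : ZMod (2 ^ k)) ^ ((2 ^ k).totient * 2) := by rw [← h7]
        _ = 1 := by rw [pow_mul, h6, one_pow]
    have hpow : (Q : ZMod (2 ^ k)) ^ (2 ^ k - 1) * (Q : ZMod (2 ^ k)) = 1 := by
      rw [← pow_succ, Nat.sub_add_cancel Nat.one_le_two_pow, hQK]
    have h5 : χ * (Q : ZMod (2 ^ k)) ^ (2 ^ k - 1) * (b5 n : ZMod (2 ^ k)) = - (b5 n0 : ZMod (2 ^ k)) := by
      have h3' : χ ^ 1 * (Q : ZMod (2 ^ k)) ^ (2 ^ k - 1) * (b5 n : ZMod (2 ^ k)) + (b5 n0 : ZMod (2 ^ k)) = 0 := h3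
      linear_combination h3'
    calc (b5 n : ZMod (2 ^ k)) = (χ * χ) * ((Q : ZMod (2 ^ k)) ^ (2 ^ k - 1) * (Q : ZMod (2 ^ k))) *
          (b5 n : ZMod (2 ^ k)) := by rw [hχ2, hpow]; ring
      _ = χ * (Q : ZMod (2 ^ k)) * (χ * (Q : ZMod (2 ^ k)) ^ (2 ^ k - 1) * (b5 n : ZMod (2 ^ k))) := by ring
      _ = _ := by rw [h5]; ring

/-- Euler's criterion modulo powers of 5 -/
theorem euler_five (k : ℕ) (hk : 1 ≤ k) (Q : ℕ) (hQ : Q.Prime) (hQ5 : Q ≠ 5) :
    (Q : ZMod (5 ^ k)) ^ (2 * 5 ^ (k - 1)) = ((jacobiSym (Q : ℤ) 5 : ℤ) : ZMod (5 ^ k)) := by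
  have : Fact (Nat.Prime 5) := ⟨by norm_num⟩
  have hj : jacobiSym (Q : ℤ) 5 = legendreSym 5 (Q : ℤ) := (jacobiSym.legendreSym.to_jacobiSym 5 _).symm
  have h1 : (5 : ℤ) ∣ (Q : ℤ) ^ 2 - jacobiSym (Q : ℤ) 5 := by
    rw [hj]
    have h2 := legendreSym.eq_pow 5 (Q : ℤ)
    have h3 : (((Q : ℤ) ^ 2 - legendreSym 5 (Q : ℤ) : ℤ) : ZMod 5) = 0 := by
      push_cast
      rw [h2]
      norm_num
    exact (ZMod.intCast_zmod_eq_zero_iff_dvd _ 5).mp h3
  have h2 : ((5 : ℕ) : ℤ) ∣ (Q : ℤ) ^ 2 - jacobiSym (Q : ℤ) 5 := by exact_mod_cast h1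
  have h3 := dvd_sub_pow_of_dvd_sub h2 (k - 1)
  rw [Nat.sub_add_cancel hk] at h3
  have h4 : (((5 ^ k : ℕ)) : ℤ) ∣ ((Q : ℤ) ^ 2) ^ 5 ^ (k - 1) - (jacobiSym (Q : ℤ) 5) ^ 5 ^ (k - 1) := by
    exact_mod_cast h3
  have h5 := (ZMod.intCast_zmod_eq_zero_iff_dvd _ _).mpr h4
  have h6 : (jacobiSym (Q : ℤ) 5) ^ 5 ^ (k - 1) = jacobiSym (Q : ℤ) 5 := by
    have hodd : Odd (5 ^ (k - 1)) := Odd.pow (by decide)
    obtain ⟨r, hr⟩ := hodd
    rw [hr, pow_succ, pow_mul, chi_sq Q hQ hQ5, one_pow, one_mul]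
  rw [h6] at h5
  push_cast at h5
  rw [pow_mul]
  exact sub_eq_zero.mp h5

/-- powers of 5, with the uniform ratio -/
theorem step_five' (k : ℕ) (hk : 1 ≤ k) (Q : ℕ) (hQ : Q.Prime) (hQ1 : Q ≡ 1 [MOD 36]) (hQ5 : Q ≠ 5)
    (n0 : ℕ) (hQx : Nat.Coprime Q (6 * n0 + 1)) :
    ∃ π : ℕ, 0 < π ∧ ∀ j : ℕ, 2 ≤ j →
      (∀ n, 6 * n + 1 = Q ^ (π * j - 1) * (6 * n0 + 1) → (b5 n : ZMod (5 ^ k)) = 0) ∧
      (∀ n, 6 * n + 1 = Q ^ (π * j - 2) * (6 * n0 + 1) →
        (b5 n : ZMod (5 ^ k)) = -(((jacobiSym (Q : ℤ) 5 : ℤ) : ZMod (5 ^ k)) * (Q : ZMod (5 ^ k))) *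
          (b5 n0 : ZMod (5 ^ k))) := by
  obtain ⟨π, hπ, h⟩ := step_five k hk Q hQ hQ1 hQ5 n0 hQx
  refine ⟨π, hπ, ?_⟩
  intro j hj
  obtain ⟨h1, h2⟩ := h j hj
  refine ⟨h1, ?_⟩
  intro n hn
  have h3 := h2 n hn
  set χ : ZMod (5 ^ k) := ((jacobiSym (Q : ℤ) 5 : ℤ) : ZMod (5 ^ k)) with hχ
  have hχ2 : χ * χ = 1 := by
    have := congrArg (Int.cast : ℤ → ZMod (5 ^ k)) (chi_sq Q hQ hQ5)
    push_cast at this
    rw [← hχ] at this
    rw [← sq]; exact this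
  have h5 : 1 ≤ 2 * 5 ^ (k - 1) := by
    have : 0 < 5 ^ (k - 1) := by positivity
    omega
  have h6 : (Q : ZMod (5 ^ k)) ^ (2 * 5 ^ (k - 1) - 1) * (Q : ZMod (5 ^ k)) = χ := by
    rw [← pow_succ, Nat.sub_add_cancel h5, euler_five k hk Q hQ hQ5]
  calc (b5 n : ZMod (5 ^ k)) = (χ * χ) * (b5 n : ZMod (5 ^ k)) := by rw [hχ2, one_mul]
    _ = (χ * ((Q : ZMod (5 ^ k)) ^ (2 * 5 ^ (k - 1) - 1) * (Q : ZMod (5 ^ k)))) * (b5 n : ZMod (5 ^ k)) := by
        rw [h6]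
    _ = χ * (Q : ZMod (5 ^ k)) * ((Q : ZMod (5 ^ k)) ^ (2 * 5 ^ (k - 1) - 1) * (b5 n : ZMod (5 ^ k))) := by ring
    _ = _ := by rw [h3]; ring

/-- the admissible starting points -/
def Good (m n0 : ℕ) : Prop :=
  (2 ∣ m → Even n0) ∧
    ∀ p : ℕ, (hp : p.Prime) → p ∣ m → 5 < p →
      @legendreSym p ⟨hp⟩ (6 * n0 + 1) = - @legendreSym p ⟨hp⟩ (-5)

/-- one prime power, uniform ratio -/
theorem step_any (m : ℕ) (hm : 0 < m) (h3 : ¬ 3 ∣ m) (n0 : ℕ) (hg : Good m n0)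
    (Q : ℕ) (hQp : Q.Prime) (hQB : m + (6 * n0 + 1) + 5 < Q) (hQ1 : Q ≡ 1 [MOD 36])
    (p : ℕ) (hp : p.Prime) (hpm : p ∣ m) :
    ∃ π : ℕ, 0 < π ∧ ∀ j : ℕ, 2 ≤ j → Even j → ∀ n, 6 * n + 1 = Q ^ (π * j - 2) * (6 * n0 + 1) →
      ((p ^ (m.factorization p) : ℕ) : ℤ) ∣ (b5 n : ℤ) + jacobiSym (Q : ℤ) 5 * Q * b5 n0 := by
  have hQx := cop_of_gt Q hQp n0 (by omega)
  have hk1 : 1 ≤ m.factorization p := (hp.pow_dvd_iff_le_factorization hm.ne').mp (by simpa using hpm)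
  rcases prime_cases m p hp hpm h3 with rfl | rfl | h5
  · obtain ⟨π, hπ, h⟩ := step_two (m.factorization 2) hk1 Q hQp hQ1 (by omega) n0 (hg.1 hpm) hQx
    refine ⟨π, hπ, ?_⟩
    intro j hj _ n hn
    have h7 := (h j hj).2 n hn
    apply (ZMod.intCast_zmod_eq_zero_iff_dvd _ _).mp
    push_cast
    rw [h7]
    ring
  · obtain ⟨π, hπ, h⟩ := step_five' (m.factorization 5) hk1 Q hQp hQ1 (by omega) n0 hQx
    refine ⟨π, hπ, ?_⟩
    intro j hj _ n hn
    have h7 := (h j hj).2 n hn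
    apply (ZMod.intCast_zmod_eq_zero_iff_dvd _ _).mp
    push_cast
    rw [h7]
    ring
  · have : Fact p.Prime := ⟨hp⟩
    have hple : p ≤ m := Nat.le_of_dvd hm hpm
    obtain ⟨π, hπ, h⟩ := step_pk p h5 (m.factorization p) hk1 Q hQp hQ1 (by omega) (by omega) n0 hQx
      (hg.2 p hp hpm h5)
    refine ⟨π, hπ, ?_⟩
    intro j hj hje n hn
    have hχ2 : ((jacobiSym (Q : ℤ) 5 : ℤ) : ZMod (p ^ (m.factorization p))) *
        ((jacobiSym (Q : ℤ) 5 : ℤ) : ZMod (p ^ (m.factorization p))) = 1 := by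
      have := congrArg (Int.cast : ℤ → ZMod (p ^ (m.factorization p))) (chi_sq Q hQp (by omega))
      push_cast at this
      rw [← sq]; exact this
    have h7 := (h j hj).2 hje n hn
      (-(((jacobiSym (Q : ℤ) 5 : ℤ) : ZMod (p ^ (m.factorization p))) * (Q : ZMod (p ^ (m.factorization p)))))
      (by rw [mul_neg, ← mul_assoc, hχ2, one_mul])
    apply (ZMod.intCast_zmod_eq_zero_iff_dvd _ _).mp
    push_cast
    rw [h7]
    ring

/-- one prime power, the zero class -/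
theorem step_zero' (m : ℕ) (hm : 0 < m) (h3 : ¬ 3 ∣ m) (n0 : ℕ) (hg : Good m n0)
    (Q : ℕ) (hQp : Q.Prime) (hQB : m + (6 * n0 + 1) + 5 < Q) (hQ36 : Q ≡ 1 [MOD 36])
    (hQ7 : Q ≡ 1 [MOD m])
    (p : ℕ) (hp : p.Prime) (hpm : p ∣ m) :
    ∃ π : ℕ, 0 < π ∧ ∀ j : ℕ, 2 ≤ j → Even j → ∀ n, 6 * n + 1 = Q ^ (π * j - 1) * (6 * n0 + 1) →
      ((p ^ (m.factorization p) : ℕ) : ℤ) ∣ (b5 n : ℤ) := by
  have hQx := cop_of_gt Q hQp n0 (by omega)
  have hk1 : 1 ≤ m.factorization p := (hp.pow_dvd_iff_le_factorization hm.ne').mp (by simpa using hpm)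
  rcases prime_cases m p hp hpm h3 with rfl | rfl | h5
  · obtain ⟨π, hπ, h⟩ := step_two (m.factorization 2) hk1 Q hQp hQ36 (by omega) n0 (hg.1 hpm) hQx
    refine ⟨π, hπ, ?_⟩
    intro j hj _ n hn
    exact Int.natCast_dvd_natCast.mpr ((ZMod.natCast_eq_zero_iff _ _).mp ((h j hj).1 n hn))
  · obtain ⟨π, hπ, h⟩ := step_five (m.factorization 5) hk1 Q hQp hQ36 (by omega) n0 hQx
    refine ⟨π, hπ, ?_⟩
    intro j hj _ n hn
    exact Int.natCast_dvd_natCast.mpr ((ZMod.natCast_eq_zero_iff _ _).mp ((h j hj).1 n hn))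
  · have : Fact p.Prime := ⟨hp⟩
    have hple : p ≤ m := Nat.le_of_dvd hm hpm
    obtain ⟨π, hπ, h⟩ := step_pk p h5 (m.factorization p) hk1 Q hQp hQ36 (by omega) (by omega) n0 hQx
      (hg.2 p hp hpm h5)
    refine ⟨π, hπ, ?_⟩
    intro j hj hje n hn
    have h6 : (Q : ZMod p) = 1 := by
      have := (ZMod.natCast_eq_natCast_iff Q 1 p).mpr (hQ7.of_dvd hpm)
      simpa using this
    exact Int.natCast_dvd_natCast.mpr ((ZMod.natCast_eq_zero_iff _ _).mp ((h j hj).1 h6 n hn))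

/-- the auxiliary prime: a common residue `Q = - ε t` modulo `m`, `(Q/5) = ε` -/
theorem exists_QE (m : ℕ) (hm : 0 < m) (h3 : ¬ 3 ∣ m) (t : ℕ) (ht : Nat.Coprime t m) (ε : ℤ) (hε : ε = 1 ∨ ε = -1)
    (h4 : 4 ∣ m → (4 : ℤ) ∣ 1 + ε * t) (h5 : 5 ∣ m → jacobiSym (t : ℤ) 5 = ε) (B : ℕ) :
    ∃ Q : ℕ, Q.Prime ∧ B < Q ∧ Q ≡ 1 [MOD 36] ∧ (m : ℤ) ∣ (Q : ℤ) + ε * t ∧ jacobiSym (Q : ℤ) 5 = ε := by
  have : NeZero m := ⟨hm.ne'⟩
  -- a representative of - ε t modulo m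
  let s : ℕ := (((-(ε * t) : ℤ)) : ZMod m).val
  have hs : (m : ℤ) ∣ (s : ℤ) + ε * t := by
    apply (ZMod.intCast_zmod_eq_zero_iff_dvd _ _).mp
    push_cast
    have : ((s : ℕ) : ZMod m) = ((-(ε * t) : ℤ) : ZMod m) := by simp [s]
    rw [this]
    push_cast
    ring
  have hsco : IsCoprime (s : ℤ) (m : ℤ) := by
    obtain ⟨c, hc⟩ := hs
    have hs' : (s : ℤ) = -(ε * t) + m * c := by linarith
    rw [hs']
    apply IsCoprime.add_mul_left_left
    apply IsCoprime.neg_left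
    have : IsCoprime (t : ℤ) (m : ℤ) := Nat.isCoprime_iff_coprime.mpr ht
    rcases hε with h | h <;> rw [h]
    · simpa using this
    · simpa using this.neg_left
  -- combine with 1 modulo 36
  have hg4 : Nat.gcd m 36 ∣ 4 := by
    have h36 : (36 : ℕ) = 4 * 9 := by norm_num
    have hc3 : Nat.Coprime (Nat.gcd m 36) 9 := by
      have h1 : Nat.Coprime m 3 := ((Nat.Prime.coprime_iff_not_dvd (by norm_num)).mpr h3).symm
      have h2 : Nat.Coprime m (3 ^ 2) := Nat.Coprime.pow_right 2 h1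
      exact Nat.Coprime.coprime_dvd_left (Nat.gcd_dvd_left _ _) (by simpa using h2)
    exact (Nat.Coprime.dvd_mul_right hc3).mp (by rw [← h36]; exact Nat.gcd_dvd_right _ _)
  have hmod : s ≡ 1 [MOD Nat.gcd m 36] := by
    apply Nat.ModEq.symm
    rw [Nat.modEq_iff_dvd]
    push_cast
    have hgm : ((Nat.gcd m 36 : ℕ) : ℤ) ∣ (s : ℤ) + ε * t :=
      (Int.natCast_dvd_natCast.mpr (Nat.gcd_dvd_left _ _)).trans hs
    have hg1 : ((Nat.gcd m 36 : ℕ) : ℤ) ∣ 1 + ε * t := by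
      by_cases h : 4 ∣ m
      · exact (Int.natCast_dvd_natCast.mpr hg4).trans (by exact_mod_cast h4 h)
      · -- gcd is 1 or 2
        have hle : Nat.gcd m 36 ≤ 4 := Nat.le_of_dvd (by norm_num) hg4
        have hne4 : Nat.gcd m 36 ≠ 4 := fun h' => h (h' ▸ Nat.gcd_dvd_left m 36)
        have hne3 : Nat.gcd m 36 ≠ 3 := fun h' => h3 (h' ▸ Nat.gcd_dvd_left m 36)
        have hpos : 0 < Nat.gcd m 36 := Nat.gcd_pos_of_pos_left _ hm
        have h12 : Nat.gcd m 36 = 1 ∨ Nat.gcd m 36 = 2 := by omega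
        rcases h12 with h' | h'
        · rw [h']; simp
        · rw [h']
          have h2m : 2 ∣ m := h' ▸ Nat.gcd_dvd_left m 36
          have hodd : ¬ 2 ∣ t := by
            intro hh
            have h7 := Nat.Coprime.eq_one_of_dvd (Nat.Coprime.symm (Nat.Coprime.coprime_dvd_right h2m ht)) hh
            omega
          rcases hε with h | h <;> rw [h] <;> push_cast <;> omega
    have e : (s : ℤ) - 1 = ((s : ℤ) + ε * t) - (1 + ε * t) := by ring
    rw [e]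
    exact dvd_sub hgm hg1
  obtain ⟨s1, hs1a, hs1b⟩ := Nat.chineseRemainder' hmod
  -- combine with the residue modulo 5
  have hs1m : (m : ℤ) ∣ (s1 : ℤ) - s := by
    have := (Nat.modEq_iff_dvd.mp hs1a.symm)
    exact this
  let L : ℕ := Nat.lcm m 36
  have hL0 : 0 < L := Nat.lcm_pos hm (by norm_num)
  have hmL : m ∣ L := Nat.dvd_lcm_left _ _
  have h36L : 36 ∣ L := Nat.dvd_lcm_right _ _
  have hs1L : Nat.Coprime s1 L := by
    have h1 : Nat.Coprime s1 m := by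
      rw [← Nat.isCoprime_iff_coprime]
      obtain ⟨c, hc⟩ := hs1m
      have e : (s1 : ℤ) = s + m * c := by linarith
      rw [e]
      exact IsCoprime.add_mul_left_left hsco c
    have h2 : Nat.Coprime s1 36 := by
      have := hs1b.gcd_eq
      rw [Nat.Coprime, this]
      norm_num
    exact Nat.Coprime.coprime_dvd_right (Nat.lcm_dvd_mul m 36) (Nat.Coprime.mul_right h1 h2)
  obtain ⟨s2, hs2a, hs2b, hs2c⟩ : ∃ s2 : ℕ, s2 ≡ s1 [MOD L] ∧ jacobiSym (s2 : ℤ) 5 = ε ∧ Nat.Coprime s2 (5 * L) := by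
    by_cases h : 5 ∣ m
    · refine ⟨s1, Nat.ModEq.refl _, ?_, ?_⟩
      · have h6 : (5 : ℤ) ∣ (s1 : ℤ) + ε * t := by
          have h7 : ((5 : ℕ) : ℤ) ∣ (m : ℤ) := Int.natCast_dvd_natCast.mpr h
          have e : (s1 : ℤ) + ε * t = ((s1 : ℤ) - s) + (s + ε * t) := by ring
          rw [e]
          exact_mod_cast dvd_add (h7.trans hs1m) (h7.trans hs)
        have h8 : jacobiSym (s1 : ℤ) 5 = jacobiSym (-(ε * t)) 5 := by
          rw [jacobiSym.mod_left (s1 : ℤ) 5, jacobiSym.mod_left (-(ε * t)) 5]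
          congr 1
          push_cast
          omega
        rw [h8]
        have h9 : jacobiSym (-(ε * t)) 5 = jacobiSym (t : ℤ) 5 := by
          rcases hε with h' | h' <;> rw [h']
          · rw [one_mul, ← neg_one_mul, jacobiSym.mul_left]
            have : jacobiSym (-1) 5 = 1 := by norm_num
            rw [this, one_mul]
          · rw [neg_one_mul, neg_neg]
        rw [h9, h5 h]
      · have h6 : 5 ∣ L := h.trans hmL
        have h7 : Nat.Coprime s1 5 := Nat.Coprime.coprime_dvd_right h6 hs1L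
        exact Nat.Coprime.mul_right h7 hs1L
    · have hco : Nat.Coprime L 5 := by
        apply Nat.Coprime.symm
        rw [Nat.Prime.coprime_iff_not_dvd (by norm_num)]
        intro h6
        have h7 : 5 ∣ m * 36 := h6.trans (Nat.lcm_dvd_mul m 36)
        rcases (Nat.Prime.dvd_mul (by norm_num)).mp h7 with h8 | h8
        · exact h h8
        · omega
      obtain ⟨r, hr1, hr2⟩ : ∃ r : ℕ, jacobiSym (r : ℤ) 5 = ε ∧ Nat.Coprime r 5 := by
        rcases hε with h' | h'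
        · exact ⟨1, by rw [h']; norm_num, by norm_num⟩
        · exact ⟨2, by rw [h']; norm_num, by norm_num⟩
      obtain ⟨s2, hs2a, hs2b⟩ := Nat.chineseRemainder hco s1 r
      refine ⟨s2, hs2a, ?_, ?_⟩
      · rw [← hr1, jacobiSym.mod_left (s2 : ℤ) 5, jacobiSym.mod_left (r : ℤ) 5]
        congr 1
        have : s2 % 5 = r % 5 := hs2b
        push_cast
        omega
      · apply Nat.Coprime.mul_right
        · have := hs2b.gcd_eq
          rw [Nat.Coprime, this]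
          exact hr2
        · have := hs2a.gcd_eq
          rw [Nat.Coprime, this]
          exact hs1L
  obtain ⟨Q, hQp, hQB, _, hQ2⟩ := exists_Q 1 (5 * L) one_pos (by positivity) (Nat.coprime_one_left _) s2 hs2c B
  have hQL : Q ≡ s1 [MOD L] := (hQ2.of_mul_left 5).trans hs2a
  refine ⟨Q, hQp, hQB, (hQL.of_dvd h36L).trans hs1b, ?_, ?_⟩
  · have h1 : Q ≡ s1 [MOD m] := hQL.of_dvd hmL
    have h2 : (m : ℤ) ∣ (Q : ℤ) - s1 := Nat.modEq_iff_dvd.mp h1.symm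
    have e : (Q : ℤ) + ε * t = ((Q : ℤ) - s1) + ((s1 : ℤ) - s) + (s + ε * t) := by ring
    rw [e]
    exact dvd_add (dvd_add h2 hs1m) hs
  · rw [← hs2b, jacobiSym.mod_left (Q : ℤ) 5, jacobiSym.mod_left (s2 : ℤ) 5]
    congr 1
    have : Q % 5 = s2 % 5 := hQ2.of_mul_right L
    push_cast
    omega

/-- one step: all ratios `t` with compatible characters -/
theorem one_step (m : ℕ) (hm : 0 < m) (h3 : ¬ 3 ∣ m) (n0 : ℕ) (hg : Good m n0) (t : ℕ) (ht : Nat.Coprime t m)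
    (ε : ℤ) (hε : ε = 1 ∨ ε = -1)
    (h4 : 4 ∣ m → (4 : ℤ) ∣ 1 + ε * t) (h5 : 5 ∣ m → jacobiSym (t : ℤ) 5 = ε) :
    {n : ℕ | Good m n ∧ (m : ℤ) ∣ (b5 n : ℤ) - t * b5 n0}.Infinite := by
  classical
  obtain ⟨Q, hQp, hQB, hQ1, hQt, hQ5⟩ := exists_QE m hm h3 t ht ε hε h4 h5 (m + (6 * n0 + 1) + 5)
  have key' : ∀ p : ℕ, ∃ π : ℕ, 0 < π ∧ (p.Prime → p ∣ m → ∀ j, 2 ≤ j → Even j → ∀ n,
      6 * n + 1 = Q ^ (π * j - 2) * (6 * n0 + 1) →
      ((p ^ (m.factorization p) : ℕ) : ℤ) ∣ (b5 n : ℤ) + jacobiSym (Q : ℤ) 5 * Q * b5 n0) := by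
    intro p
    by_cases h : p.Prime ∧ p ∣ m
    · obtain ⟨π, h1, h2'⟩ := step_any m hm h3 n0 hg Q hQp hQB hQ1 p h.1 h.2
      exact ⟨π, h1, fun _ _ => h2'⟩
    · exact ⟨1, one_pos, fun h1 h2 => absurd ⟨h1, h2⟩ h⟩
  choose π hπ hper using key'
  let PP : ℕ := ∏ p ∈ m.primeFactors, π p
  have hPP : 0 < PP := Finset.prod_pos (fun p _ => hπ p)
  refine infinite_of_seq Q (6 * n0 + 1) hQp.two_le (hQ1.of_dvd (by norm_num)) ?_ (by omega)
    (fun j => PP * (2 * (j + 1)) - 2) ?_ _ ?_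
  · show (6 * n0 + 1) % 6 = 1 % 6
    omega
  · intro a b hab
    show PP * (2 * (a + 1)) - 2 < PP * (2 * (b + 1)) - 2
    have h1 : PP * (2 * (a + 1)) < PP * (2 * (b + 1)) := Nat.mul_lt_mul_of_pos_left (by omega) hPP
    have h2 : 2 ≤ PP * (2 * (a + 1)) := by nlinarith
    omega
  · intro j n hn
    have hE : ∃ e, PP * (2 * (j + 1)) - 2 = 2 * e := ⟨PP * (j + 1) - 1, by
      have : PP * (2 * (j + 1)) = 2 * (PP * (j + 1)) := by ring
      rw [this]
      omega⟩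
    refine ⟨⟨?_, ?_⟩, ?_⟩
    · intro h2
      obtain ⟨r, hr⟩ := hg.1 h2
      have h12 : Q ≡ 1 [MOD 12] := hQ1.of_dvd (by norm_num)
      have h6 : Q ^ (PP * (2 * (j + 1)) - 2) * (6 * n0 + 1) ≡ 1 ^ (PP * (2 * (j + 1)) - 2) * 1 [MOD 12] := by
        apply Nat.ModEq.mul (h12.pow _)
        show (6 * n0 + 1) % 12 = 1 % 12
        omega
      rw [← hn, one_pow, one_mul] at h6
      have h7 : (6 * n + 1) % 12 = 1 % 12 := h6
      exact ⟨n / 2, by omega⟩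
    · intro p hp hpm h5
      have : Fact p.Prime := ⟨hp⟩
      have hple : p ≤ m := Nat.le_of_dvd hm hpm
      have hQz : (Q : ZMod p) ≠ 0 := by
        rw [Ne, ZMod.natCast_eq_zero_iff]
        intro h
        have := (Nat.prime_dvd_prime_iff_eq hp hQp).mp h
        omega
      rw [← hg.2 p hp hpm h5]
      obtain ⟨e, he⟩ := hE
      have h6 : (6 * (n : ℤ) + 1) = (Q : ℤ) ^ (2 * e) * (6 * (n0 : ℤ) + 1) := by
        rw [← he]
        exact_mod_cast hn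
      rw [h6, legendreSym.mul]
      have h7 : (Q : ℤ) ^ (2 * e) = ((Q : ℤ) ^ e) ^ 2 := by rw [← pow_mul]; congr 1; ring
      have h8 : legendreSym p (((Q : ℤ) ^ e) ^ 2) = 1 := by
        apply legendreSym.sq_one'
        push_cast
        exact pow_ne_zero _ hQz
      rw [h7, h8, one_mul]
    · have h6 : (m : ℤ) ∣ (b5 n : ℤ) + jacobiSym (Q : ℤ) 5 * Q * b5 n0 := by
        apply dvd_of_factorization m hm
        intro p hp hpm
        have hmem : p ∈ m.primeFactors := Nat.mem_primeFactors.mpr ⟨hp, hpm, hm.ne'⟩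
        obtain ⟨w, hw⟩ : π p ∣ PP := Finset.dvd_prod_of_mem π hmem
        have hw0 : 0 < w := by
          rcases Nat.eq_zero_or_pos w with h | h
          · rw [h, mul_zero] at hw; omega
          · exact h
        apply hper p hp hpm (w * (2 * (j + 1))) (by nlinarith) ⟨w * (j + 1), by ring⟩ n
        rw [← mul_assoc, ← hw]
        exact hn
      rw [hQ5] at h6
      have h7 : ε * ε = 1 := by rcases hε with h | h <;> rw [h] <;> norm_num
      have e : (b5 n : ℤ) - t * b5 n0 = ((b5 n : ℤ) + ε * Q * b5 n0) - (Q + ε * t) * (ε * b5 n0) := by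
        linear_combination ((t : ℤ) * b5 n0) * h7
      rw [e]
      exact dvd_sub h6 (Dvd.dvd.mul_right hQt _)

/-- the general theorem -/
theorem main_all' (m : ℕ) (hm : 0 < m) (h3 : ¬ 3 ∣ m) (n0 : ℕ) (hg : Good m n0)
    (i : ℤ) (hi : Int.gcd i m = Nat.gcd (b5 n0) m ∨ (m : ℤ) ∣ i) :
    {n : ℕ | (b5 n : ℤ) ≡ i [ZMOD m]}.Infinite := by
  classical
  rcases hi with hi | hi
  · obtain ⟨t, htco, hti⟩ := exists_unit m hm i (b5 n0) hi
    have hfin : ∀ (n1 t1 : ℕ), Good m n1 → Nat.Coprime t1 m → (m : ℤ) ∣ i - t1 * b5 n1 →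
        (∃ ε : ℤ, (ε = 1 ∨ ε = -1) ∧ (4 ∣ m → (4 : ℤ) ∣ 1 + ε * t1) ∧ (5 ∣ m → jacobiSym (t1 : ℤ) 5 = ε)) →
        {n : ℕ | (b5 n : ℤ) ≡ i [ZMOD m]}.Infinite := by
      rintro n1 t1 hg1 ht1 hti1 ⟨ε, hε, h4, h5⟩
      refine (one_step m hm h3 n1 hg1 t1 ht1 ε hε h4 h5).mono ?_
      rintro n ⟨_, hn⟩
      show (b5 n : ℤ) ≡ i [ZMOD m]
      apply Int.ModEq.symm
      rw [Int.modEq_iff_dvd]
      have e : (b5 n : ℤ) - i = ((b5 n : ℤ) - t1 * b5 n1) - (i - t1 * b5 n1) := by ring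
      rw [e]
      exact dvd_sub hn hti1
    by_cases h4 : 4 ∣ m
    · have hodd : ¬ 2 ∣ t := by
        intro h
        have h2m : 2 ∣ m := dvd_trans (by norm_num) h4
        have := Nat.Coprime.eq_one_of_dvd (Nat.Coprime.symm (Nat.Coprime.coprime_dvd_right h2m htco)) h
        omega
      have hpick : ∃ ε : ℤ, (ε = 1 ∨ ε = -1) ∧ (4 : ℤ) ∣ 1 + ε * t := by
        by_cases h : t % 4 = 1
        · exact ⟨-1, Or.inr rfl, by omega⟩
        · exact ⟨1, Or.inl rfl, by omega⟩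
      obtain ⟨ε, hε, hεt⟩ := hpick
      by_cases h5 : 5 ∣ m
      · have hJ : jacobiSym (t : ℤ) 5 = 1 ∨ jacobiSym (t : ℤ) 5 = -1 := by
          apply jacobiSym.eq_one_or_neg_one
          have := Nat.Coprime.coprime_dvd_right h5 htco
          simpa [Int.gcd] using this
        by_cases hJε : jacobiSym (t : ℤ) 5 = ε
        · exact hfin n0 t hg htco hti ⟨ε, hε, fun _ => hεt, fun _ => hJε⟩
        · -- two steps: ratio -1, then -t
          have hJε' : jacobiSym (t : ℤ) 5 = -ε := by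
            rcases hJ with h | h <;> rcases hε with h' | h' <;> rw [h, h'] at hJε ⊢ <;> omega
          have hm20 : 20 ∣ m := by
            have : Nat.Coprime 4 5 := by norm_num
            exact (Nat.Coprime.mul_dvd_of_dvd_of_dvd this h4 h5)
          have hm1 : 1 ≤ m := hm
          have hco1 : Nat.Coprime (m - 1) m := by
            rw [Nat.coprime_self_sub_left hm1]
            exact Nat.coprime_one_left _
          have hj1 : jacobiSym ((m - 1 : ℕ) : ℤ) 5 = 1 := by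
            have h6 : jacobiSym ((m - 1 : ℕ) : ℤ) 5 = jacobiSym (-1) 5 := by
              rw [jacobiSym.mod_left ((m - 1 : ℕ) : ℤ) 5, jacobiSym.mod_left (-1) 5]
              congr 1
              push_cast [hm1]
              omega
            rw [h6]
            norm_num
          have hstep := one_step m hm h3 n0 hg (m - 1) hco1 1 (Or.inl rfl)
            (fun _ => by push_cast [hm1]; omega) (fun _ => hj1)
          obtain ⟨n1, hg1, hn1⟩ := hstep.nonempty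
          -- second ratio
          have hco2 : Nat.Coprime ((m - 1) * t) m := Nat.Coprime.mul_left hco1 htco
          refine hfin n1 ((m - 1) * t) hg1 hco2 ?_ ⟨-ε, ?_, ?_, ?_⟩
          · have h7 : (m : ℤ) ∣ (b5 n1 : ℤ) + b5 n0 := by
              have e : (b5 n1 : ℤ) + b5 n0 = ((b5 n1 : ℤ) - ((m - 1 : ℕ) : ℤ) * b5 n0) + m * b5 n0 := by
                push_cast [hm1]
                ring
              rw [e]
              exact dvd_add hn1 (dvd_mul_right _ _)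
            have e : i - (((m - 1) * t : ℕ) : ℤ) * b5 n1 = (i - t * b5 n0) + t * ((b5 n1 : ℤ) + b5 n0) -
                m * (t * b5 n1) := by
              push_cast [hm1]
              ring
            rw [e]
            exact dvd_sub (dvd_add hti (Dvd.dvd.mul_left h7 _)) (dvd_mul_right _ _)
          · rcases hε with h | h <;> rw [h] <;> norm_num
          · intro _
            have h8 : (4 : ℤ) ∣ (m : ℤ) := by exact_mod_cast (Int.natCast_dvd_natCast.mpr h4)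
            have e : 1 + -ε * (((m - 1) * t : ℕ) : ℤ) = (1 + ε * t) - m * (ε * t) := by
              push_cast [hm1]
              ring
            rw [e]
            exact dvd_sub hεt (Dvd.dvd.mul_right h8 _)
          · intro _
            push_cast
            rw [jacobiSym.mul_left]
            have hj1' : jacobiSym (((m - 1 : ℕ) : ℤ)) 5 = 1 := hj1
            rw [hj1', one_mul, hJε']
      · exact hfin n0 t hg htco hti ⟨ε, hε, fun _ => hεt, fun h => absurd h h5⟩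
    · by_cases h5 : 5 ∣ m
      · have hJ : jacobiSym (t : ℤ) 5 = 1 ∨ jacobiSym (t : ℤ) 5 = -1 := by
          apply jacobiSym.eq_one_or_neg_one
          have := Nat.Coprime.coprime_dvd_right h5 htco
          simpa [Int.gcd] using this
        exact hfin n0 t hg htco hti ⟨jacobiSym (t : ℤ) 5, hJ, fun h => absurd h h4, fun _ => rfl⟩
      · exact hfin n0 t hg htco hti ⟨1, Or.inl rfl, fun h => absurd h h4, fun h => absurd h h5⟩
  · obtain ⟨Q, hQp, hQB, hQ1, _⟩ := exists_Q (36 * m) 1 (by positivity) one_pos (Nat.coprime_one_right _)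
      1 (by norm_num) (m + (6 * n0 + 1) + 5)
    have hQ36 : Q ≡ 1 [MOD 36] := hQ1.of_dvd (dvd_mul_right _ _)
    have hQm : Q ≡ 1 [MOD m] := hQ1.of_dvd (dvd_mul_left _ _)
    have key' : ∀ p : ℕ, ∃ π : ℕ, 0 < π ∧ (p.Prime → p ∣ m → ∀ j, 2 ≤ j → Even j → ∀ n,
        6 * n + 1 = Q ^ (π * j - 1) * (6 * n0 + 1) →
        ((p ^ (m.factorization p) : ℕ) : ℤ) ∣ (b5 n : ℤ)) := by
      intro p
      by_cases h : p.Prime ∧ p ∣ m
      · obtain ⟨π, h1, h2'⟩ := step_zero' m hm h3 n0 hg Q hQp hQB hQ36 hQm p h.1 h.2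
        exact ⟨π, h1, fun _ _ => h2'⟩
      · exact ⟨1, one_pos, fun h1 h2 => absurd ⟨h1, h2⟩ h⟩
    choose π hπ hper using key'
    let PP : ℕ := ∏ p ∈ m.primeFactors, π p
    have hPP : 0 < PP := Finset.prod_pos (fun p _ => hπ p)
    refine infinite_of_seq Q (6 * n0 + 1) hQp.two_le (hQ36.of_dvd (by norm_num)) ?_ (by omega)
      (fun j => PP * (2 * (j + 1)) - 1) ?_ _ ?_
    · show (6 * n0 + 1) % 6 = 1 % 6
      omega
    · intro a b hab
      show PP * (2 * (a + 1)) - 1 < PP * (2 * (b + 1)) - 1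
      have h1 : PP * (2 * (a + 1)) < PP * (2 * (b + 1)) := Nat.mul_lt_mul_of_pos_left (by omega) hPP
      have h2 : 2 ≤ PP * (2 * (a + 1)) := by nlinarith
      omega
    · intro j n hn
      show (b5 n : ℤ) ≡ i [ZMOD m]
      apply Int.ModEq.symm
      rw [Int.modEq_iff_dvd]
      apply dvd_sub _ hi
      apply dvd_of_factorization m hm
      intro p hp hpm
      have hmem : p ∈ m.primeFactors := Nat.mem_primeFactors.mpr ⟨hp, hpm, hm.ne'⟩
      obtain ⟨w, hw⟩ : π p ∣ PP := Finset.dvd_prod_of_mem π hmem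
      have hw0 : 0 < w := by
        rcases Nat.eq_zero_or_pos w with h | h
        · rw [h, mul_zero] at hw; omega
        · exact h
      apply hper p hp hpm (w * (2 * (j + 1))) (by nlinarith) ⟨w * (j + 1), by ring⟩ n
      rw [← mul_assoc, ← hw]
      exact hn

/-- the zero class, unconditionally -/
theorem main_zero' (m : ℕ) (hm : 0 < m) (h3 : ¬ 3 ∣ m) (i : ℤ) (hi : (m : ℤ) ∣ i) :
    {n : ℕ | (b5 n : ℤ) ≡ i [ZMOD m]}.Infinite := by
  obtain ⟨n0, h1, h2⟩ := exists_n0 m hm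
  exact main_all' m hm h3 n0 ⟨fun _ => h1, h2⟩ i (Or.inr hi)

/-- the criterion in terms of squares -/
theorem main_sq' (m : ℕ) (hm : 0 < m) (h3 : ¬ 3 ∣ m) (n0 : ℕ) (h2 : 2 ∣ m → Even n0)
    (hsq : ∀ p : ℕ, p.Prime → p ∣ m → 5 < p → ¬ IsSquare (-5 * (6 * (n0 : ZMod p) + 1)))
    (i : ℤ) (hi : Int.gcd i m = Nat.gcd (b5 n0) m) :
    {n : ℕ | (b5 n : ℤ) ≡ i [ZMOD m]}.Infinite := by
  refine main_all' m hm h3 n0 ⟨h2, ?_⟩ i (Or.inl hi)
  intro p hp hpm h5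
  have : Fact p.Prime := ⟨hp⟩
  have h6 := hsq p hp hpm h5
  have h7 : ((-5 * (6 * (n0 : ℤ) + 1) : ℤ) : ZMod p) = -5 * (6 * (n0 : ZMod p) + 1) := by push_cast; ring
  have h8 : legendreSym p (-5 * (6 * (n0 : ℤ) + 1)) = -1 := by
    rw [legendreSym.eq_neg_one_iff, h7]
    exact h6
  rw [legendreSym.mul] at h8
  rcases leg_five p h5 with h | h <;> rw [h] at h8 ⊢ <;> linarith

/-- powers of 2: odd classes and the zero class -/
theorem main_two_pow (k : ℕ) (i : ℤ) (hi : ¬ (2 : ℤ) ∣ i ∨ ((2 ^ k : ℕ) : ℤ) ∣ i) :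
    {n : ℕ | (b5 n : ℤ) ≡ i [ZMOD ((2 ^ k : ℕ) : ℤ)]}.Infinite := by
  have hpos : 0 < 2 ^ k := by positivity
  have hodd : ∀ q : ℕ, q.Prime → q ∣ 2 ^ k → q = 2 := fun q hq h =>
    (Nat.prime_dvd_prime_iff_eq hq Nat.prime_two).mp (hq.dvd_of_dvd_pow h)
  have h3 : ¬ 3 ∣ 2 ^ k := fun h => by
    have := hodd 3 (by norm_num) h
    omega
  rcases hi with hi | hi
  · refine main_all' (2 ^ k) hpos h3 0 ⟨fun _ => Even.zero, ?_⟩ i (Or.inl ?_)
    · intro q hq hqp h7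
      have := hodd q hq hqp
      omega
    · rw [b5_zero]
      have e2 : Int.gcd i ((2 ^ k : ℕ) : ℤ) = 1 := by
        have h5 : IsCoprime i (2 : ℤ) :=
          ((Prime.coprime_iff_not_dvd Int.prime_two).mpr hi).symm
        have h6 : IsCoprime i (((2 ^ k : ℕ)) : ℤ) := by
          push_cast
          exact h5.pow_right
        exact Int.isCoprime_iff_gcd_eq_one.mp h6
      rw [e2]
      simp
  · exact main_zero' (2 ^ k) hpos h3 i hi

/-- all prime powers prime to 3: unit classes and the zero class -/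
theorem main_pow' (p k : ℕ) (hp : p.Prime) (hp3 : p ≠ 3) (i : ℤ) (hi : ¬ (p : ℤ) ∣ i ∨ ((p ^ k : ℕ) : ℤ) ∣ i) :
    {n : ℕ | (b5 n : ℤ) ≡ i [ZMOD ((p ^ k : ℕ) : ℤ)]}.Infinite := by
  by_cases h5 : 5 ≤ p
  · exact main_pow p k hp h5 i hi
  · have h2 : p = 2 := by
      have h1 := hp.two_le
      have h4 : p ≠ 4 := by
        intro h
        rw [h] at hp
        revert hp
        norm_num
      omega
    subst h2
    exact main_two_pow k i (by exact_mod_cast hi)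

end Pool.Agent.B5Z
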