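import Pool.Agent.B5Z.Defs
import Pool.Agent.B5.IA1

/-!
B5Z / PN: phi(-X) phi(X) phi(X^4) = phi(X^2)^3. Split the product over n odd / even: phi(-X) = prod (1 - (-X)^n) = prod_(n odd) (1 + X^n) prod_(n even) (1 - X^n), so
phi(X) phi(-X) = prod_(n odd) (1 - X^(2n)) * phi(X^2)^2, and prod_(n odd) (1 - X^(2n)) phi(X^4) = phi(X^2). neg1 and expand are ring homomorphisms, continuous for the coefficientwise topology; or work
modulo X^N with finite products.
-/

set_option autoImplicit false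

namespace Pool.Agent.B5Z

open PowerSeries UpperHalfPlane Pool.Agent.B5 Pool.Agent.B5X
open scoped MatrixGroups ModularForm Manifold

private theorem pn_rescale (c : ℤ⟦X⟧) : neg1 c = PowerSeries.rescale (-1) c := by
  ext n
  rw [neg1, PowerSeries.coeff_mk, PowerSeries.coeff_rescale]

theorem neg1_mul (a b : ℤ⟦X⟧) : neg1 (a * b) = neg1 a * neg1 b := by
  rw [pn_rescale, pn_rescale, pn_rescale, map_mul]

theorem neg1_neg1 (a : ℤ⟦X⟧) : neg1 (neg1 a) = a := by
  ext n
  rw [neg1, PowerSeries.coeff_mk, neg1, PowerSeries.coeff_mk, ← mul_assoc, ← mul_pow]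
  norm_num

theorem neg1_e2 (a : ℤ⟦X⟧) : neg1 (e2 a) = e2 a := by
  ext n
  rw [neg1, PowerSeries.coeff_mk, e2, PowerSeries.coeff_expand]
  by_cases h : 2 ∣ n
  · have : Even n := even_iff_two_dvd.2 h
    rw [this.neg_one_pow, one_mul]
  · rw [if_neg h, mul_zero]

theorem neg1_e4 (a : ℤ⟦X⟧) : neg1 (e4 a) = e4 a := by
  ext n
  rw [neg1, PowerSeries.coeff_mk, e4, PowerSeries.coeff_expand]
  by_cases h : 4 ∣ n
  · have : Even n := even_iff_two_dvd.2 (Dvd.dvd.trans (by norm_num) h)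
    rw [this.neg_one_pow, one_mul]
  · rw [if_neg h, mul_zero]

section PNTop

open Filter Topology
open scoped PowerSeries.WithPiTopology

private theorem pn_expand_cont (d : ℕ) (hd : d ≠ 0) :
    Continuous (fun c : ℤ⟦X⟧ => PowerSeries.expand d hd c) := by
  rw [continuous_iff_continuousAt]
  intro c
  rw [ContinuousAt, PowerSeries.WithPiTopology.tendsto_iff_coeff_tendsto]
  intro m
  simp only [PowerSeries.coeff_expand]
  by_cases h : d ∣ m
  · simp only [h, if_true]
    exact (PowerSeries.WithPiTopology.continuous_coeff ℤ (m / d)).continuousAt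
  · simp only [h, if_false]
    exact tendsto_const_nhds

private theorem pn_rescale_cont :
    Continuous (fun c : ℤ⟦X⟧ => PowerSeries.rescale (-1 : ℤ) c) := by
  rw [continuous_iff_continuousAt]
  intro c
  rw [ContinuousAt, PowerSeries.WithPiTopology.tendsto_iff_coeff_tendsto]
  intro m
  simp only [PowerSeries.coeff_rescale]
  exact ((continuous_const.mul continuous_id).comp
    (PowerSeries.WithPiTopology.continuous_coeff ℤ m)).continuousAt

private theorem pn_prod (d : ℕ) (hd : d ≠ 0) :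
    HasProd (fun i : ℕ => (1 - (X : ℤ⟦X⟧) ^ (d * (i + 1)))) (PowerSeries.expand d hd phi) := by
  have h1 := PowerSeries.WithPiTopology.hasProd_one_sub_X_pow ℤ
  have h2 := h1.map (PowerSeries.expand d hd : ℤ⟦X⟧ →ₐ[ℤ] ℤ⟦X⟧) (pn_expand_cont d hd)
  have h3 : ((PowerSeries.expand d hd : ℤ⟦X⟧ →ₐ[ℤ] ℤ⟦X⟧) ∘
      (fun n : ℕ => (1 - X ^ (n + 1) : ℤ⟦X⟧))) = fun i : ℕ => (1 - (X : ℤ⟦X⟧) ^ (d * (i + 1))) := by
    funext i
    simp only [Function.comp_apply, map_sub, map_one, map_pow, PowerSeries.expand_X, ← pow_mul]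
  rw [h3] at h2
  exact h2

private theorem pn_neg :
    HasProd (fun i : ℕ => (1 - (-(X : ℤ⟦X⟧)) ^ (i + 1))) (neg1 phi) := by
  have h1 := PowerSeries.WithPiTopology.hasProd_one_sub_X_pow ℤ
  have h2 := h1.map (PowerSeries.rescale (-1 : ℤ)) pn_rescale_cont
  have h3 : ((PowerSeries.rescale (-1 : ℤ)) ∘
      (fun n : ℕ => (1 - X ^ (n + 1) : ℤ⟦X⟧))) = fun i : ℕ => (1 - (-(X : ℤ⟦X⟧)) ^ (i + 1)) := by
    funext i
    simp only [Function.comp_apply, map_sub, map_one, map_pow]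
    have : PowerSeries.rescale (-1 : ℤ) X = -(X : ℤ⟦X⟧) := by
      rw [PowerSeries.rescale_X]
      simp
    rw [this]
  rw [h3] at h2
  rw [pn_rescale]
  exact h2

/-- the factors with an even index -/
private theorem pn_even (d : ℕ) (hd : d ≠ 0) (e : ℕ) (he : d = 2 * e) :
    HasProd (fun i : ℕ => if 2 ∣ i + 1 then (1 - (X : ℤ⟦X⟧) ^ (e * (i + 1))) else 1)
    (PowerSeries.expand d hd phi) := by
  have hinj : Function.Injective (fun i : ℕ => 2 * (i + 1) - 1) := by
    intro a b h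
    simp only at h
    omega
  rw [← hinj.hasProd_iff]
  · have h1 : ((fun i : ℕ => if 2 ∣ i + 1 then (1 - (X : ℤ⟦X⟧) ^ (e * (i + 1))) else 1) ∘
        (fun i : ℕ => 2 * (i + 1) - 1)) = fun i : ℕ => (1 - (X : ℤ⟦X⟧) ^ (d * (i + 1))) := by
      funext i
      have h2 : 2 * (i + 1) - 1 + 1 = 2 * (i + 1) := by omega
      simp only [Function.comp_apply, h2, dvd_mul_right, if_true]
      congr 2
      rw [he]
      ring
    rw [h1]
    exact pn_prod d hd
  · intro x hx
    rw [if_neg]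
    rintro ⟨k, hk⟩
    apply hx
    refine ⟨k - 1, ?_⟩
    simp only
    omega

theorem phi_neg : neg1 phi * phi * e4 phi = (e2 phi) ^ 3 := by
  have h1 := (pn_neg.mul (PowerSeries.WithPiTopology.hasProd_one_sub_X_pow ℤ)).mul
    (pn_even 4 (by norm_num) 2 (by norm_num))
  have h2 := (pn_prod 2 (by norm_num)).mul ((pn_even 2 (by norm_num) 1 (by norm_num)).mul
    (pn_even 2 (by norm_num) 1 (by norm_num)))
  have h3 : (fun i : ℕ => (1 - (-(X : ℤ⟦X⟧)) ^ (i + 1)) * (1 - X ^ (i + 1)) *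
      (if 2 ∣ i + 1 then (1 - (X : ℤ⟦X⟧) ^ (2 * (i + 1))) else 1)) =
      fun i : ℕ => (1 - (X : ℤ⟦X⟧) ^ (2 * (i + 1))) *
        ((if 2 ∣ i + 1 then (1 - (X : ℤ⟦X⟧) ^ (1 * (i + 1))) else 1) *
        (if 2 ∣ i + 1 then (1 - (X : ℤ⟦X⟧) ^ (1 * (i + 1))) else 1)) := by
    funext i
    by_cases h : 2 ∣ i + 1
    · have he : Even (i + 1) := even_iff_two_dvd.2 h
      rw [if_pos h, if_pos h, he.neg_pow]
      ring
    · have ho : Odd (i + 1) := by
        rw [← Nat.not_even_iff_odd, even_iff_two_dvd]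
        exact h
      rw [if_neg h, if_neg h, ho.neg_pow]
      ring
  rw [h3] at h1
  have h4 := h1.unique h2
  calc neg1 phi * phi * e4 phi = _ := h4
    _ = (e2 phi) ^ 3 := by
      unfold e2
      ring

end PNTop

end Pool.Agent.B5Z
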