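import Pool.Agent.B5Z.GA2
import Pool.Agent.B5Z.PN

/-!
B5Z / GA3: apply neg1 to psi_prod: ps * neg1 phi = (e2 phi)^2 (neg1_mul, neg1_neg1, neg1_e2); multiply by phi * e4 phi and use phi_neg: ps * (e2 phi)^3 = (e2 phi)^2 * phi * e4 phi; cancel (e2 phi)^2 (power
series over the integers have no zero divisors, constant coefficient 1).
-/

set_option autoImplicit false

namespace Pool.Agent.B5Z

open PowerSeries UpperHalfPlane Pool.Agent.B5 Pool.Agent.B5X
open scoped MatrixGroups ModularForm Manifold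

theorem gauss_tri : ps * e2 phi = phi * e4 phi := by
  have h1 : ps * neg1 phi = (e2 phi) ^ 2 := by
    have h := congrArg neg1 psi_prod
    rw [neg1_mul, neg1_neg1, sq, neg1_mul, neg1_e2, ← sq] at h
    exact h
  have h0 : e2 phi ≠ 0 := by
    intro h
    have h2 : PowerSeries.coeff 0 (e2 phi) = 0 := by rw [h, map_zero]
    rw [e2, PowerSeries.coeff_expand] at h2
    simp [phi_coeff_zero] at h2
  refine mul_left_cancel₀ (pow_ne_zero 2 h0) ?_
  calc (e2 phi) ^ 2 * (ps * e2 phi) = ps * (e2 phi) ^ 3 := by ring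
    _ = ps * (neg1 phi * phi * e4 phi) := by rw [phi_neg]
    _ = (ps * neg1 phi) * (phi * e4 phi) := by ring
    _ = (e2 phi) ^ 2 * (phi * e4 phi) := by rw [h1]

end Pool.Agent.B5Z
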