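import Pool.Agent.B5Z.Defs

/-!
B5Z / LTB: on FF n, s - t is odd (8n+1 is odd), so (s-t) % 6 is 1, 3 or 5. The sum over the class 1 equals the one over the class 5 by (s,t) -> (-s,-t) (chi_8 is even). The sum over the class 3 vanishes:
(s,t) -> ((2s-5t)/3, -(s+2t)/3) is an involution of this class preserving s^2+5t^2, it maps s+5t to (2s-5t-5s-10t)/3 = -(s+5t), so chi_8 is unchanged, and with w = (s-t)/3 odd, t -> -w-t changes the parity of t.
(Write s = t + 3w: s^2+5t^2 = 6t^2+6tw+9w^2, s+5t = 3(2t+w).) `Finset.sum_nbij'`, `Finset.sum_involution`.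
-/

set_option autoImplicit false

namespace Pool.Agent.B5Z

open PowerSeries UpperHalfPlane Pool.Agent.B5 Pool.Agent.B5X
open scoped MatrixGroups ModularForm Manifold

private theorem ltb_mem (n : ℕ) (p : ℤ × ℤ) :
    p ∈ FF n ↔ p.1 ^ 2 + 5 * p.2 ^ 2 = 8 * (n : ℤ) + 1 := by
  unfold FF
  simp only [Finset.mem_filter, Finset.mem_product, Finset.mem_Icc]
  constructor
  · rintro ⟨-, h⟩
    exact h
  · intro h
    have h1 : p.1 ≤ p.1 ^ 2 := Int.le_self_sq p.1
    have h2 : -p.1 ≤ p.1 ^ 2 := by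
      have := Int.le_self_sq (-p.1)
      rwa [neg_sq] at this
    have h3 : p.2 ≤ p.2 ^ 2 := Int.le_self_sq p.2
    have h4 : -p.2 ≤ p.2 ^ 2 := by
      have := Int.le_self_sq (-p.2)
      rwa [neg_sq] at this
    have h5 : 0 ≤ p.1 ^ 2 := sq_nonneg _
    have h6 : 0 ≤ p.2 ^ 2 := sq_nonneg _
    refine ⟨⟨⟨by linarith, by linarith⟩, ⟨by linarith, by linarith⟩⟩, h⟩

private theorem ltb_chi : ∀ x : ZMod 8, ZMod.χ₈ (-x) = ZMod.χ₈ x := by decide

private theorem ltb_odd (n : ℕ) (p : ℤ × ℤ) (h : p ∈ FF n) :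
    (p.1 - p.2) % 6 = 1 ∨ (p.1 - p.2) % 6 = 3 ∨ (p.1 - p.2) % 6 = 5 := by
  rw [ltb_mem] at h
  have h1 : (p.1 - p.2) % 2 = 1 := by
    by_contra hcon
    have h2 : (p.1 - p.2) % 2 = 0 := by omega
    obtain ⟨k, hk⟩ : ∃ k, p.1 - p.2 = 2 * k := ⟨(p.1 - p.2) / 2, by omega⟩
    have h3 : p.1 = p.2 + 2 * k := by linarith
    rw [h3] at h
    have h4 : 2 * (3 * p.2 ^ 2 + 2 * p.2 * k + 2 * k ^ 2) = 8 * (n : ℤ) + 1 := by
      rw [← h]
      ring
    omega
  omega

private theorem ltb_one (n : ℕ) : ∑ p ∈ (FF n).filter (fun p => (p.1 - p.2) % 6 = 1), sgn p =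
    ∑ p ∈ (FF n).filter (fun p => (p.1 - p.2) % 6 = 5), sgn p := by
  refine Finset.sum_nbij' (fun p => (-p.1, -p.2)) (fun p => (-p.1, -p.2)) ?_ ?_ ?_ ?_ ?_
  · intro p hp
    rw [Finset.mem_filter, ltb_mem] at hp ⊢
    refine ⟨?_, ?_⟩
    · simp only [neg_sq]
      exact hp.1
    · have := hp.2
      simp only
      omega
  · intro p hp
    rw [Finset.mem_filter, ltb_mem] at hp ⊢
    refine ⟨?_, ?_⟩
    · simp only [neg_sq]
      exact hp.1
    · have := hp.2
      simp only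
      omega
  · intro p _
    simp
  · intro p _
    simp
  · intro p _
    unfold sgn
    simp only [Int.natAbs_neg]
    congr 1
    rw [← ltb_chi]
    congr 1
    push_cast
    ring

private theorem ltb_three (n : ℕ) :
    ∑ p ∈ (FF n).filter (fun p => (p.1 - p.2) % 6 = 3), sgn p = 0 := by
  refine Finset.sum_involution
    (fun p _ => (2 * ((p.1 - p.2) / 3) - p.2, -p.2 - (p.1 - p.2) / 3)) ?_ ?_ ?_ ?_
  · intro p hp
    rw [Finset.mem_filter] at hp
    obtain ⟨w, hw⟩ : ∃ w, p.1 - p.2 = 3 * w := ⟨(p.1 - p.2) / 3, by omega⟩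
    have hw2 : (p.1 - p.2) / 3 = w := by omega
    have hodd : w % 2 = 1 := by omega
    have hp1 : p.1 = p.2 + 3 * w := by linarith
    unfold sgn
    simp only [hw2]
    have e1 : ((2 * w - p.2 + 5 * (-p.2 - w) : ℤ) : ZMod 8) =
        -((p.1 + 5 * p.2 : ℤ) : ZMod 8) := by
      rw [hp1]
      push_cast
      ring
    rw [e1, ltb_chi]
    have e2 : (-1 : ℤ) ^ (-p.2 - w).natAbs = -(-1 : ℤ) ^ p.2.natAbs := by
      rcases Int.even_or_odd p.2 with h | h
      · have h1 : Even p.2.natAbs := Int.natAbs_even.2 h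
        have h2 : Odd (-p.2 - w).natAbs := by
          rw [Int.natAbs_odd]
          have hwo : Odd w := Int.odd_iff.2 hodd
          exact h.neg.sub_odd hwo
        rw [h1.neg_one_pow, h2.neg_one_pow]
      · have h1 : Odd p.2.natAbs := Int.natAbs_odd.2 h
        have h2 : Even (-p.2 - w).natAbs := by
          rw [Int.natAbs_even]
          have hwo : Odd w := Int.odd_iff.2 hodd
          exact h.neg.sub_odd hwo
        rw [h1.neg_one_pow, h2.neg_one_pow]
        norm_num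
    rw [e2]
    ring
  · intro p hp _ heq
    rw [Finset.mem_filter] at hp
    obtain ⟨w, hw⟩ : ∃ w, p.1 - p.2 = 3 * w := ⟨(p.1 - p.2) / 3, by omega⟩
    have hw2 : (p.1 - p.2) / 3 = w := by omega
    have h2 := congrArg Prod.snd heq
    simp only [hw2] at h2
    have h3 : (p.1 - p.2) % 6 = 3 := hp.2
    omega
  · intro p hp
    rw [Finset.mem_filter, ltb_mem] at hp ⊢
    obtain ⟨w, hw⟩ : ∃ w, p.1 - p.2 = 3 * w := ⟨(p.1 - p.2) / 3, by omega⟩
    have hw2 : (p.1 - p.2) / 3 = w := by omega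
    have hp1 : p.1 = p.2 + 3 * w := by linarith
    simp only [hw2]
    constructor
    · rw [← hp.1, hp1]
      ring
    · have := hp.2
      omega
  · intro p hp
    rw [Finset.mem_filter] at hp
    obtain ⟨w, hw⟩ : ∃ w, p.1 - p.2 = 3 * w := ⟨(p.1 - p.2) / 3, by omega⟩
    have hw2 : (p.1 - p.2) / 3 = w := by omega
    simp only [hw2]
    have e1 : (2 * w - p.2 - (-p.2 - w)) / 3 = w := by omega
    rw [e1]
    apply Prod.ext
    · simp only
      linarith
    · simp only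
      linarith

theorem ltb (n : ℕ) : 2 * ∑ p ∈ (FF n).filter (fun p => (p.1 - p.2) % 6 = 5), sgn p = ∑ p ∈ FF n, sgn p := by
  have h1 : ∑ p ∈ FF n, sgn p =
      ∑ p ∈ (FF n).filter (fun p => (p.1 - p.2) % 6 = 5), sgn p +
      (∑ p ∈ (FF n).filter (fun p => (p.1 - p.2) % 6 = 1), sgn p +
      ∑ p ∈ (FF n).filter (fun p => (p.1 - p.2) % 6 = 3), sgn p) := by
    simp only [Finset.sum_filter]
    rw [← Finset.sum_add_distrib, ← Finset.sum_add_distrib]
    refine Finset.sum_congr rfl fun p hp => ?_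
    rcases ltb_odd n p hp with h | h | h <;> rw [h] <;> norm_num
  rw [h1, ltb_one, ltb_three]
  ring


end Pool.Agent.B5Z
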