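import Pool.Agent.B5Z.Defs

/-!
B5Z / LTC: in FF n: if t is odd then s is even, s^2 = 8n+1-5t^2 = 4 mod 8, so s = 2 mod 4, and (s,t) -> (-s,t) is an involution changing the sign of chi_8 (2s = 4 mod 8; chi_8(u+4) = -chi_8(u) for odd u): these terms
cancel. If t is even then s is odd, s^2 = 1 mod 8, so 5t^2 = 0 mod 8, t = 4l, sgn = chi_8(s) (-1)^l. The pairs with s = 1 mod 4 and with s = 3 mod 4 contribute the same ((s,t) -> (-s,t)); s = 4j-1:
chi_8(4j-1) = (-1)^j, (4j-1)^2 + 80 l^2 = 8n+1 iff 2j^2 - j + 10 l^2 = n. The right side: coefficient of the product ps * th(X^10), a sum over antidiagonals of products of sums over j and l.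
-/

set_option autoImplicit false

namespace Pool.Agent.B5Z

open PowerSeries UpperHalfPlane Pool.Agent.B5 Pool.Agent.B5X
open scoped MatrixGroups ModularForm Manifold

private noncomputable def ltcG (n : ℕ) : Finset (ℤ × ℤ) :=
  ((Finset.Icc (-(n : ℤ)) n) ×ˢ (Finset.Icc (-(n : ℤ)) n)).filter
    (fun p => 2 * p.1 ^ 2 - p.1 + 10 * p.2 ^ 2 = (n : ℤ))

private theorem ltc_memG (n : ℕ) (p : ℤ × ℤ) :
    p ∈ ltcG n ↔ 2 * p.1 ^ 2 - p.1 + 10 * p.2 ^ 2 = (n : ℤ) := by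
  unfold ltcG
  rw [Finset.mem_filter, Finset.mem_product, Finset.mem_Icc, Finset.mem_Icc]
  constructor
  · exact fun h => h.2
  · intro h
    refine ⟨⟨⟨?_, ?_⟩, ⟨?_, ?_⟩⟩, h⟩ <;>
      rcases le_or_gt p.1 0 with h1 | h1 <;> rcases le_or_gt p.2 0 with h2 | h2 <;> nlinarith

private theorem ltc_memF (n : ℕ) (p : ℤ × ℤ) :
    p ∈ FF n ↔ p.1 ^ 2 + 5 * p.2 ^ 2 = 8 * (n : ℤ) + 1 := by
  unfold FF
  rw [Finset.mem_filter, Finset.mem_product, Finset.mem_Icc, Finset.mem_Icc]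
  constructor
  · exact fun h => h.2
  · intro h
    refine ⟨⟨⟨?_, ?_⟩, ⟨?_, ?_⟩⟩, h⟩ <;>
      rcases le_or_gt p.1 0 with h1 | h1 <;> rcases le_or_gt p.2 0 with h2 | h2 <;> nlinarith

private theorem ltc_key (s t : ℤ) (n : ℕ) (h : s ^ 2 + 5 * t ^ 2 = 8 * (n : ℤ) + 1) :
    (t % 2 = 1 ∧ s % 4 = 2) ∨ (t % 4 = 0 ∧ s % 2 = 1) := by
  have h1 : (s ^ 2 + 5 * t ^ 2) % 8 = 1 := by omega
  have hs : s % 8 = 0 ∨ s % 8 = 1 ∨ s % 8 = 2 ∨ s % 8 = 3 ∨ s % 8 = 4 ∨ s % 8 = 5 ∨ s % 8 = 6 ∨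
    s % 8 = 7 := by omega
  have ht : t % 8 = 0 ∨ t % 8 = 1 ∨ t % 8 = 2 ∨ t % 8 = 3 ∨ t % 8 = 4 ∨ t % 8 = 5 ∨ t % 8 = 6 ∨
    t % 8 = 7 := by omega
  rw [pow_two, pow_two, Int.add_emod, Int.mul_emod s s, Int.mul_emod 5, Int.mul_emod t t] at h1
  rcases hs with hs | hs | hs | hs | hs | hs | hs | hs <;>
    rcases ht with ht | ht | ht | ht | ht | ht | ht | ht <;>
    rw [hs, ht] at h1 <;> omega

private theorem ltc_neg_one_pow (l : ℤ) :
    (-1 : ℤ) ^ l.natAbs = if l % 2 = 0 then 1 else -1 := by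
  split_ifs with h
  · have : Even l.natAbs := by rw [Int.natAbs_even]; exact Int.even_iff.2 h
    exact this.neg_one_pow
  · have : Odd l.natAbs := by rw [Int.natAbs_odd]; exact Int.odd_iff.2 (by omega)
    exact this.neg_one_pow

private theorem ltc_chi (x y : ℤ) (hx : x % 2 = 1) (hy : y % 8 = (x + 4) % 8) :
    ZMod.χ₈ (x : ZMod 8) + ZMod.χ₈ (y : ZMod 8) = 0 := by
  rw [ZMod.χ₈_int_eq_if_mod_eight, ZMod.χ₈_int_eq_if_mod_eight]
  have h8 : (x % 8 = 1 ∧ y % 8 = 5) ∨ (x % 8 = 3 ∧ y % 8 = 7) ∨ (x % 8 = 5 ∧ y % 8 = 1) ∨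
    (x % 8 = 7 ∧ y % 8 = 3) := by omega
  have hy2 : y % 2 = 1 := by omega
  rw [hx, hy2]
  rcases h8 with ⟨h1, h2⟩ | ⟨h1, h2⟩ | ⟨h1, h2⟩ | ⟨h1, h2⟩ <;> rw [h1, h2] <;> norm_num

private theorem ltc_odd (n : ℕ) : ∑ p ∈ (FF n).filter (fun p => p.2 % 2 = 1), sgn p = 0 := by
  refine Finset.sum_involution (fun p _ => (-p.1, p.2)) ?_ ?_ ?_ ?_
  · rintro ⟨s, t⟩ hp
    rw [Finset.mem_filter, ltc_memF] at hp
    obtain ⟨h1, h2⟩ := hp
    simp only at h1 h2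
    have h3 : s % 4 = 2 := by
      rcases ltc_key s t n h1 with h | h <;> omega
    unfold sgn
    simp only
    rw [← mul_add]
    apply mul_eq_zero_of_right
    exact ltc_chi _ _ (by omega) (by omega)
  · rintro ⟨s, t⟩ hp _ h4
    rw [Finset.mem_filter, ltc_memF] at hp
    obtain ⟨h1, h2⟩ := hp
    simp only at h1 h2
    have h3 : s % 4 = 2 := by
      rcases ltc_key s t n h1 with h | h <;> omega
    have h5 := congrArg Prod.fst h4
    simp only at h5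
    omega
  · rintro ⟨s, t⟩ hp
    rw [Finset.mem_filter, ltc_memF] at hp ⊢
    simpa using hp
  · rintro ⟨s, t⟩ hp
    simp

private theorem ltc_three (n : ℕ) :
    ∑ p ∈ (FF n).filter (fun p => ¬ p.2 % 2 = 1 ∧ p.1 % 4 = 3), sgn p =
      ∑ p ∈ ltcG n, (-1 : ℤ) ^ p.1.natAbs * (-1) ^ p.2.natAbs := by
  refine Finset.sum_bij' (fun p _ => ((p.1 + 1) / 4, p.2 / 4)) (fun p _ => (4 * p.1 - 1, 4 * p.2))
    ?_ ?_ ?_ ?_ ?_
  · rintro ⟨s, t⟩ hp
    rw [Finset.mem_filter, ltc_memF] at hp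
    rw [ltc_memG]
    obtain ⟨h1, h2, h3⟩ := hp
    simp only at h1 h2 h3 ⊢
    have h4 : t % 4 = 0 := by rcases ltc_key s t n h1 with h | h <;> omega
    obtain ⟨l, rfl⟩ : ∃ l, t = 4 * l := ⟨t / 4, by omega⟩
    obtain ⟨j, rfl⟩ : ∃ j, s = 4 * j - 1 := ⟨(s + 1) / 4, by omega⟩
    have e1 : (4 * j - 1 + 1) / 4 = j := by omega
    have e2 : 4 * l / 4 = l := by omega
    rw [e1, e2]
    nlinarith
  · rintro ⟨j, l⟩ hp
    rw [ltc_memG] at hp
    rw [Finset.mem_filter, ltc_memF]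
    simp only at hp ⊢
    exact ⟨by nlinarith, by omega, by omega⟩
  · rintro ⟨s, t⟩ hp
    rw [Finset.mem_filter, ltc_memF] at hp
    obtain ⟨h1, h2, h3⟩ := hp
    simp only at h1 h2 h3 ⊢
    have h4 : t % 4 = 0 := by rcases ltc_key s t n h1 with h | h <;> omega
    ext <;> simp only <;> omega
  · rintro ⟨j, l⟩ hp
    ext <;> simp only <;> omega
  · rintro ⟨s, t⟩ hp
    rw [Finset.mem_filter, ltc_memF] at hp
    obtain ⟨h1, h2, h3⟩ := hp
    simp only at h1 h2 h3 ⊢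
    have h4 : t % 4 = 0 := by rcases ltc_key s t n h1 with h | h <;> omega
    unfold sgn
    rw [ZMod.χ₈_int_eq_if_mod_eight, ltc_neg_one_pow, ltc_neg_one_pow, ltc_neg_one_pow]
    simp only
    split_ifs <;> omega

private theorem ltc_oneS (n : ℕ) :
    ∑ p ∈ (FF n).filter (fun p => ¬ p.2 % 2 = 1 ∧ ¬ p.1 % 4 = 3), sgn p =
      ∑ p ∈ ltcG n, (-1 : ℤ) ^ p.1.natAbs * (-1) ^ p.2.natAbs := by
  refine Finset.sum_bij' (fun p _ => ((1 - p.1) / 4, p.2 / 4)) (fun p _ => (1 - 4 * p.1, 4 * p.2))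
    ?_ ?_ ?_ ?_ ?_
  · rintro ⟨s, t⟩ hp
    rw [Finset.mem_filter, ltc_memF] at hp
    rw [ltc_memG]
    obtain ⟨h1, h2, h3⟩ := hp
    simp only at h1 h2 h3 ⊢
    have h4 : t % 4 = 0 ∧ s % 2 = 1 := by rcases ltc_key s t n h1 with h | h <;> omega
    obtain ⟨l, rfl⟩ : ∃ l, t = 4 * l := ⟨t / 4, by omega⟩
    obtain ⟨j, rfl⟩ : ∃ j, s = 1 - 4 * j := ⟨(1 - s) / 4, by omega⟩
    have e1 : (1 - (1 - 4 * j)) / 4 = j := by omega
    have e2 : 4 * l / 4 = l := by omega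
    rw [e1, e2]
    nlinarith
  · rintro ⟨j, l⟩ hp
    rw [ltc_memG] at hp
    rw [Finset.mem_filter, ltc_memF]
    simp only at hp ⊢
    exact ⟨by nlinarith, by omega, by omega⟩
  · rintro ⟨s, t⟩ hp
    rw [Finset.mem_filter, ltc_memF] at hp
    obtain ⟨h1, h2, h3⟩ := hp
    simp only at h1 h2 h3 ⊢
    have h4 : t % 4 = 0 ∧ s % 2 = 1 := by rcases ltc_key s t n h1 with h | h <;> omega
    ext <;> simp only <;> omega
  · rintro ⟨j, l⟩ hp
    ext <;> simp only <;> omega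
  · rintro ⟨s, t⟩ hp
    rw [Finset.mem_filter, ltc_memF] at hp
    obtain ⟨h1, h2, h3⟩ := hp
    simp only at h1 h2 h3 ⊢
    have h4 : t % 4 = 0 ∧ s % 2 = 1 := by rcases ltc_key s t n h1 with h | h <;> omega
    unfold sgn
    rw [ZMod.χ₈_int_eq_if_mod_eight, ltc_neg_one_pow, ltc_neg_one_pow, ltc_neg_one_pow]
    simp only
    split_ifs <;> omega

private theorem ltc_prod (n : ℕ) : PowerSeries.coeff n (ps * e10 th) =
    ∑ p ∈ ltcG n, (-1 : ℤ) ^ p.1.natAbs * (-1) ^ p.2.natAbs := by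
  classical
  rw [PowerSeries.coeff_mul]
  rw [← Finset.sum_fiberwise_of_maps_to (s := ltcG n) (t := Finset.HasAntidiagonal.antidiagonal n)
    (g := fun p => ((2 * p.1 ^ 2 - p.1).toNat, (10 * p.2 ^ 2).toNat))]
  · refine Finset.sum_congr rfl fun ab hab => ?_
    obtain ⟨a, b⟩ := ab
    rw [Finset.HasAntidiagonal.mem_antidiagonal] at hab
    simp only at hab ⊢
    unfold ps e10
    rw [PowerSeries.coeff_mk, PowerSeries.coeff_expand]
    split_ifs with hb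
    · obtain ⟨m, rfl⟩ := hb
      rw [Nat.mul_div_cancel_left m (by norm_num)]
      unfold th
      rw [PowerSeries.coeff_mk, Finset.sum_mul_sum, ← Finset.sum_product']
      refine Finset.sum_congr ?_ fun _ _ => rfl
      ext ⟨j, l⟩
      have hj : 0 ≤ 2 * j ^ 2 - j := by
        rcases le_or_gt j 0 with h1 | h1 <;> nlinarith
      have hl : 0 ≤ 10 * l ^ 2 := by positivity
      rw [Finset.mem_product, Finset.mem_filter, Finset.mem_filter, Finset.mem_filter, ltc_memG,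
        Finset.mem_Icc, Finset.mem_Icc, Prod.mk.injEq]
      simp only
      constructor
      · rintro ⟨⟨_, h1⟩, ⟨_, h2⟩⟩
        have h3 : (a : ℤ) + 10 * m = n := by exact_mod_cast hab
        refine ⟨by rw [h1, h2]; exact h3, ?_, ?_⟩
        · rw [h1]; simp
        · rw [h2]
          have : (10 * (m : ℤ)) = ((10 * m : ℕ) : ℤ) := by push_cast; ring
          rw [this, Int.toNat_natCast]
      · rintro ⟨h1, h2, h3⟩
        have h4 : 2 * j ^ 2 - j = (a : ℤ) := by omega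
        have h5 : 10 * l ^ 2 = 10 * (m : ℤ) := by omega
        have h6 : l ^ 2 = (m : ℤ) := by linarith
        refine ⟨⟨⟨?_, ?_⟩, h4⟩, ⟨⟨?_, ?_⟩, h6⟩⟩
        · rcases le_or_gt j 0 with h7 | h7 <;> nlinarith
        · rcases le_or_gt j 0 with h7 | h7 <;> nlinarith
        · rcases le_or_gt l 0 with h7 | h7 <;> nlinarith
        · rcases le_or_gt l 0 with h7 | h7 <;> nlinarith
    · rw [mul_zero, Finset.sum_eq_zero]
      rintro ⟨j, l⟩ hp
      exfalso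
      rw [Finset.mem_filter, Prod.mk.injEq] at hp
      have hl : 0 ≤ 10 * l ^ 2 := by positivity
      apply hb
      obtain ⟨_, _, h3⟩ := hp
      simp only at h3
      generalize l ^ 2 = x at *
      omega
  · rintro ⟨j, l⟩ hp
    rw [ltc_memG] at hp
    rw [Finset.HasAntidiagonal.mem_antidiagonal]
    simp only at hp ⊢
    have hj : 0 ≤ 2 * j ^ 2 - j := by
      rcases le_or_gt j 0 with h1 | h1 <;> nlinarith
    have hl : 0 ≤ 10 * l ^ 2 := by positivity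
    omega

theorem ltc (n : ℕ) : ∑ p ∈ FF n, sgn p = 2 * PowerSeries.coeff n (ps * e10 th) := by
  rw [ltc_prod, ← Finset.sum_filter_add_sum_filter_not (FF n) (fun p => p.2 % 2 = 1), ltc_odd,
    zero_add, ← Finset.sum_filter_add_sum_filter_not ((FF n).filter (fun p => ¬ p.2 % 2 = 1))
      (fun p => p.1 % 4 = 3), Finset.filter_filter, Finset.filter_filter, ltc_three, ltc_oneS]
  ring

end Pool.Agent.B5Z
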