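import Pool.Agent.B5Z.LTA
import Pool.Agent.B5Z.LTB
import Pool.Agent.B5Z.LTC

/-!
B5Z / LT: the even part of phi(-X) phi(X^5).
-/

set_option autoImplicit false

namespace Pool.Agent.B5Z

open PowerSeries UpperHalfPlane Pool.Agent.B5 Pool.Agent.B5X
open scoped MatrixGroups ModularForm Manifold

/-- the even coefficients of `phi (-X) * phi (X^5)` -/
theorem even_part (n : ℕ) : PowerSeries.coeff (2 * n) (neg1 phi * ex5 phi) =
    PowerSeries.coeff n (ps * e10 th) := by
  have h1 := lta n
  have h2 := ltb n
  have h3 := ltc n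
  rw [← h1] at h2
  linarith

end Pool.Agent.B5Z
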