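import Pool.Agent.B5Z.GA1
import Pool.Agent.B5Z.GA3
import Pool.Agent.B5Z.PN
import Pool.Agent.B5Z.LT
import Pool.Agent.B5.IA1

/-!
B5Z / DI: the 2-dissection. sB * phi = ex5 phi (id_B1), so sB * e2 phi ^ 3 = sB * phi * neg1 phi * e4 phi = ex5 phi * neg1 phi * e4 phi (phi_neg). Take the coefficients at 2n: for any c, d:
coeff (2n) (c * e2 d) = coeff n ((even part of c) * d). So sE2 * phi^3 = (ps * e10 th) * e2 phi (with X^2 replaced by X; e4 phi = e2 (e2 phi), e2 phi ^ 3 = e2 (phi ^ 3)). By gauss_tri: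
ps * e2 phi = phi * e4 phi, so sE2 phi^2 = e4 phi * e10 th, and by gauss_sq at X^10: e10 th * e20 phi = (e10 phi)^2.
-/

set_option autoImplicit false

namespace Pool.Agent.B5Z

open PowerSeries UpperHalfPlane Pool.Agent.B5 Pool.Agent.B5X
open scoped MatrixGroups ModularForm Manifold

private theorem di_ev (c d : ℤ⟦X⟧) (n : ℕ) : PowerSeries.coeff (2 * n) (c * e2 d) =
    PowerSeries.coeff n (PowerSeries.mk (fun m => PowerSeries.coeff (2 * m) c) * d) := by
  rw [PowerSeries.coeff_mul, PowerSeries.coeff_mul]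
  symm
  apply Finset.sum_of_injOn (fun p : ℕ × ℕ => (2 * p.1, 2 * p.2))
  · intro p _ q _ h
    simp only [Prod.mk.injEq] at h
    exact Prod.ext (by omega) (by omega)
  · intro p hp
    rw [Finset.mem_coe, Finset.HasAntidiagonal.mem_antidiagonal] at hp ⊢
    simp only
    omega
  · intro p hp hpn
    have h1 : ¬ 2 ∣ p.2 := by
      rintro ⟨k, hk⟩
      apply hpn
      rw [Finset.HasAntidiagonal.mem_antidiagonal] at hp
      refine ⟨(n - k, k), ?_, ?_⟩
      · rw [Finset.mem_coe, Finset.HasAntidiagonal.mem_antidiagonal]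
        omega
      · exact Prod.ext (by simp only; omega) (by simp only; omega)
    unfold e2
    rw [PowerSeries.coeff_expand, if_neg h1, mul_zero]
  · intro p _
    unfold e2
    rw [PowerSeries.coeff_expand, if_pos (dvd_mul_right 2 p.2), PowerSeries.coeff_mk]
    have h1 : 2 * p.2 / 2 = p.2 := by omega
    rw [h1]

private theorem di_mul (k : ℕ) (hk : k ≠ 0) (a b : ℤ⟦X⟧) : PowerSeries.expand k hk (a * b) =
    PowerSeries.expand k hk a * PowerSeries.expand k hk b := map_mul _ _ _

private theorem di_expand (j k : ℕ) (hj : j ≠ 0) (hk : k ≠ 0) (hjk : j * k ≠ 0) (a : ℤ⟦X⟧) :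
    PowerSeries.expand j hj (PowerSeries.expand k hk a) = PowerSeries.expand (j * k) hjk a := by
  ext n
  simp only [PowerSeries.coeff_expand]
  by_cases h1 : j ∣ n
  · obtain ⟨m, rfl⟩ := h1
    have h2 : j * m / j = m := Nat.mul_div_cancel_left m (Nat.pos_of_ne_zero hj)
    rw [if_pos (dvd_mul_right j m), h2]
    by_cases h3 : k ∣ m
    · rw [if_pos h3, if_pos (mul_dvd_mul_left j h3)]
      congr 1
      rw [Nat.mul_div_mul_left _ _ (Nat.pos_of_ne_zero hj)]
    · rw [if_neg h3, if_neg]
      intro h4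
      exact h3 (Nat.dvd_of_mul_dvd_mul_left (Nat.pos_of_ne_zero hj) h4)
  · rw [if_neg h1, if_neg]
    intro h2
    exact h1 (dvd_trans (dvd_mul_right j k) h2)

theorem dissect : sE2 * phi ^ 2 * e20 phi = e4 phi * (e10 phi) ^ 2 := by
  have hphi : phi ≠ 0 := by
    intro h
    have h1 := phi_coeff_zero
    rw [h] at h1
    simp at h1
  -- the identity before taking even parts
  have h1 : sB * e2 (phi ^ 3) = (neg1 phi * ex5 phi) * e2 (e2 phi) := by
    have e1 : e2 (phi ^ 3) = (e2 phi) ^ 3 := by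
      unfold e2
      rw [map_pow]
    have e2' : e2 (e2 phi) = e4 phi := by
      unfold e2 e4
      exact di_expand 2 2 _ _ (by norm_num) phi
    rw [e1, e2', ← phi_neg, ← id_B1]
    ring
  -- even parts
  have h2 : sE2 * phi ^ 3 = (ps * e10 th) * e2 phi := by
    ext n
    have h3 := congrArg (PowerSeries.coeff (2 * n)) h1
    rw [di_ev, di_ev] at h3
    have h4 : (PowerSeries.mk fun m => PowerSeries.coeff (2 * m) sB) = sE2 := by
      ext m
      simp [sE2, sB]
    have h5 : (PowerSeries.mk fun m => PowerSeries.coeff (2 * m) (neg1 phi * ex5 phi)) =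
        ps * e10 th := by
      ext m
      rw [PowerSeries.coeff_mk, even_part]
    rw [h4, h5] at h3
    exact h3
  have h6 : sE2 * phi ^ 2 = e4 phi * e10 th := by
    refine mul_left_cancel₀ hphi ?_
    have h7 := gauss_tri
    calc phi * (sE2 * phi ^ 2) = sE2 * phi ^ 3 := by ring
      _ = (ps * e2 phi) * e10 th := by rw [h2]; ring
      _ = phi * (e4 phi * e10 th) := by rw [h7]; ring
  have h8 : e10 th * e20 phi = (e10 phi) ^ 2 := by
    have e3 : e20 phi = e10 (e2 phi) := by
      unfold e10 e20 e2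
      exact (di_expand 10 2 _ _ (by norm_num) phi).symm
    rw [e3]
    unfold e10
    rw [← map_mul, gauss_sq, map_pow]
  calc sE2 * phi ^ 2 * e20 phi = e4 phi * (e10 th * e20 phi) := by rw [h6]; ring
    _ = e4 phi * (e10 phi) ^ 2 := by rw [h8]

end Pool.Agent.B5Z
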