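import Pool.Agent.B5X.Defs

/-!
Project B5Z (MP_d6455f_nt): powers of 2. Definitions.
-/

set_option autoImplicit false

namespace Pool.Agent.B5Z

open PowerSeries UpperHalfPlane Pool.Agent.B5 Pool.Agent.B5X
open scoped MatrixGroups ModularForm Manifold

noncomputable section

/-- `c (X ^ d)` for `d = 2, 4, 10, 20` -/
def e2 (c : ℤ⟦X⟧) : ℤ⟦X⟧ := PowerSeries.expand 2 (by norm_num) c
def e4 (c : ℤ⟦X⟧) : ℤ⟦X⟧ := PowerSeries.expand 4 (by norm_num) c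
def e10 (c : ℤ⟦X⟧) : ℤ⟦X⟧ := PowerSeries.expand 10 (by norm_num) c
def e20 (c : ℤ⟦X⟧) : ℤ⟦X⟧ := PowerSeries.expand 20 (by norm_num) c

/-- `c (-X)` -/
def neg1 (c : ℤ⟦X⟧) : ℤ⟦X⟧ := PowerSeries.mk (fun n => (-1) ^ n * PowerSeries.coeff n c)

/-- the theta series: sum over all integers `m` of `(-1)^m X^(m^2)` -/
def th : ℤ⟦X⟧ := PowerSeries.mk (fun n =>
  ∑ m ∈ (Finset.Icc (-(n : ℤ)) n).filter (fun m => m ^ 2 = (n : ℤ)), (-1 : ℤ) ^ m.natAbs)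

/-- the theta series: sum over all integers `j` of `(-1)^j X^(2 j^2 - j)` -/
def ps : ℤ⟦X⟧ := PowerSeries.mk (fun n =>
  ∑ j ∈ (Finset.Icc (-(n : ℤ)) n).filter (fun j => 2 * j ^ 2 - j = (n : ℤ)), (-1 : ℤ) ^ j.natAbs)

/-- the pairs of integers with `s^2 + 5 t^2 = 8 n + 1` -/
def FF (n : ℕ) : Finset (ℤ × ℤ) :=
  ((Finset.Icc (-(8 * (n : ℤ) + 1)) (8 * n + 1)) ×ˢ (Finset.Icc (-(8 * (n : ℤ) + 1)) (8 * n + 1))).filter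
    (fun p => p.1 ^ 2 + 5 * p.2 ^ 2 = 8 * (n : ℤ) + 1)

/-- the sign of a pair -/
def sgn (p : ℤ × ℤ) : ℤ := (-1) ^ p.2.natAbs * ZMod.χ₈ ((p.1 + 5 * p.2 : ℤ) : ZMod 8)

/-- `phi^2 / phi (X^2)` -/
def sT : ℤ⟦X⟧ := phi ^ 2 * PowerSeries.invOfUnit (e2 phi) 1

/-- the number of 5-regular partitions of even numbers -/
def sE2 : ℤ⟦X⟧ := PowerSeries.mk (fun n => (b5 (2 * n) : ℤ))

/-- the 2-adic form, as a power series -/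
def sS (k : ℕ) : ℤ⟦X⟧ := e2 phi * sT ^ (2 ^ k - 1) * (e2 sT) ^ (2 ^ k - 1) * e10 sT

/-- `η(z)^2 / η(2 z)` -/
def fT (z : ℍ) : ℂ := ModularForm.eta z ^ 2 / ModularForm.eta (sc 2 z)

/-- `η(z)^2` -/
def h2 (z : ℍ) : ℂ := ModularForm.eta z ^ 2

/-- the 2-adic form -/
def gk (k : ℕ) (z : ℍ) : ℂ :=
  ModularForm.eta (sc 24 z) * fT (sc 12 z) ^ (2 ^ k - 1) * fT (sc 24 z) ^ (2 ^ k - 1) * fT (sc 120 z)

/-- holomorphic modular form of weight `k` for `Γ₁(36) ∩ Γ₀(L)` with character `(./5)^ε` -/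
structure ML (L ε : ℕ) (k : ℤ) (g : ℍ → ℂ) : Prop where
  holo : MDiff g
  inv : ∀ γ : SL(2, ℤ), γ ∈ CongruenceSubgroup.Gamma1 36 → γ ∈ CongruenceSubgroup.Gamma0 L →
    g ∣[k] γ = fun z => ((jacobiSym (γ 1 1) 5 ^ ε : ℤ) : ℂ) * g z
  bdd : ∀ γ : SL(2, ℤ), IsBoundedAtImInfty (g ∣[k] γ)

/-- the lattice of integral forms -/
def LM (L ε k : ℕ) : Set ℤ⟦X⟧ := {c | ∃ g : ℍ → ℂ, ML L ε k g ∧ HasQ g (toC c)}

end

end Pool.Agent.B5Z
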