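import Pool.Agent.B5Z.Defs
import Pool.Agent.B5.IA1

/-!
B5Z / GA1: Gauss: sum over integers m of (-1)^m X^(m^2) times prod (1 - X^(2n)) = prod (1 - X^n)^2 (phi = prod (1 - X^n): `hasProd_one_sub_X_pow`).
Proof (Shanks 1958), `finite_sq`, for a commutative ring element x, by induction on n: put A(s,n) = prod_(r in Ioc s n) (1 - x^r), B(k) = prod_(r in Ioc 0 k) (1 + x^r). T(n,s) = (-1)^s A(s,n) B(s-1) 2 x^(s(n+1)) for
s >= 1, T(n,0) = A(0,n). Dividing by B(n), T(n,s)/B(n) - T(n-1,s)/B(n-1) = G(s+1) - G(s), G(s) = (-1)^s A(s-1,n-1) B(s-1) 2 x^(s n) /B(n), G(0) = 0, so after multiplying by B(n):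
T(n,s) - (1+x^n) T(n-1,s) = H(s+1) - H(s) for 0 <= s <= n-1, H(s) = 2 (-1)^s A(s-1,n-1) B(s-1) x^(s n) for s >= 1, H(0) = 0. Sum over s < n: L(n) - T(n,n) - (1+x^n) L(n-1) = H(n) = 2 (-1)^n B(n-1) x^(n^2), and
T(n,n) = 2 (-1)^n B(n-1) x^(n(n+1)), so L(n) = (1+x^n) L(n-1) + 2 (-1)^n x^(n^2) B(n), as wanted.
`gauss_sq`: compare coefficients of X^N: for n > N, A(0,n) B(n) = prod_(r<=n) (1 - X^(2r)), so multiplying `finite_sq` by A(0,n): (prod_(r<=n) (1-X^(2r))) (1 + 2 sum_(s<=n)) = A(0,n)^2 + O(X^(n+1)); and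
prod_(r<=n)(1 - X^r) = phi mod X^(n+1), prod_(r<=n) (1-X^(2r)) = e2 phi mod X^(2n+2), 1 + 2 sum_(s<=n) (-1)^s X^(s^2) = th mod X^((n+1)^2).
-/

set_option autoImplicit false

namespace Pool.Agent.B5Z

open PowerSeries UpperHalfPlane Pool.Agent.B5 Pool.Agent.B5X
open scoped MatrixGroups ModularForm Manifold

section GA1Top

private def gA {R : Type*} [CommRing R] (x : R) (s n : ℕ) : R := ∏ r ∈ Finset.Ioc s n, (1 - x ^ r)
private def gB {R : Type*} [CommRing R] (x : R) (k : ℕ) : R := ∏ r ∈ Finset.Ioc 0 k, (1 + x ^ r)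

private theorem gA_succ {R : Type*} [CommRing R] (x : R) {s n : ℕ} (h : s ≤ n) :
    gA x s (n + 1) = gA x s n * (1 - x ^ (n + 1)) := by
  unfold gA
  rw [← Finset.prod_Ioc_consecutive _ h (Nat.le_succ n)]
  simp

private theorem gA_left {R : Type*} [CommRing R] (x : R) {s n : ℕ} (h : s + 1 ≤ n) :
    gA x s n = (1 - x ^ (s + 1)) * gA x (s + 1) n := by
  unfold gA
  rw [← Finset.prod_Ioc_consecutive _ (Nat.le_succ s) h]
  simp

private theorem gB_succ {R : Type*} [CommRing R] (x : R) (k : ℕ) :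
    gB x (k + 1) = gB x k * (1 + x ^ (k + 1)) := by
  unfold gB
  rw [← Finset.prod_Ioc_consecutive _ (Nat.zero_le k) (Nat.le_succ k)]
  simp

private def gL {R : Type*} [CommRing R] (x : R) (n k : ℕ) : R :=
  gA x 0 n + 2 * ∑ s ∈ Finset.Ioc 0 k, (-1) ^ s * gA x s n * gB x (s - 1) * x ^ (s * (n + 1))

private theorem gL_succ {R : Type*} [CommRing R] (x : R) (n k : ℕ) :
    gL x n (k + 1) = gL x n k +
      2 * ((-1) ^ (k + 1) * gA x (k + 1) n * gB x k * x ^ ((k + 1) * (n + 1))) := by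
  unfold gL
  rw [Finset.sum_Ioc_succ_top (Nat.zero_le k)]
  simp only [Nat.add_sub_cancel]
  ring

private theorem gL_step {R : Type*} [CommRing R] (x : R) (n k : ℕ) (h : k ≤ n) :
    gL x (n + 1) k = (1 + x ^ (n + 1)) * gL x n k +
      2 * (-1) ^ (k + 1) * gA x k n * gB x k * x ^ ((k + 1) * (n + 1)) := by
  induction k with
  | zero =>
    have h1 : gL x (n + 1) 0 = gA x 0 (n + 1) := by simp [gL]
    have h2 : gL x n 0 = gA x 0 n := by simp [gL]
    have h3 : gB x 0 = 1 := by simp [gB]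
    rw [h1, h2, h3, gA_succ x (Nat.zero_le n)]
    ring
  | succ k ih =>
    rw [gL_succ, gL_succ, ih (by omega), gA_succ x h, gA_left x (s := k) h, gB_succ]
    ring

private theorem gL_top {R : Type*} [CommRing R] (x : R) (n : ℕ) :
    gL x (n + 1) (n + 1) = (1 + x ^ (n + 1)) * gL x n n +
      2 * (-1) ^ (n + 1) * gB x (n + 1) * x ^ ((n + 1) ^ 2) := by
  have h1 : gA x n n = 1 := by simp [gA]
  have h2 : gA x (n + 1) (n + 1) = 1 := by simp [gA]
  rw [gL_succ, gL_step x n n le_rfl, gB_succ, h1, h2]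
  ring

end GA1Top

theorem finite_sq {R : Type*} [CommRing R] (x : R) (n : ℕ) :
    (∏ r ∈ Finset.Ioc 0 n, (1 + x ^ r)) * (1 + 2 * ∑ s ∈ Finset.Ioc 0 n, (-1) ^ s * x ^ (s ^ 2)) =
      (∏ r ∈ Finset.Ioc 0 n, (1 - x ^ r)) +
        2 * ∑ s ∈ Finset.Ioc 0 n, (-1) ^ s * (∏ r ∈ Finset.Ioc s n, (1 - x ^ r)) *
          (∏ r ∈ Finset.Ioc 0 (s - 1), (1 + x ^ r)) * x ^ (s * (n + 1)) := by
  change gB x n * (1 + 2 * ∑ s ∈ Finset.Ioc 0 n, (-1) ^ s * x ^ (s ^ 2)) = gL x n n
  induction n with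
  | zero => simp [gB, gL, gA]
  | succ n ih =>
    rw [gL_top, ← ih, Finset.sum_Ioc_succ_top (Nat.zero_le n), gB_succ]
    ring

section GA1Lim

open Filter Topology
open scoped PowerSeries.WithPiTopology

private theorem ga1_expand_cont :
    Continuous (fun c : ℤ⟦X⟧ => PowerSeries.expand 2 (by norm_num) c) := by
  rw [continuous_iff_continuousAt]
  intro c
  rw [ContinuousAt, PowerSeries.WithPiTopology.tendsto_iff_coeff_tendsto]
  intro d
  simp only [PowerSeries.coeff_expand]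
  by_cases h : 2 ∣ d
  · simp only [h, if_true]
    exact (PowerSeries.WithPiTopology.continuous_coeff ℤ (d / 2)).continuousAt
  · simp only [h, if_false]
    exact tendsto_const_nhds

private theorem ga1_phi : Tendsto (fun n => gA (X : ℤ⟦X⟧) 0 n) atTop (𝓝 phi) := by
  have h1 : HasProd (fun n : ℕ => (1 - X ^ (n + 1) : ℤ⟦X⟧)) phi :=
    PowerSeries.WithPiTopology.hasProd_one_sub_X_pow ℤ
  have h2 := h1.tendsto_prod_nat
  refine h2.congr fun n => ?_
  unfold gA
  induction n with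
  | zero => simp
  | succ n ih => rw [Finset.prod_range_succ, ih, Finset.prod_Ioc_succ_top (Nat.zero_le n)]

private theorem ga1_e2 : Tendsto (fun n => gA (X : ℤ⟦X⟧) 0 n * gB (X : ℤ⟦X⟧) n) atTop
    (𝓝 (e2 phi)) := by
  have h1 := (ga1_expand_cont.tendsto phi).comp ga1_phi
  refine h1.congr fun n => ?_
  simp only [Function.comp_apply, gA, gB]
  rw [← Finset.prod_mul_distrib]
  simp only [map_prod, map_sub, map_one, map_pow, PowerSeries.expand_X]
  refine Finset.prod_congr rfl fun r _ => ?_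
  ring

private theorem ga1_sum (n M : ℕ) (h : n ≤ M) :
    PowerSeries.coeff n (1 + 2 * ∑ s ∈ Finset.Ioc 0 M, (-1) ^ s * (X : ℤ⟦X⟧) ^ (s ^ 2)) =
      PowerSeries.coeff n th := by
  have h2 : (2 : ℤ⟦X⟧) = PowerSeries.C (2 : ℤ) := by simp
  have hm : ∀ s : ℕ, ((-1 : ℤ⟦X⟧) ^ s * (X : ℤ⟦X⟧) ^ (s ^ 2)) =
      PowerSeries.C ((-1 : ℤ) ^ s) * (X : ℤ⟦X⟧) ^ (s ^ 2) := by
    intro s
    simp
  have hL : PowerSeries.coeff n (1 + 2 * ∑ s ∈ Finset.Ioc 0 M, (-1) ^ s * (X : ℤ⟦X⟧) ^ (s ^ 2)) =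
      (if n = 0 then 1 else 0) + 2 * ∑ s ∈ Finset.Ioc 0 M, (if n = s ^ 2 then (-1 : ℤ) ^ s else 0) := by
    rw [map_add, PowerSeries.coeff_one, h2, PowerSeries.coeff_C_mul, map_sum]
    congr 2
    refine Finset.sum_congr rfl fun s _ => ?_
    rw [hm, PowerSeries.coeff_C_mul, PowerSeries.coeff_X_pow]
    simp
  rw [hL]
  simp only [th, PowerSeries.coeff_mk]
  rcases Nat.eq_zero_or_pos n with h0 | h0
  · subst h0
    have h3 : ∑ s ∈ Finset.Ioc 0 M, (if 0 = s ^ 2 then (-1 : ℤ) ^ s else 0) = 0 := by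
      refine Finset.sum_eq_zero fun s hs => ?_
      rw [Finset.mem_Ioc] at hs
      rw [if_neg]
      have : 0 < s ^ 2 := pow_pos hs.1 2
      omega
    rw [h3]
    simp [Finset.filter_singleton]
  · by_cases hk : ∃ k : ℕ, k ^ 2 = n
    · obtain ⟨k, hk⟩ := hk
      have hkp : 0 < k := by
        rcases Nat.eq_zero_or_pos k with h | h
        · subst h
          simp at hk
          omega
        · exact h
      have hkn : k ≤ n := by nlinarith
      have h3 : ∑ s ∈ Finset.Ioc 0 M, (if n = s ^ 2 then (-1 : ℤ) ^ s else 0) = (-1) ^ k := by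
        rw [Finset.sum_eq_single k]
        · rw [if_pos hk.symm]
        · intro s _ hsk
          rw [if_neg]
          intro h4
          apply hsk
          have h5 : s ^ 2 = k ^ 2 := by omega
          exact Nat.pow_left_injective (n := 2) (by norm_num) h5
        · intro h4
          exfalso
          apply h4
          rw [Finset.mem_Ioc]
          omega
      have h4 : (Finset.Icc (-(n : ℤ)) n).filter (fun m => m ^ 2 = (n : ℤ)) =
          {(k : ℤ), -(k : ℤ)} := by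
        ext m
        simp only [Finset.mem_filter, Finset.mem_Icc, Finset.mem_insert, Finset.mem_singleton]
        constructor
        · rintro ⟨_, h5⟩
          have h6 : m ^ 2 = (k : ℤ) ^ 2 := by
            rw [h5, ← hk]
            push_cast
            rfl
          exact sq_eq_sq_iff_eq_or_eq_neg.mp h6
        · rintro (h5 | h5)
          · subst h5
            refine ⟨⟨by omega, by omega⟩, ?_⟩
            rw [← hk]
            push_cast
            rfl
          · subst h5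
            refine ⟨⟨by omega, by omega⟩, ?_⟩
            rw [← hk]
            push_cast
            ring
      rw [h3, h4, Finset.sum_pair (by omega), if_neg (by omega)]
      simp
      ring
    · have h3 : ∑ s ∈ Finset.Ioc 0 M, (if n = s ^ 2 then (-1 : ℤ) ^ s else 0) = 0 := by
        refine Finset.sum_eq_zero fun s hs => ?_
        rw [if_neg]
        intro h4
        exact hk ⟨s, h4.symm⟩
      have h4 : (Finset.Icc (-(n : ℤ)) n).filter (fun m => m ^ 2 = (n : ℤ)) = ∅ := by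
        rw [Finset.filter_eq_empty_iff]
        intro m _ h5
        apply hk
        refine ⟨m.natAbs, ?_⟩
        zify
        rw [sq_abs]
        exact h5
      rw [h3, h4, if_neg (by omega)]
      simp

private theorem ga1_th : Tendsto (fun n =>
    (1 + 2 * ∑ s ∈ Finset.Ioc 0 n, (-1) ^ s * (X : ℤ⟦X⟧) ^ (s ^ 2))) atTop (𝓝 th) := by
  rw [PowerSeries.WithPiTopology.tendsto_iff_coeff_tendsto]
  intro d
  refine tendsto_const_nhds.congr' ?_
  filter_upwards [eventually_ge_atTop d] with M hM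
  exact (ga1_sum d M hM).symm

private theorem ga1_zero : Tendsto (fun n =>
    (2 * ∑ s ∈ Finset.Ioc 0 n, (-1) ^ s * gA (X : ℤ⟦X⟧) s n * gB (X : ℤ⟦X⟧) (s - 1) *
      X ^ (s * (n + 1)))) atTop (𝓝 0) := by
  rw [PowerSeries.WithPiTopology.tendsto_iff_coeff_tendsto]
  intro d
  refine tendsto_const_nhds.congr' ?_
  filter_upwards [eventually_ge_atTop d] with M hM
  have h1 : (X : ℤ⟦X⟧) ^ (M + 1) ∣ (2 * ∑ s ∈ Finset.Ioc 0 M, (-1) ^ s * gA (X : ℤ⟦X⟧) s M *
      gB (X : ℤ⟦X⟧) (s - 1) * X ^ (s * (M + 1))) := by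
    refine Dvd.dvd.mul_left (Finset.dvd_sum fun s hs => ?_) _
    refine Dvd.dvd.mul_left (pow_dvd_pow _ ?_) _
    rw [Finset.mem_Ioc] at hs
    nlinarith [hs.1]
  rw [PowerSeries.X_pow_dvd_iff.mp h1 d (by omega)]
  simp

private theorem gauss_sq' : th * e2 phi = phi ^ 2 := by
  have h1 := ga1_e2.mul ga1_th
  have h2 := ga1_phi.mul (ga1_phi.add ga1_zero)
  have h3 := tendsto_nhds_unique (h1.congr fun n => ?_) h2
  · rw [add_zero] at h3
    rw [mul_comm, h3, sq]
  · rw [mul_assoc]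
    congr 1
    exact finite_sq (X : ℤ⟦X⟧) n

end GA1Lim

theorem gauss_sq : th * e2 phi = phi ^ 2 := gauss_sq'

end Pool.Agent.B5Z
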