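import Pool.Agent.B5Z.Defs
import Pool.Agent.B5.IA1

/-!
B5Z / GA2: Gauss: sum over triangular numbers X^(n(n+1)/2) times phi = phi(X^2)^2. Note that `neg1 ps` is the sum of all X^(2j^2-j), j an integer, the triangular numbers, each once
((-1)^(2j^2-j) = (-1)^j). Proof (Shanks 1958), `finite_tri`, by induction on n, x in a commutative ring: E(s,n) = prod_(r in Ioc s n) (1 - x^(2r)), O(k) = prod_(r in Ioc 0 k) (1 - x^(2r-1)), T(n,s) = E(s,n) O(s)
x^(s(2n+1)). Then T(n,s) - (1 - x^(2n-1)) T(n-1,s) = H(s+1) - H(s) for s <= n-2, with H(s) = E(s,n-1) O(s) (1 - x^(2s)) x^(s(2n-1)), H(0) = 0. Sum over s <= n-2: with L(n) = sum_(s<n) T(n,s):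
L(n) - T(n,n-1) - (1 - x^(2n-1)) L(n-1) = H(n-1) = O(n-1)(1 - x^(2n-2)) x^((n-1)(2n-1)), T(n,n-1) = (1-x^(2n)) O(n-1) x^((n-1)(2n+1)), the sum of both is O(n-1) x^((n-1)(2n-1)) (1 - x^(4n-2)) =
O(n) (x^((2n-1)(2n-2)/2) + x^(2n(2n-1)/2)), as wanted.
`psi_prod`: compare coefficients at N with n > N large: prod_(r<=n)(1 - X^(2r)) O(n) = prod_(r<=2n) (1 - X^r); multiply `finite_tri` by E(0,n): the right side is E(0,n)^2 + O(X^(2n+1)).
-/

set_option autoImplicit false

namespace Pool.Agent.B5Z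

open PowerSeries UpperHalfPlane Pool.Agent.B5 Pool.Agent.B5X
open scoped MatrixGroups ModularForm Manifold

section GA2a

variable {R : Type*} [CommRing R] (x : R)

private def ga2E (s n : ℕ) : R := ∏ r ∈ Finset.Ioc s n, (1 - x ^ (2 * r))

private def ga2O (k : ℕ) : R := ∏ r ∈ Finset.Ioc 0 k, (1 - x ^ (2 * r - 1))

private theorem ga2E_self (n : ℕ) : ga2E x n n = 1 := by simp [ga2E]

private theorem ga2E_top {s n : ℕ} (h : s ≤ n) :
    ga2E x s (n + 1) = ga2E x s n * (1 - x ^ (2 * (n + 1))) :=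
  Finset.prod_Ioc_succ_top h _

private theorem ga2E_bot {s n : ℕ} (h : s < n) :
    ga2E x s n = (1 - x ^ (2 * (s + 1))) * ga2E x (s + 1) n := by
  unfold ga2E
  have h1 : Finset.Ioc s n = insert (s + 1) (Finset.Ioc (s + 1) n) := by
    ext a
    simp only [Finset.mem_Ioc, Finset.mem_insert]
    omega
  rw [h1, Finset.prod_insert (by simp)]

private theorem ga2O_succ (k : ℕ) : ga2O x (k + 1) = ga2O x k * (1 - x ^ (2 * k + 1)) := by
  unfold ga2O
  rw [Finset.prod_Ioc_succ_top (Nat.zero_le _)]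
  congr 3

private theorem ga2_step (m s : ℕ) (h : s < m) :
    ga2E x s (m + 1) * ga2O x s * x ^ (s * (2 * (m + 1) + 1)) -
      (1 - x ^ (2 * m + 1)) * (ga2E x s m * ga2O x s * x ^ (s * (2 * m + 1))) =
    ga2E x (s + 1) m * ga2O x (s + 1) * (1 - x ^ (2 * (s + 1))) * x ^ ((s + 1) * (2 * m + 1)) -
      ga2E x s m * ga2O x s * (1 - x ^ (2 * s)) * x ^ (s * (2 * m + 1)) := by
  rw [ga2E_top x h.le, ga2O_succ, ga2E_bot x h]
  have e1 : x ^ (s * (2 * (m + 1) + 1)) = x ^ (s * (2 * m + 1)) * x ^ (2 * s) := by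
    rw [← pow_add]
    congr 1
    ring
  have e2 : x ^ ((s + 1) * (2 * m + 1)) = x ^ (s * (2 * m + 1)) * x ^ (2 * m + 1) := by
    rw [← pow_add]
    congr 1
    ring
  have e3 : x ^ (2 * (m + 1)) = x ^ (2 * m + 1) * x := by
    rw [← pow_succ]
    congr 1
  have e4 : x ^ (2 * s + 1) = x ^ (2 * s) * x := pow_succ _ _
  have e5 : x ^ (2 * (s + 1)) = x ^ (2 * s) * x * x := by
    rw [← pow_succ, ← pow_succ]
    congr 1
  rw [e1, e2, e3, e4, e5]
  generalize x ^ (s * (2 * m + 1)) = a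
  generalize x ^ (2 * s) = b
  generalize x ^ (2 * m + 1) = c
  ring

private theorem ga2_main (n : ℕ) :
    ga2O x n * (∑ s ∈ Finset.range (2 * n), x ^ (s * (s + 1) / 2)) =
      ∑ s ∈ Finset.range n, ga2E x s n * ga2O x s * x ^ (s * (2 * n + 1)) := by
  induction n with
  | zero => simp
  | succ m ih =>
    have hsum : ∑ s ∈ Finset.range m, (ga2E x s (m + 1) * ga2O x s * x ^ (s * (2 * (m + 1) + 1)) -
        (1 - x ^ (2 * m + 1)) * (ga2E x s m * ga2O x s * x ^ (s * (2 * m + 1)))) =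
        ga2E x m m * ga2O x m * (1 - x ^ (2 * m)) * x ^ (m * (2 * m + 1)) := by
      rw [Finset.sum_congr rfl (fun s hs => ga2_step x m s (Finset.mem_range.mp hs)),
        Finset.sum_range_sub (fun s => ga2E x s m * ga2O x s * (1 - x ^ (2 * s)) *
          x ^ (s * (2 * m + 1)))]
      simp
    rw [Finset.sum_sub_distrib, ← Finset.mul_sum, ← ih, ga2E_self] at hsum
    rw [Finset.sum_range_succ, ga2E_top x le_rfl, ga2E_self,
      show 2 * (m + 1) = 2 * m + 1 + 1 from rfl, Finset.sum_range_succ, Finset.sum_range_succ,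
      ga2O_succ]
    have t1 : 2 * m * (2 * m + 1) / 2 = m * (2 * m + 1) := by
      rw [mul_assoc, Nat.mul_div_cancel_left _ (by norm_num)]
    have t2 : (2 * m + 1) * (2 * m + 1 + 1) / 2 = m * (2 * m + 1) + (2 * m + 1) := by
      rw [show (2 * m + 1) * (2 * m + 1 + 1) = 2 * (m * (2 * m + 1) + (2 * m + 1)) by ring,
        Nat.mul_div_cancel_left _ (by norm_num)]
    rw [t1, t2]
    rw [show 2 * (m + 1) + 1 = 2 * m + 1 + 1 + 1 from rfl] at hsum
    have e1 : x ^ (m * (2 * m + 1 + 1 + 1)) = x ^ (m * (2 * m + 1)) * x ^ (2 * m) := by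
      rw [← pow_add]
      congr 1
      ring
    have e2 : x ^ (m * (2 * m + 1) + (2 * m + 1)) = x ^ (m * (2 * m + 1)) * x ^ (2 * m + 1) :=
      pow_add _ _ _
    have e3 : x ^ (2 * m + 1 + 1) = x ^ (2 * m) * x * x := by rw [pow_succ, pow_succ]
    have e4 : x ^ (2 * m + 1) = x ^ (2 * m) * x := pow_succ _ _
    rw [e1, e2, e3, e4]
    rw [e4] at hsum
    linear_combination (-1 : R) * hsum

end GA2a

theorem finite_tri {R : Type*} [CommRing R] (x : R) (n : ℕ) :
    (∏ r ∈ Finset.Ioc 0 n, (1 - x ^ (2 * r - 1))) * (∑ s ∈ Finset.range (2 * n), x ^ (s * (s + 1) / 2)) =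
      ∑ s ∈ Finset.range n, (∏ r ∈ Finset.Ioc s n, (1 - x ^ (2 * r))) *
          (∏ r ∈ Finset.Ioc 0 s, (1 - x ^ (2 * r - 1))) * x ^ (s * (2 * n + 1)) := ga2_main x n

section GA2b

open Filter Topology
open scoped PowerSeries.WithPiTopology

private theorem ga2_expand_cont :
    Continuous (fun c : ℤ⟦X⟧ => PowerSeries.expand 2 (by norm_num) c) := by
  rw [continuous_iff_continuousAt]
  intro c
  rw [ContinuousAt, PowerSeries.WithPiTopology.tendsto_iff_coeff_tendsto]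
  intro d
  simp only [PowerSeries.coeff_expand]
  by_cases h : 2 ∣ d
  · simp only [h, if_true]
    exact (PowerSeries.WithPiTopology.continuous_coeff ℤ (d / 2)).continuousAt
  · simp only [h, if_false]
    exact tendsto_const_nhds

private theorem ga2_ioc {M : Type*} [CommMonoid M] (f : ℕ → M) (n : ℕ) :
    ∏ r ∈ Finset.Ioc 0 n, f r = ∏ i ∈ Finset.range n, f (i + 1) := by
  induction n with
  | zero => simp
  | succ n ih => rw [Finset.prod_Ioc_succ_top (Nat.zero_le _), Finset.prod_range_succ, ih]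

private theorem ga2_phi : Tendsto (fun n : ℕ => ∏ r ∈ Finset.Ioc 0 n, (1 - (X : ℤ⟦X⟧) ^ r)) atTop
    (𝓝 phi) := by
  have h := (PowerSeries.WithPiTopology.hasProd_one_sub_X_pow ℤ).tendsto_prod_nat
  refine h.congr fun n => ?_
  rw [ga2_ioc]

private theorem ga2_phi2 : Tendsto (fun n : ℕ => ga2E (X : ℤ⟦X⟧) 0 n) atTop (𝓝 (e2 phi)) := by
  have h := (ga2_expand_cont.tendsto phi).comp ga2_phi
  refine h.congr fun n => ?_
  simp only [Function.comp_apply, map_prod, map_sub, map_one, map_pow, PowerSeries.expand_X, ga2E,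
    ← pow_mul]

private theorem ga2_prod (x : ℤ⟦X⟧) (n : ℕ) :
    ga2E x 0 n * ga2O x n = ∏ r ∈ Finset.Ioc 0 (2 * n), (1 - x ^ r) := by
  induction n with
  | zero => simp [ga2E, ga2O]
  | succ n ih =>
    rw [ga2E_top x (Nat.zero_le _), ga2O_succ, show 2 * (n + 1) = 2 * n + 1 + 1 from rfl,
      Finset.prod_Ioc_succ_top (Nat.zero_le _), Finset.prod_Ioc_succ_top (Nat.zero_le _), ← ih]
    ring

private theorem ga2_coeff (N : ℕ) : PowerSeries.coeff N (neg1 ps) =
    (((Finset.Icc (-(N : ℤ)) N).filter (fun j => 2 * j ^ 2 - j = (N : ℤ))).card : ℤ) := by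
  unfold neg1 ps
  rw [PowerSeries.coeff_mk, PowerSeries.coeff_mk, Finset.mul_sum, Finset.card_eq_sum_ones,
    Nat.cast_sum]
  refine Finset.sum_congr rfl fun j hj => ?_
  rw [Finset.mem_filter] at hj
  rw [← pow_add, Nat.cast_one]
  refine Even.neg_one_pow ?_
  have h1 : ((N + j.natAbs : ℕ) : ℤ) % 2 = 0 := by
    push_cast
    have h2 : (2 * j ^ 2 - j) % 2 = (N : ℤ) % 2 := by rw [hj.2]
    have h3 : |j| % 2 = j % 2 := by
      rcases abs_choice j with h | h <;> rw [h]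
      omega
    have h4 : ((N : ℤ) + |j|) % 2 = ((N : ℤ) % 2 + |j| % 2) % 2 := Int.add_emod _ _ _
    rw [h4, h3, ← h2]
    generalize j ^ 2 = w
    omega
  rw [← Int.even_coe_nat]
  exact Int.even_iff.mpr h1

private def ga2f (s : ℕ) : ℤ := if s % 2 = 0 then -((s / 2 : ℕ) : ℤ) else (((s + 1) / 2 : ℕ) : ℤ)

private def ga2g (j : ℤ) : ℕ := if 0 < j then (2 * j - 1).toNat else (-2 * j).toNat

private theorem ga2f_even (k : ℕ) : ga2f (2 * k) = -(k : ℤ) := by
  unfold ga2f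
  rw [if_pos (by omega), show 2 * k / 2 = k by omega]

private theorem ga2f_odd (k : ℕ) : ga2f (2 * k + 1) = (k : ℤ) + 1 := by
  unfold ga2f
  rw [if_neg (by omega), show (2 * k + 1 + 1) / 2 = k + 1 by omega]
  push_cast
  rfl

private theorem ga2g_pos (k : ℕ) : ga2g ((k : ℤ) + 1) = 2 * k + 1 := by
  unfold ga2g
  rw [if_pos (by omega)]
  omega

private theorem ga2g_neg (k : ℕ) : ga2g (-(k : ℤ)) = 2 * k := by
  unfold ga2g
  rw [if_neg (by omega)]
  omega

private theorem ga2_card (N n : ℕ) (h : N < 2 * n) :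
    ((Finset.range (2 * n)).filter (fun s => N = s * (s + 1) / 2)).card =
    ((Finset.Icc (-(N : ℤ)) N).filter (fun j => 2 * j ^ 2 - j = (N : ℤ))).card := by
  have hev : ∀ s : ℕ, 2 * (s * (s + 1) / 2) = s * (s + 1) := fun s =>
    Nat.mul_div_cancel' (Nat.even_mul_succ_self s).two_dvd
  refine Finset.card_nbij' ga2f ga2g ?_ ?_ ?_ ?_
  · intro s hs
    rw [Finset.mem_coe, Finset.mem_filter, Finset.mem_range] at hs
    rw [Finset.mem_coe, Finset.mem_filter, Finset.mem_Icc]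
    obtain ⟨h1, h2⟩ := hs
    have h3 := hev s
    rw [← h2] at h3
    rcases Nat.even_or_odd' s with ⟨k, hk | hk⟩
    · subst hk
      have h4 : k ≤ N := by nlinarith
      rw [ga2f_even]
      refine ⟨⟨by omega, by omega⟩, ?_⟩
      have h5 : (2 * N : ℤ) = 2 * k * (2 * k + 1) := by exact_mod_cast h3
      have h6 : 2 * (2 * (-(k : ℤ)) ^ 2 - (-(k : ℤ))) = 2 * (N : ℤ) := by
        rw [h5]
        ring
      omega
    · subst hk
      have h4 : k + 1 ≤ N := by nlinarith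
      rw [ga2f_odd]
      refine ⟨⟨by omega, by omega⟩, ?_⟩
      have h5 : (2 * N : ℤ) = (2 * k + 1) * (2 * k + 1 + 1) := by exact_mod_cast h3
      have h6 : 2 * (2 * ((k : ℤ) + 1) ^ 2 - ((k : ℤ) + 1)) = 2 * (N : ℤ) := by
        rw [h5]
        ring
      omega
  · intro j hj
    rw [Finset.mem_coe, Finset.mem_filter, Finset.mem_Icc] at hj
    rw [Finset.mem_coe, Finset.mem_filter, Finset.mem_range]
    obtain ⟨⟨h1, h2⟩, h3⟩ := hj
    by_cases hj0 : 0 < j
    · obtain ⟨k, rfl⟩ : ∃ k : ℕ, j = k + 1 := ⟨(j - 1).toNat, by omega⟩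
      rw [ga2g_pos]
      have h5 : (2 * k + 1) * (2 * k + 1 + 1) = 2 * N := by
        have : ((2 * k + 1) * (2 * k + 1 + 1) : ℤ) = 2 * N := by
          rw [← h3]
          ring
        exact_mod_cast this
      refine ⟨by nlinarith, ?_⟩
      rw [h5]
      omega
    · obtain ⟨k, rfl⟩ : ∃ k : ℕ, j = -(k : ℤ) := ⟨(-j).toNat, by omega⟩
      rw [ga2g_neg]
      have h5 : (2 * k) * (2 * k + 1) = 2 * N := by
        have : ((2 * k) * (2 * k + 1) : ℤ) = 2 * N := by
          rw [← h3]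
          ring
        exact_mod_cast this
      refine ⟨?_, ?_⟩
      · rcases Nat.eq_zero_or_pos k with hk | hk
        · subst hk
          omega
        · nlinarith
      · rw [h5]
        omega
  · intro s _
    rcases Nat.even_or_odd' s with ⟨k, hk | hk⟩
    · rw [hk, ga2f_even, ga2g_neg]
    · rw [hk, ga2f_odd, ga2g_pos]
  · intro j _
    by_cases hj0 : 0 < j
    · obtain ⟨k, rfl⟩ : ∃ k : ℕ, j = k + 1 := ⟨(j - 1).toNat, by omega⟩
      rw [ga2g_pos, ga2f_odd]
    · obtain ⟨k, rfl⟩ : ∃ k : ℕ, j = -(k : ℤ) := ⟨(-j).toNat, by omega⟩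
      rw [ga2g_neg, ga2f_even]

private theorem ga2_psi : Tendsto (fun n : ℕ => ∑ s ∈ Finset.range (2 * n),
    (X : ℤ⟦X⟧) ^ (s * (s + 1) / 2)) atTop (𝓝 (neg1 ps)) := by
  rw [PowerSeries.WithPiTopology.tendsto_iff_coeff_tendsto]
  intro N
  refine tendsto_const_nhds.congr' ?_
  filter_upwards [eventually_gt_atTop N] with n hn
  rw [ga2_coeff, map_sum, ← ga2_card N n (by omega), Finset.card_filter, Nat.cast_sum]
  refine Finset.sum_congr rfl fun s _ => ?_
  rw [PowerSeries.coeff_X_pow]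
  split_ifs <;> simp

private theorem ga2_rem : Tendsto (fun n : ℕ => ∑ s ∈ Finset.range (n - 1),
    ga2E (X : ℤ⟦X⟧) (s + 1) n * ga2O X (s + 1) * X ^ ((s + 1) * (2 * n + 1))) atTop (𝓝 0) := by
  rw [PowerSeries.WithPiTopology.tendsto_iff_coeff_tendsto]
  intro N
  refine tendsto_const_nhds.congr' ?_
  filter_upwards [eventually_gt_atTop N] with n hn
  rw [map_zero]
  symm
  have h : (X : ℤ⟦X⟧) ^ (2 * n + 1) ∣ ∑ s ∈ Finset.range (n - 1),
      ga2E (X : ℤ⟦X⟧) (s + 1) n * ga2O X (s + 1) * X ^ ((s + 1) * (2 * n + 1)) := by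
    refine Finset.dvd_sum fun s _ => ?_
    refine (pow_dvd_pow X ?_).trans (dvd_mul_left _ _)
    nlinarith
  exact PowerSeries.X_pow_dvd_iff.mp h N (by omega)

theorem psi_prod : neg1 ps * phi = (e2 phi) ^ 2 := by
  have hdbl : Tendsto (fun n : ℕ => 2 * n) atTop atTop :=
    tendsto_id.const_mul_atTop' (by norm_num : 0 < 2)
  have hL := (ga2_phi.comp hdbl).mul ga2_psi
  have hR := (ga2_phi2.mul ga2_phi2).add (ga2_phi2.mul ga2_rem)
  rw [mul_zero, add_zero] at hR
  have key := tendsto_nhds_unique_of_eventuallyEq hL hR (by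
    filter_upwards [eventually_ge_atTop 1] with n hn
    simp only [Function.comp_apply]
    rw [← ga2_prod, mul_assoc, ga2_main]
    obtain ⟨m, rfl⟩ : ∃ m, n = m + 1 := ⟨n - 1, by omega⟩
    rw [Finset.sum_range_succ', Nat.add_sub_cancel]
    have h0 : ga2O (X : ℤ⟦X⟧) 0 = 1 := by simp [ga2O]
    rw [h0, zero_mul, pow_zero, mul_one, mul_one]
    ring)
  rw [mul_comm, key, sq]

end GA2b

end Pool.Agent.B5Z
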