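import Pool.Agent.B5Z.Defs

/-!
B5Z / LTA: phi = sum over integers a of (-1)^a X^(a(3a-1)/2) (`pentagonalSeries`, Mathlib: Combinatorics/Enumerative/Pentagonal). So the coefficient of X^(2n) in phi(-X) phi(X^5) is the sum of
(-1)^(a + b + a(3a-1)/2) over the pairs of integers (a, b) with a(3a-1)/2 + 5 b(3b-1)/2 = 2n. Put u = 6a-1, v = 6b-1 (u^2 + 5 v^2 = 48 n + 6), s = a + 5b - 1 = (u+5v)/6, t = a - b = (u-v)/6:
u = s + 5t, v = s - t, s^2 + 5 t^2 = 8n + 1, and (a,b) <-> (s,t) is a bijection with the pairs such that s - t = 5 mod 6. Sign: (-1)^(a+b) = (-1)^t, and a(3a-1)/2 = (u^2-1)/24 is even iff u^2 = 1 mod 16 iff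
u = 1, 7 mod 8 iff chi_8(u) = 1 (else u = 3, 5 mod 8, chi_8(u) = -1).
-/

set_option autoImplicit false

namespace Pool.Agent.B5Z

open PowerSeries UpperHalfPlane Pool.Agent.B5 Pool.Agent.B5X
open scoped MatrixGroups ModularForm Manifold

private theorem lta_mem (n : ℕ) (p : ℤ × ℤ) :
    p ∈ FF n ↔ p.1 ^ 2 + 5 * p.2 ^ 2 = 8 * (n : ℤ) + 1 := by
  unfold FF
  simp only [Finset.mem_filter, Finset.mem_product, Finset.mem_Icc]
  constructor
  · rintro ⟨-, h⟩
    exact h
  · intro h
    have h1 : p.1 ≤ p.1 ^ 2 := Int.le_self_sq p.1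
    have h2 : -p.1 ≤ p.1 ^ 2 := by
      have := Int.le_self_sq (-p.1)
      rwa [neg_sq] at this
    have h3 : p.2 ≤ p.2 ^ 2 := Int.le_self_sq p.2
    have h4 : -p.2 ≤ p.2 ^ 2 := by
      have := Int.le_self_sq (-p.2)
      rwa [neg_sq] at this
    have h5 : 0 ≤ p.1 ^ 2 := sq_nonneg _
    have h6 : 0 ≤ p.2 ^ 2 := sq_nonneg _
    refine ⟨⟨⟨by linarith, by linarith⟩, ⟨by linarith, by linarith⟩⟩, h⟩

private theorem lta_bound (a : ℤ) : a ≤ pentagonal a ∧ -a ≤ pentagonal a := by
  have h := two_mul_natCast_pentagonal a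
  have h1 : a ≤ a ^ 2 := Int.le_self_sq a
  have h2 : -a ≤ a ^ 2 := by
    have := Int.le_self_sq (-a)
    rwa [neg_sq] at this
  have h3 : 2 * (pentagonal a : ℤ) = 3 * a ^ 2 - a := by
    rw [h]
    ring
  constructor <;> linarith

private theorem lta_coeff (M i : ℕ) (hi : i ≤ M) : PowerSeries.coeff i phi =
    ∑ a ∈ Finset.Icc (-(M : ℤ)) M, if pentagonal a = i then (Int.negOnePow a : ℤ) else 0 := by
  unfold phi
  by_cases h : i ∈ Set.range pentagonal
  · obtain ⟨a, rfl⟩ := h
    rw [PowerSeries.coeff_pentagonalSeries_pentagonal, Finset.sum_eq_single a]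
    · rw [if_pos rfl]
      exact Int.cast_id
    · intro b _ hb
      rw [if_neg]
      intro h
      exact hb (pentagonal_injective h)
    · intro h
      exfalso
      apply h
      have := lta_bound a
      rw [Finset.mem_Icc]
      constructor
      · have : (pentagonal a : ℤ) ≤ M := by exact_mod_cast hi
        linarith
      · have : (pentagonal a : ℤ) ≤ M := by exact_mod_cast hi
        linarith
  · rw [PowerSeries.coeff_pentagonalSeries_eq_zero ℤ h, Finset.sum_eq_zero]
    intro a _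
    rw [if_neg]
    intro h'
    exact h ⟨a, h'⟩

private theorem lta_sign (a : ℤ) : (-1 : ℤ) ^ pentagonal a =
    ZMod.χ₈ ((6 * a - 1 : ℤ) : ZMod 8) := by
  obtain ⟨q, r, hr, ha⟩ : ∃ q r : ℤ, (r = 0 ∨ r = 1 ∨ r = 2 ∨ r = 3) ∧ a = 4 * q + r :=
    ⟨a / 4, a % 4, by omega, by omega⟩
  have hcast : ((6 * a - 1 : ℤ) : ZMod 8) = ((6 * r - 1 : ℤ) : ZMod 8) := by
    rw [ha]
    push_cast
    have h24 : (24 : ZMod 8) = 0 := by decide
    linear_combination (q : ZMod 8) * h24
  rw [hcast]
  have h2 := two_mul_natCast_pentagonal a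
  rcases hr with hr | hr | hr | hr
  · have h3 : (pentagonal a : ℤ) = 2 * (q * (12 * q - 1)) := by
      have h5 : 2 * (pentagonal a : ℤ) = 2 * (2 * (q * (12 * q - 1))) := by
        rw [h2, ha, hr]
        ring
      linarith
    have h4 : Even (pentagonal a) := by
      have : Even (pentagonal a : ℤ) := by
        rw [h3]
        exact even_two_mul _
      exact_mod_cast this
    rw [h4.neg_one_pow, hr]
    decide
  · have h3 : (pentagonal a : ℤ) = 2 * (12 * q ^ 2 + 5 * q) + 1 := by
      have h5 : 2 * (pentagonal a : ℤ) = 2 * (2 * (12 * q ^ 2 + 5 * q) + 1) := by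
        rw [h2, ha, hr]
        ring
      linarith
    have h4 : Odd (pentagonal a) := by
      have : Odd (pentagonal a : ℤ) := by
        rw [h3]
        exact odd_two_mul_add_one _
      exact_mod_cast this
    rw [h4.neg_one_pow, hr]
    decide
  · have h3 : (pentagonal a : ℤ) = 2 * (12 * q ^ 2 + 11 * q + 2) + 1 := by
      have h5 : 2 * (pentagonal a : ℤ) = 2 * (2 * (12 * q ^ 2 + 11 * q + 2) + 1) := by
        rw [h2, ha, hr]
        ring
      linarith
    have h4 : Odd (pentagonal a) := by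
      have : Odd (pentagonal a : ℤ) := by
        rw [h3]
        exact odd_two_mul_add_one _
      exact_mod_cast this
    rw [h4.neg_one_pow, hr]
    decide
  · have h3 : (pentagonal a : ℤ) = 2 * ((4 * q + 3) * (3 * q + 2)) := by
      have h5 : 2 * (pentagonal a : ℤ) = 2 * (2 * ((4 * q + 3) * (3 * q + 2))) := by
        rw [h2, ha, hr]
        ring
      linarith
    have h4 : Even (pentagonal a) := by
      have : Even (pentagonal a : ℤ) := by
        rw [h3]
        exact even_two_mul _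
      exact_mod_cast this
    rw [h4.neg_one_pow, hr]
    decide

theorem lta (n : ℕ) : PowerSeries.coeff (2 * n) (neg1 phi * ex5 phi) =
    ∑ p ∈ (FF n).filter (fun p => (p.1 - p.2) % 6 = 5), sgn p := by
  classical
  obtain ⟨I, hI⟩ : ∃ I : Finset ℤ, I = Finset.Icc (-((2 * n : ℕ) : ℤ)) ((2 * n : ℕ) : ℤ) :=
    ⟨_, rfl⟩
  have h1 : PowerSeries.coeff (2 * n) (neg1 phi * ex5 phi) =
      ∑ p ∈ (I ×ˢ I).filter (fun p => pentagonal p.1 + 5 * pentagonal p.2 = 2 * n),
        (-1 : ℤ) ^ pentagonal p.1 * (Int.negOnePow p.1 : ℤ) * (Int.negOnePow p.2 : ℤ) := by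
    rw [PowerSeries.coeff_mul]
    have e1 : ∀ q ∈ Finset.HasAntidiagonal.antidiagonal (2 * n),
        PowerSeries.coeff q.1 (neg1 phi) * PowerSeries.coeff q.2 (ex5 phi) =
        ∑ p ∈ I ×ˢ I, if (pentagonal p.1 = q.1 ∧ 5 * pentagonal p.2 = q.2) then
          (-1 : ℤ) ^ pentagonal p.1 * (Int.negOnePow p.1 : ℤ) * (Int.negOnePow p.2 : ℤ)
          else 0 := by
      intro q hq
      have hq2 := Finset.HasAntidiagonal.mem_antidiagonal.1 hq
      have f1 : PowerSeries.coeff q.1 (neg1 phi) = ∑ a ∈ I, if pentagonal a = q.1 then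
          (-1 : ℤ) ^ pentagonal a * (Int.negOnePow a : ℤ) else 0 := by
        rw [neg1, PowerSeries.coeff_mk, lta_coeff (2 * n) q.1 (by omega), Finset.mul_sum, ← hI]
        refine Finset.sum_congr rfl fun a _ => ?_
        by_cases h : pentagonal a = q.1
        · rw [if_pos h, if_pos h, h]
        · rw [if_neg h, if_neg h, mul_zero]
      have f2 : PowerSeries.coeff q.2 (ex5 phi) = ∑ b ∈ I, if 5 * pentagonal b = q.2 then
          (Int.negOnePow b : ℤ) else 0 := by
        rw [ex5, PowerSeries.coeff_expand]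
        by_cases h5 : 5 ∣ q.2
        · rw [if_pos h5, lta_coeff (2 * n) (q.2 / 5) (by omega), ← hI]
          refine Finset.sum_congr rfl fun b _ => ?_
          by_cases h : pentagonal b = q.2 / 5
          · rw [if_pos h, if_pos (by omega)]
          · rw [if_neg h, if_neg (by omega)]
        · rw [if_neg h5, Finset.sum_eq_zero]
          intro b _
          rw [if_neg]
          intro h
          exact h5 ⟨_, h.symm⟩
      rw [f1, f2, Finset.sum_mul_sum, ← Finset.sum_product']
      refine Finset.sum_congr rfl fun p _ => ?_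
      by_cases ha : pentagonal p.1 = q.1
      · by_cases hb : 5 * pentagonal p.2 = q.2
        · rw [if_pos ha, if_pos hb, if_pos ⟨ha, hb⟩]
        · have hab : ¬ (pentagonal p.1 = q.1 ∧ 5 * pentagonal p.2 = q.2) := fun h => hb h.2
          rw [if_neg hb, if_neg hab, mul_zero]
      · have hab : ¬ (pentagonal p.1 = q.1 ∧ 5 * pentagonal p.2 = q.2) := fun h => ha h.1
        rw [if_neg ha, if_neg hab, zero_mul]
    rw [Finset.sum_congr rfl e1, Finset.sum_comm, Finset.sum_filter]
    refine Finset.sum_congr rfl fun p _ => ?_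
    by_cases h : pentagonal p.1 + 5 * pentagonal p.2 = 2 * n
    · rw [if_pos h, Finset.sum_eq_single (pentagonal p.1, 5 * pentagonal p.2)]
      · simp
      · intro q _ hq
        rw [if_neg]
        rintro ⟨h1, h2⟩
        exact hq (Prod.ext h1.symm h2.symm)
      · intro h'
        exact absurd (Finset.HasAntidiagonal.mem_antidiagonal.2 h) h'
    · rw [if_neg h, Finset.sum_eq_zero]
      intro q hq
      have hq2 := Finset.HasAntidiagonal.mem_antidiagonal.1 hq
      rw [if_neg]
      rintro ⟨h1, h2⟩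
      omega
  rw [h1]
  refine Finset.sum_nbij' (fun p => (p.1 + 5 * p.2 - 1, p.1 - p.2))
    (fun q => ((q.1 + 5 * q.2 + 1) / 6, (q.1 - q.2 + 1) / 6)) ?_ ?_ ?_ ?_ ?_
  · intro p hp
    rw [Finset.mem_filter] at hp
    rw [Finset.mem_filter, lta_mem]
    have e1 := two_mul_natCast_pentagonal p.1
    have e2 := two_mul_natCast_pentagonal p.2
    have e3 : (pentagonal p.1 : ℤ) + 5 * pentagonal p.2 = 2 * n := by exact_mod_cast hp.2
    constructor
    · simp only
      linear_combination 4 * e3 - 2 * e1 - 10 * e2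
    · simp only
      omega
  · intro q hq
    rw [Finset.mem_filter, lta_mem] at hq
    obtain ⟨b, hb⟩ : ∃ b, q.1 - q.2 = 6 * b - 1 := ⟨(q.1 - q.2 + 1) / 6, by omega⟩
    obtain ⟨a, ha⟩ : ∃ a, q.1 + 5 * q.2 = 6 * a - 1 := ⟨(q.1 + 5 * q.2 + 1) / 6, by omega⟩
    have ha' : (q.1 + 5 * q.2 + 1) / 6 = a := by omega
    have hb' : (q.1 - q.2 + 1) / 6 = b := by omega
    have hq1 : q.1 = a + 5 * b - 1 := by omega
    have hq2 : q.2 = a - b := by omega
    simp only [ha', hb']
    rw [Finset.mem_filter]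
    have e1 := two_mul_natCast_pentagonal a
    have e2 := two_mul_natCast_pentagonal b
    have e3 : (pentagonal a : ℤ) + 5 * pentagonal b = 2 * n := by
      have h := hq.1
      rw [hq1, hq2] at h
      have h4 : 4 * ((pentagonal a : ℤ) + 5 * pentagonal b) = 4 * (2 * n) := by
        linear_combination h + 2 * e1 + 10 * e2
      linarith
    have e4 : pentagonal a + 5 * pentagonal b = 2 * n := by exact_mod_cast e3
    refine ⟨?_, e4⟩
    rw [Finset.mem_product, hI, Finset.mem_Icc, Finset.mem_Icc]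
    have b1 := lta_bound a
    have b2 := lta_bound b
    have b3 : (pentagonal a : ℤ) ≤ ((2 * n : ℕ) : ℤ) := by
      have : pentagonal a ≤ 2 * n := by omega
      exact_mod_cast this
    have b4 : (pentagonal b : ℤ) ≤ ((2 * n : ℕ) : ℤ) := by
      have : pentagonal b ≤ 2 * n := by omega
      exact_mod_cast this
    refine ⟨⟨by linarith, by linarith⟩, ⟨by linarith, by linarith⟩⟩
  · intro p _
    apply Prod.ext
    · simp only
      omega
    · simp only
      omega
  · intro q hq
    rw [Finset.mem_filter, lta_mem] at hq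
    obtain ⟨b, hb⟩ : ∃ b, q.1 - q.2 = 6 * b - 1 := ⟨(q.1 - q.2 + 1) / 6, by omega⟩
    obtain ⟨a, ha⟩ : ∃ a, q.1 + 5 * q.2 = 6 * a - 1 := ⟨(q.1 + 5 * q.2 + 1) / 6, by omega⟩
    have ha' : (q.1 + 5 * q.2 + 1) / 6 = a := by omega
    have hb' : (q.1 - q.2 + 1) / 6 = b := by omega
    apply Prod.ext
    · simp only [ha', hb']
      omega
    · simp only [ha', hb']
      omega
  · intro p _
    unfold sgn
    simp only
    have e1 : p.1 + 5 * p.2 - 1 + 5 * (p.1 - p.2) = 6 * p.1 - 1 := by ring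
    rw [e1, ← lta_sign]
    have e2 : (Int.negOnePow p.1 : ℤ) * (Int.negOnePow p.2 : ℤ) =
        (-1 : ℤ) ^ (p.1 - p.2).natAbs := by
      have h1 : (-1 : ℤ) ^ (p.1 - p.2).natAbs = (Int.negOnePow (p.1 - p.2) : ℤ) := by
        rcases Int.even_or_odd (p.1 - p.2) with h | h
        · rw [(Int.natAbs_even.2 h).neg_one_pow, Int.negOnePow_even _ h]
          rfl
        · rw [(Int.natAbs_odd.2 h).neg_one_pow, Int.negOnePow_odd _ h]
          rfl
      rw [h1, Int.negOnePow_sub]
      push_cast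
      rfl
    rw [← e2]
    ring


end Pool.Agent.B5Z
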